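import Mathlib

set_option linter.unusedVariables false

namespace Pool.Agent.H328R2.ABC

/-- pairs in the same class: the determinant is a nonzero multiple of `M` -/
theorem det_ge (M : ℕ) (hM : 0 < M) (y z y' z' : ℕ) (h0 : 0 < y) (h0' : 0 < z)
    (h1 : 0 < y') (h1' : 0 < z')
    (hc : Nat.Coprime y z) (hc' : Nat.Coprime y' z') (hne : (y, z) ≠ (y', z'))
    (hcong : ((y * z' : ℕ) : ZMod M) = ((y' * z : ℕ) : ZMod M)) :
    (M : ℝ) ≤ |(y : ℝ) * z' - (y' : ℝ) * z| := by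
  have hdvd : (M : ℤ) ∣ ((y * z' : ℕ) : ℤ) - ((y' * z : ℕ) : ℤ) := by
    rw [← ZMod.intCast_zmod_eq_zero_iff_dvd, Int.cast_sub, Int.cast_natCast, Int.cast_natCast,
      hcong, sub_self]
  have hne0 : ((y * z' : ℕ) : ℤ) - ((y' * z : ℕ) : ℤ) ≠ 0 := by
    intro h
    have h2 : y * z' = y' * z := by
      have := sub_eq_zero.mp h
      exact_mod_cast this
    apply hne
    have a1 : y ∣ y' := by
      have : y ∣ y' * z := ⟨z', h2.symm⟩
      exact hc.dvd_of_dvd_mul_right this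
    have a2 : y' ∣ y := by
      have : y' ∣ y * z' := ⟨z, h2⟩
      exact hc'.dvd_of_dvd_mul_right this
    have a3 : y = y' := Nat.dvd_antisymm a1 a2
    subst a3
    have a4 : z' = z := Nat.eq_of_mul_eq_mul_left h0 h2
    rw [a4]
  have h3 : (M : ℤ) ≤ |((y * z' : ℕ) : ℤ) - ((y' * z : ℕ) : ℤ)| :=
    Int.le_of_dvd (abs_pos.mpr hne0) ((dvd_abs _ _).mpr hdvd)
  have h4 : ((M : ℤ) : ℝ) ≤ ((|((y * z' : ℕ) : ℤ) - ((y' * z : ℕ) : ℤ)| : ℤ) : ℝ) := by
    exact_mod_cast h3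
  rw [Int.cast_abs] at h4
  push_cast at h4
  exact h4

/-- splitting into the classes `y / z mod M` and into cells -/
theorem classes (d : ℕ) (hd : 1 ≤ d) (V W M : ℕ) (hM : 0 < M)
    (sg : ℤ) (hsg : sg = 1 ∨ sg = -1) (ρ B : ℝ) (hB : 0 ≤ B)
    (hρ : ∀ u : ZMod M, IsUnit u → (({t : ZMod M | t ^ d = u} : Set (ZMod M)).ncard : ℝ) ≤ ρ)
    (S : Finset (ℕ × ℕ))
    (hS : ∀ p ∈ S, 0 < p.1 ∧ 0 < p.2 ∧ Nat.Coprime (V * p.1 ^ d) (W * p.2 ^ d) ∧
      (M : ℤ) ∣ ((V * p.1 ^ d : ℕ) : ℤ) - sg * ((W * p.2 ^ d : ℕ) : ℤ))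
    {ι : Type} [DecidableEq ι] (Cell : Finset ι) (f : ℕ × ℕ → ι) (hf : ∀ p ∈ S, f p ∈ Cell)
    (hcell : ∀ T : Finset (ℕ × ℕ), T ⊆ S →
      (∀ p ∈ T, ∀ q ∈ T, f p = f q) →
      (∀ p ∈ T, ∀ q ∈ T, p ≠ q → (M : ℝ) ≤ |(p.1 : ℝ) * q.2 - (q.1 : ℝ) * p.2|) →
      (T.card : ℝ) ≤ B) :
    (S.card : ℝ) ≤ (Cell.card : ℝ) * (ρ * B) := by
  classical
  haveI : NeZero M := ⟨hM.ne'⟩
  have hρ0 : 0 ≤ ρ := le_trans (Nat.cast_nonneg _) (hρ 1 isUnit_one)
  rcases S.eq_empty_or_nonempty with hE | hE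
  · rw [hE, Finset.card_empty, Nat.cast_zero]
    positivity
  have hsu : IsUnit ((sg : ℤ) : ZMod M) := by
    rcases hsg with h | h
    · rw [h]; simp
    · rw [h]; simp
  -- units
  have hcong : ∀ p ∈ S, (V : ZMod M) * (p.1 : ZMod M) ^ d =
      (sg : ZMod M) * ((W : ZMod M) * (p.2 : ZMod M) ^ d) := by
    intro p hp
    obtain ⟨_, _, _, h⟩ := hS p hp
    rw [← ZMod.intCast_zmod_eq_zero_iff_dvd] at h
    push_cast at h
    exact sub_eq_zero.mp h
  have hunit : ∀ p ∈ S, IsUnit ((V : ZMod M) * (p.1 : ZMod M) ^ d) ∧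
      IsUnit ((W : ZMod M) * (p.2 : ZMod M) ^ d) := by
    intro p hp
    obtain ⟨_, _, hcop, _⟩ := hS p hp
    obtain ⟨a, b, hab⟩ := (Nat.isCoprime_iff_coprime.mpr hcop)
    have h1 : (a : ZMod M) * ((V : ZMod M) * (p.1 : ZMod M) ^ d) +
        (b : ZMod M) * ((W : ZMod M) * (p.2 : ZMod M) ^ d) = 1 := by
      have := congrArg (fun x : ℤ => (x : ZMod M)) hab
      push_cast at this
      exact this
    have h2 : IsUnit ((W : ZMod M) * (p.2 : ZMod M) ^ d) := by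
      rw [hcong p hp] at h1
      refine IsUnit.of_mul_eq_one ((a : ZMod M) * (sg : ZMod M) + (b : ZMod M)) ?_
      rw [← h1]
      ring
    exact ⟨by rw [hcong p hp]; exact hsu.mul h2, h2⟩
  have hpow : ∀ x : ZMod M, IsUnit (x ^ d) → IsUnit x := by
    intro x hx
    exact (isUnit_pow_iff (by omega)).mp hx
  have hVu : IsUnit (V : ZMod M) := by
    obtain ⟨p, hp⟩ := hE
    exact isUnit_of_mul_isUnit_left (hunit p hp).1
  have hWu : IsUnit (W : ZMod M) := by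
    obtain ⟨p, hp⟩ := hE
    exact isUnit_of_mul_isUnit_left (hunit p hp).2
  have hyu : ∀ p ∈ S, IsUnit (p.1 : ZMod M) := fun p hp =>
    hpow _ (isUnit_of_mul_isUnit_right (hunit p hp).1)
  have hzu : ∀ p ∈ S, IsUnit (p.2 : ZMod M) := fun p hp =>
    hpow _ (isUnit_of_mul_isUnit_right (hunit p hp).2)
  -- the class
  set t : ℕ × ℕ → ZMod M := fun p => (p.1 : ZMod M) * Ring.inverse (p.2 : ZMod M) with ht
  set u : ZMod M := (sg : ZMod M) * ((W : ZMod M) * Ring.inverse (V : ZMod M)) with hu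
  have huu : IsUnit u := hsu.mul (hWu.mul (isUnit_ringInverse.mpr hVu))
  have htz : ∀ p ∈ S, t p * (p.2 : ZMod M) = (p.1 : ZMod M) := by
    intro p hp
    simp only [ht]
    rw [mul_assoc, Ring.inverse_mul_cancel _ (hzu p hp), mul_one]
  have htd : ∀ p ∈ S, t p ^ d = u := by
    intro p hp
    have h1 : t p ^ d * (p.2 : ZMod M) ^ d = (p.1 : ZMod M) ^ d := by
      rw [← mul_pow, htz p hp]
    have h2 : (V : ZMod M) * (t p ^ d * (p.2 : ZMod M) ^ d) =
        (V : ZMod M) * (u * (p.2 : ZMod M) ^ d) := by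
      rw [h1, hcong p hp, hu]
      have := Ring.mul_inverse_cancel _ hVu
      calc (sg : ZMod M) * ((W : ZMod M) * (p.2 : ZMod M) ^ d)
          = ((V : ZMod M) * Ring.inverse (V : ZMod M)) *
              ((sg : ZMod M) * ((W : ZMod M) * (p.2 : ZMod M) ^ d)) := by rw [this, one_mul]
        _ = _ := by ring
    have h3 := hVu.mul_left_cancel h2
    exact ((hzu p hp).pow d).mul_right_cancel h3
  set Rt : Finset (ZMod M) := Finset.univ.filter (fun t => t ^ d = u) with hRt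
  have hRtc : (Rt.card : ℝ) ≤ ρ := by
    refine le_trans (le_of_eq ?_) (hρ u huu)
    rw [Set.ncard_eq_toFinset_card']
    congr 2
    ext x
    simp [hRt]
  have hmap : ∀ p ∈ S, (t p, f p) ∈ Rt ×ˢ Cell := by
    intro p hp
    rw [Finset.mem_product]
    exact ⟨Finset.mem_filter.mpr ⟨Finset.mem_univ _, htd p hp⟩, hf p hp⟩
  have hfib := Finset.card_eq_sum_card_fiberwise (f := fun p => (t p, f p)) (s := S)
    (t := Rt ×ˢ Cell) hmap
  have hbd : ∀ b ∈ Rt ×ˢ Cell, ((S.filter (fun p => (t p, f p) = b)).card : ℝ) ≤ B := by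
    intro b _
    refine hcell _ (Finset.filter_subset _ _) ?_ ?_
    · intro p hp q hq
      have h1 := (Finset.mem_filter.mp hp).2
      have h2 := (Finset.mem_filter.mp hq).2
      exact (congrArg Prod.snd (h1.trans h2.symm))
    · intro p hp q hq hpq
      have h1 := (Finset.mem_filter.mp hp)
      have h2 := (Finset.mem_filter.mp hq)
      have h3 : t p = t q := congrArg Prod.fst (h1.2.trans h2.2.symm)
      obtain ⟨p1, p2, p3, _⟩ := hS p h1.1
      obtain ⟨q1, q2, q3, _⟩ := hS q h2.1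
      have cp : Nat.Coprime p.1 p.2 :=
        Nat.Coprime.coprime_dvd_left (dvd_mul_of_dvd_right (dvd_pow_self _ (by omega)) _)
          (Nat.Coprime.coprime_dvd_right (dvd_mul_of_dvd_right (dvd_pow_self _ (by omega)) _) p3)
      have cq : Nat.Coprime q.1 q.2 :=
        Nat.Coprime.coprime_dvd_left (dvd_mul_of_dvd_right (dvd_pow_self _ (by omega)) _)
          (Nat.Coprime.coprime_dvd_right (dvd_mul_of_dvd_right (dvd_pow_self _ (by omega)) _) q3)
      refine det_ge M hM p.1 p.2 q.1 q.2 p1 p2 q1 q2 cp cq hpq ?_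
      push_cast
      rw [← htz p h1.1, ← htz q h2.1, h3]
      ring
  calc (S.card : ℝ) = ∑ b ∈ Rt ×ˢ Cell, ((S.filter (fun p => (t p, f p) = b)).card : ℝ) := by
        rw [hfib]; push_cast; rfl
    _ ≤ ∑ b ∈ Rt ×ˢ Cell, B := Finset.sum_le_sum hbd
    _ = (Cell.card : ℝ) * (Rt.card * B) := by
        rw [Finset.sum_const, Finset.card_product, nsmul_eq_mul]
        push_cast
        ring
    _ ≤ (Cell.card : ℝ) * (ρ * B) := by
        refine mul_le_mul_of_nonneg_left (mul_le_mul_of_nonneg_right hRtc hB) (by positivity)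

end Pool.Agent.H328R2.ABC
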