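import Pool.Agent.H328R2.ABC.OneClass

/-! Task H5: points on `U x³ = A z⁴ + B`. -/

namespace Pool.Agent.H328R2.ABC

open Finset

/-- number of points of the curve over `ZMod p` -/
theorem curve_mod_p (p : ℕ) (hp : p.Prime) (U A B : ℤ) (hU : ¬ (p : ℤ) ∣ U)
    (T : Finset (ZMod p × ZMod p))
    (hT : ∀ t ∈ T, (U : ZMod p) * t.1 ^ 3 = (A : ZMod p) * t.2 ^ 4 + (B : ZMod p)) :
    T.card ≤ 3 * p := by
  classical
  haveI : Fact p.Prime := ⟨hp⟩
  have hU' : (U : ZMod p) ≠ 0 := by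
    rw [Ne, ZMod.intCast_zmod_eq_zero_iff_dvd]; exact hU
  have hcard : (Finset.univ : Finset (ZMod p)).card = p := by
    rw [Finset.card_univ, ZMod.card]
  have := Finset.card_le_mul_card_image_of_maps_to (s := T) (t := (Finset.univ : Finset (ZMod p)))
    (f := Prod.snd) (fun a _ => Finset.mem_univ _) 3 ?_
  · rw [hcard] at this; exact this
  · intro v _
    let P : Polynomial (ZMod p) := Polynomial.C (U : ZMod p) * Polynomial.X ^ 3 -
      Polynomial.C ((A : ZMod p) * v ^ 4 + (B : ZMod p))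
    have hdeg : P.natDegree = 3 := by
      have h1 : (Polynomial.C (U : ZMod p) * Polynomial.X ^ 3).natDegree = 3 :=
        Polynomial.natDegree_C_mul_X_pow 3 _ hU'
      rw [show P = Polynomial.C (U : ZMod p) * Polynomial.X ^ 3 -
        Polynomial.C ((A : ZMod p) * v ^ 4 + (B : ZMod p)) from rfl, Polynomial.natDegree_sub_C, h1]
    have hP : P ≠ 0 := by
      intro h0; rw [h0] at hdeg; simp at hdeg
    have h2 : (T.filter (fun a => a.2 = v)).card ≤ P.roots.toFinset.card := by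
      refine Finset.card_le_card_of_injOn Prod.fst ?_ ?_
      · intro t ht
        rw [Finset.mem_coe, Finset.mem_filter] at ht
        rw [Finset.mem_coe, Multiset.mem_toFinset, Polynomial.mem_roots hP, Polynomial.IsRoot.def]
        have := hT t ht.1
        rw [ht.2] at this
        simp only [P, Polynomial.eval_sub, Polynomial.eval_mul, Polynomial.eval_C,
          Polynomial.eval_pow, Polynomial.eval_X]
        rw [this, sub_self]
      · intro s hs t ht hst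
        rw [Finset.mem_coe, Finset.mem_filter] at hs ht
        exact Prod.ext hst (hs.2.trans ht.2.symm)
    calc (T.filter (fun a => a.2 = v)).card ≤ P.roots.toFinset.card := h2
      _ ≤ Multiset.card P.roots := Multiset.toFinset_card_le _
      _ ≤ P.natDegree := Polynomial.card_roots' P
      _ = 3 := hdeg

/-- points with `p ∤ U x` -/
theorem one_prime (m : ℕ) (p : ℕ) (hp : p.Prime) (hp3 : 3 < p) (U A B : ℤ) (hU : U ≠ 0)
    (hA : A ≠ 0) (X : ℕ) (hX : 1 ≤ X) (Z : ℝ) (hZ : 1 ≤ Z)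
    (hbig : ((3 * (m + 1)).factorial : ℝ) * Z ^ (3 * (m * (m + 1) / 2)) * (X : ℝ) ^ (3 * (m + 1))
      < (p : ℝ) ^ (3 * (m + 1) * (3 * (m + 1) - 1) / 2))
    (S : Finset (ℕ × ℕ))
    (hS : ∀ q ∈ S, q.1 ≤ X ∧ (q.2 : ℝ) ≤ Z ∧ U * (q.1 : ℤ) ^ 3 = A * (q.2 : ℤ) ^ 4 + B ∧
      ¬ (p : ℤ) ∣ U * (q.1 : ℤ)) :
    S.card ≤ (3 * m + 8) * (3 * p) := by
  classical
  let f : ℕ × ℕ → ZMod p × ZMod p := fun q => ((q.1 : ZMod p), (q.2 : ZMod p))
  by_cases hne : S = ∅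
  · rw [hne]; simp
  have hUp : ¬ (p : ℤ) ∣ U := by
    obtain ⟨q, hq⟩ := Finset.nonempty_iff_ne_empty.2 hne
    intro h
    exact (hS q hq).2.2.2 (Dvd.dvd.mul_right h _)
  have himg : (S.image f).card ≤ 3 * p := by
    refine curve_mod_p p hp U A B hUp _ ?_
    intro t ht
    rw [Finset.mem_image] at ht
    obtain ⟨q, hq, rfl⟩ := ht
    have h1 := (hS q hq).2.2.1
    have h2 := congrArg (Int.cast : ℤ → ZMod p) h1
    push_cast at h2
    exact h2
  refine (Finset.card_le_mul_card_image S (3 * m + 8) ?_).trans (Nat.mul_le_mul_left _ himg)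
  intro a ha
  rw [Finset.mem_image] at ha
  obtain ⟨q₀, hq₀, rfl⟩ := ha
  let g : ℕ × ℕ → ℤ × ℤ := fun q => ((q.1 : ℤ), (q.2 : ℤ))
  have hg : Function.Injective g := by
    intro a b hab
    have h1 := congrArg Prod.fst hab
    have h2 := congrArg Prod.snd hab
    simp only [g] at h1 h2
    exact Prod.ext (by exact_mod_cast h1) (by exact_mod_cast h2)
  rw [← Finset.card_image_of_injective _ hg]
  have h3 : ¬ (p : ℤ) ∣ 3 * U * (q₀.1 : ℤ) := by
    intro h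
    rw [mul_assoc] at h
    have hpz : Prime (p : ℤ) := Nat.prime_iff_prime_int.1 hp
    rcases hpz.dvd_or_dvd h with h | h
    · have := Int.le_of_dvd (by norm_num) h
      omega
    · exact (hS q₀ hq₀).2.2.2 h
  refine one_class m p hp U A B (q₀.2 : ℤ) (q₀.1 : ℤ) hU hA h3 (X : ℝ) Z (by exact_mod_cast hX)
    hZ hbig _ ?_
  intro r hr
  rw [Finset.mem_image] at hr
  obtain ⟨q, hq, rfl⟩ := hr
  rw [Finset.mem_filter] at hq
  obtain ⟨hq1, hq2⟩ := hq
  have hq3 := hS q hq1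
  have e1 : ((q.1 : ℕ) : ZMod p) = (q₀.1 : ZMod p) := congrArg Prod.fst hq2
  have e2 : ((q.2 : ℕ) : ZMod p) = (q₀.2 : ZMod p) := congrArg Prod.snd hq2
  refine ⟨hq3.2.2.1, ?_, ?_, ?_, ?_⟩
  · show (p : ℤ) ∣ (q.1 : ℤ) - (q₀.1 : ℤ)
    rw [← ZMod.intCast_zmod_eq_zero_iff_dvd]
    push_cast
    rw [e1, sub_self]
  · show (p : ℤ) ∣ (q.2 : ℤ) - (q₀.2 : ℤ)
    rw [← ZMod.intCast_zmod_eq_zero_iff_dvd]
    push_cast
    rw [e2, sub_self]
  · show |(((q.1 : ℕ) : ℤ) : ℝ)| ≤ (X : ℝ)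
    rw [Int.cast_natCast, abs_of_nonneg (Nat.cast_nonneg _)]
    exact_mod_cast hq3.1
  · show |(((q.2 : ℕ) : ℤ) : ℝ)| ≤ Z
    rw [Int.cast_natCast, abs_of_nonneg (Nat.cast_nonneg _)]
    exact hq3.2.1

/-- the primes above `P0` satisfy the size condition of `one_class` -/
theorem big_of_lt (m p : ℕ) (X Z : ℝ) (hX : 1 ≤ X) (hZ : 1 ≤ Z)
    (hp : ((3 * (m + 1)).factorial : ℝ) * Z ^ ((1 : ℝ) / 3) * X ^ ((2 : ℝ) / (3 * m + 2)) < p) :
    ((3 * (m + 1)).factorial : ℝ) * Z ^ (3 * (m * (m + 1) / 2)) * X ^ (3 * (m + 1))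
      < (p : ℝ) ^ (3 * (m + 1) * (3 * (m + 1) - 1) / 2) := by
  set D : ℝ := ((3 * (m + 1)).factorial : ℝ) with hD
  have hD1 : 1 ≤ D := by
    rw [hD]; exact_mod_cast Nat.succ_le_of_lt (Nat.factorial_pos _)
  set E : ℕ := 3 * (m + 1) * (3 * (m + 1) - 1) / 2 with hE
  have h2E : 2 * E = 3 * (m + 1) * (3 * m + 2) := by
    have h1 : 3 * (m + 1) - 1 = 3 * m + 2 := by omega
    rw [hE, h1]
    have h2 : Even (3 * (m + 1) * (3 * m + 2)) := by
      have : 3 * (m + 1) * (3 * m + 2) = (3 * m + 2) * ((3 * m + 2) + 1) := by ring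
      rw [this]; exact Nat.even_mul_succ_self _
    exact Nat.mul_div_cancel' h2.two_dvd
  set e1 : ℕ := 3 * (m * (m + 1) / 2) with he1
  have h2e1 : 2 * e1 = 3 * (m * (m + 1)) := by
    have h2 : Even (m * (m + 1)) := Nat.even_mul_succ_self _
    rw [he1, ← mul_assoc, mul_comm 2 3, mul_assoc, Nat.mul_div_cancel' h2.two_dvd]
  have hE1 : 1 ≤ E := by
    by_contra h
    push Not at h
    have : E = 0 := by omega
    rw [this] at h2E
    have : 0 < 3 * (m + 1) * (3 * m + 2) := by positivity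
    omega
  have hX0 : 0 < X := by linarith
  have hZ0 : 0 < Z := by linarith
  set P0 : ℝ := D * Z ^ ((1 : ℝ) / 3) * X ^ ((2 : ℝ) / (3 * m + 2)) with hP0
  have hP0pos : 0 < P0 := by positivity
  have h4 : P0 ^ E < (p : ℝ) ^ E := pow_lt_pow_left₀ hp hP0pos.le (by omega)
  refine lt_of_le_of_lt ?_ h4
  rw [hP0, mul_pow, mul_pow]
  have a1 : D ≤ D ^ E := le_self_pow₀ hD1 (by omega)
  have a2 : Z ^ e1 ≤ (Z ^ ((1 : ℝ) / 3)) ^ E := by
    rw [← Real.rpow_natCast (Z ^ ((1 : ℝ) / 3)) E, ← Real.rpow_mul hZ0.le, ← Real.rpow_natCast Z e1]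
    refine Real.rpow_le_rpow_of_exponent_le hZ ?_
    have b1 : (2 : ℝ) * E = 3 * (m + 1) * (3 * m + 2) := by exact_mod_cast h2E
    have b2 : (2 : ℝ) * e1 = 3 * (m * (m + 1)) := by exact_mod_cast h2e1
    have b3 : (0 : ℝ) ≤ m := Nat.cast_nonneg m
    nlinarith
  have a3 : X ^ (3 * (m + 1)) = (X ^ ((2 : ℝ) / (3 * m + 2))) ^ E := by
    rw [← Real.rpow_natCast (X ^ ((2 : ℝ) / (3 * m + 2))) E, ← Real.rpow_mul hX0.le,
      ← Real.rpow_natCast X]
    congr 1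
    have b1 : (2 : ℝ) * E = 3 * (m + 1) * (3 * m + 2) := by exact_mod_cast h2E
    have b3 : (3 * (m : ℝ) + 2) ≠ 0 := by positivity
    push_cast
    field_simp
    linarith
  rw [← a3]
  have hXpos : 0 < X ^ (3 * (m + 1)) := by positivity
  exact mul_le_mul_of_nonneg_right (mul_le_mul a1 a2 (by positivity) (by positivity)) hXpos.le

theorem curve_count (ε : ℝ) (hε : 0 < ε) :
    ∃ C : ℝ, 0 < C ∧ ∀ X : ℕ, 1 ≤ X → ∀ Z : ℝ, 1 ≤ Z → ∀ U A B : ℤ, U ≠ 0 → A ≠ 0 →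
      |U| ≤ X → |A| ≤ X → |B| ≤ X → ∀ S : Finset (ℕ × ℕ),
      (∀ p ∈ S, 1 ≤ p.1 ∧ p.1 ≤ X ∧ 1 ≤ p.2 ∧ p.2 ≤ X ∧ (p.2 : ℝ) ≤ Z ∧
        U * (p.1 : ℤ) ^ 3 = A * (p.2 : ℤ) ^ 4 + B) →
      (S.card : ℝ) ≤ C * (X : ℝ) ^ ε * Z ^ ((1 : ℝ) / 3) := by
  classical
  obtain ⟨m, hm⟩ := exists_nat_ge (2 / ε)
  set k : ℕ := 3 * m + 2 with hk
  set D : ℝ := ((3 * (m + 1)).factorial : ℝ) with hD
  have hD6 : 6 ≤ D := by
    rw [hD]
    have h1 : Nat.factorial 3 ≤ (3 * (m + 1)).factorial := Nat.factorial_le (by omega)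
    have h2 : (Nat.factorial 3 : ℝ) ≤ ((3 * (m + 1)).factorial : ℝ) := by exact_mod_cast h1
    norm_num [Nat.factorial] at h2 ⊢
    exact h2
  refine ⟨(k : ℝ) * ((3 * m + 8) * (3 * (2 ^ k * (2 * D)))), by positivity, ?_⟩
  intro X hX Z hZ U A B hU hA hUX _ _ S hS
  have hXr : (1 : ℝ) ≤ X := by exact_mod_cast hX
  set Y : ℝ := (X : ℝ) ^ ((2 : ℝ) / (3 * m + 2)) with hY
  have hY1 : 1 ≤ Y := Real.one_le_rpow hXr (by positivity)
  set P0 : ℝ := D * Z ^ ((1 : ℝ) / 3) * Y with hP0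
  have hZ3 : 1 ≤ Z ^ ((1 : ℝ) / 3) := Real.one_le_rpow hZ (by norm_num)
  have hP0D : D ≤ P0 := by
    rw [hP0]
    have : 1 ≤ Z ^ ((1 : ℝ) / 3) * Y := by nlinarith
    rw [mul_assoc]
    nlinarith
  have hP0Y : Y ≤ P0 := by
    rw [hP0]
    have : 1 ≤ D * Z ^ ((1 : ℝ) / 3) := by nlinarith
    nlinarith
  set P1 : ℕ := ⌈P0⌉₊ with hP1
  have hP1a : P0 ≤ P1 := Nat.le_ceil _
  have hP1b : (P1 : ℝ) ≤ 2 * P0 := by
    have := Nat.ceil_lt_add_one (show 0 ≤ P0 by linarith)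
    linarith
  have hP1pos : 0 < P1 := by
    have : (0 : ℝ) < P1 := by linarith
    exact_mod_cast this
  have hex : ∀ i : ℕ, ∃ p : ℕ, p.Prime ∧ 2 ^ i * P1 < p ∧ p ≤ 2 ^ (i + 1) * P1 := by
    intro i
    obtain ⟨p, h1, h2, h3⟩ := Nat.exists_prime_lt_and_le_two_mul (2 ^ i * P1) (by positivity)
    exact ⟨p, h1, h2, by rw [pow_succ]; linarith⟩
  choose pr hpr1 hpr2 hpr3 using hex
  have hmono : StrictMono pr := by
    refine strictMono_nat_of_lt_succ ?_
    intro n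
    exact lt_of_le_of_lt (hpr3 n) (hpr2 (n + 1))
  have hprP0 : ∀ i, P0 < pr i := by
    intro i
    have h1 : ((2 ^ i * P1 : ℕ) : ℝ) < pr i := by exact_mod_cast hpr2 i
    have h2 : (1 : ℝ) ≤ 2 ^ i := one_le_pow₀ (by norm_num)
    have h3 : (P1 : ℝ) ≤ ((2 ^ i * P1 : ℕ) : ℝ) := by
      push_cast
      have : (0 : ℝ) ≤ P1 := Nat.cast_nonneg _
      nlinarith
    linarith
  -- every point is good for one of the primes
  have hgood : ∀ q ∈ S, ∃ i ∈ Finset.range k, ¬ (pr i : ℤ) ∣ U * (q.1 : ℤ) := by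
    intro q hq
    by_contra hcon
    push Not at hcon
    obtain ⟨hq1, hqX, _, _, _, _⟩ := hS q hq
    set n : ℕ := (U * (q.1 : ℤ)).natAbs with hn
    have hn0 : n ≠ 0 := by
      rw [hn, Int.natAbs_ne_zero]
      exact mul_ne_zero hU (by exact_mod_cast (by omega : q.1 ≠ 0))
    have hdiv : ∀ i ∈ Finset.range k, pr i ∣ n := by
      intro i hi
      exact Int.natCast_dvd.1 (hcon i hi)
    have hprod : ∏ p ∈ (Finset.range k).image pr, p ∣ n := by
      refine Finset.prod_primes_dvd n ?_ ?_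
      · intro a ha
        rw [Finset.mem_image] at ha
        obtain ⟨i, _, rfl⟩ := ha
        exact (hpr1 i).prime
      · intro a ha
        rw [Finset.mem_image] at ha
        obtain ⟨i, hi, rfl⟩ := ha
        exact hdiv i hi
    rw [Finset.prod_image (fun a _ b _ hab => hmono.injective hab)] at hprod
    have hle : ∏ i ∈ Finset.range k, pr i ≤ n := Nat.le_of_dvd (Nat.pos_of_ne_zero hn0) hprod
    have hnX : n ≤ X * X := by
      rw [hn, Int.natAbs_mul, Int.natAbs_natCast]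
      refine Nat.mul_le_mul ?_ hqX
      have : (U.natAbs : ℤ) ≤ X := by rw [Int.natCast_natAbs]; exact hUX
      exact_mod_cast this
    have hlt : Y ^ k < ∏ i ∈ Finset.range k, (pr i : ℝ) := by
      have h1 : ∏ i ∈ Finset.range k, Y < ∏ i ∈ Finset.range k, (pr i : ℝ) := by
        refine Finset.prod_lt_prod_of_nonempty (fun _ _ => by linarith) ?_ ?_
        · intro i _
          exact lt_of_le_of_lt hP0Y (hprP0 i)
        · exact ⟨0, by rw [Finset.mem_range, hk]; omega⟩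
      rwa [Finset.prod_const, Finset.card_range] at h1
    have hYk : Y ^ k = (X : ℝ) * X := by
      rw [hY, ← Real.rpow_natCast, ← Real.rpow_mul (by linarith)]
      have : (2 : ℝ) / (3 * m + 2) * (k : ℕ) = 2 := by
        rw [hk]; push_cast
        have : (3 * (m : ℝ) + 2) ≠ 0 := by positivity
        field_simp
      rw [this, Real.rpow_two, sq]
    have h5 : ((∏ i ∈ Finset.range k, pr i : ℕ) : ℝ) ≤ (X : ℝ) * X := by
      exact_mod_cast hle.trans hnX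
    push_cast at h5
    linarith
  -- the cover
  let T : ℕ → Finset (ℕ × ℕ) := fun i => S.filter (fun q => ¬ (pr i : ℤ) ∣ U * (q.1 : ℤ))
  have hcover : S ⊆ (Finset.range k).biUnion T := by
    intro q hq
    obtain ⟨i, hi, hi'⟩ := hgood q hq
    rw [Finset.mem_biUnion]
    exact ⟨i, hi, Finset.mem_filter.2 ⟨hq, hi'⟩⟩
  have hT : ∀ i ∈ Finset.range k, (T i).card ≤ (3 * m + 8) * (3 * (2 ^ k * P1)) := by
    intro i hi
    have h1 : (T i).card ≤ (3 * m + 8) * (3 * pr i) := by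
      refine one_prime m (pr i) (hpr1 i) ?_ U A B hU hA X hX Z hZ ?_ (T i) ?_
      · have h2 := hprP0 i
        have : (3 : ℝ) < pr i := by linarith
        exact_mod_cast this
      · exact big_of_lt m (pr i) X Z hXr hZ (hprP0 i)
      · intro q hq
        rw [Finset.mem_filter] at hq
        obtain ⟨_, h2, _, _, h5, h6⟩ := hS q hq.1
        exact ⟨h2, h5, h6, hq.2⟩
    refine h1.trans (Nat.mul_le_mul_left _ (Nat.mul_le_mul_left _ ((hpr3 i).trans ?_)))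
    refine Nat.mul_le_mul_right _ (Nat.pow_le_pow_right (by norm_num) ?_)
    rw [Finset.mem_range] at hi
    omega
  have hcard : S.card ≤ k * ((3 * m + 8) * (3 * (2 ^ k * P1))) := by
    calc S.card ≤ ((Finset.range k).biUnion T).card := Finset.card_le_card hcover
      _ ≤ ∑ i ∈ Finset.range k, (T i).card := Finset.card_biUnion_le
      _ ≤ ∑ i ∈ Finset.range k, (3 * m + 8) * (3 * (2 ^ k * P1)) := Finset.sum_le_sum hT
      _ = k * ((3 * m + 8) * (3 * (2 ^ k * P1))) := by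
          rw [Finset.sum_const, Finset.card_range, smul_eq_mul]
  have hcard' : (S.card : ℝ) ≤ (k : ℝ) * ((3 * m + 8) * (3 * (2 ^ k * (P1 : ℝ)))) := by
    exact_mod_cast hcard
  have hYX : Y ≤ (X : ℝ) ^ ε := by
    rw [hY]
    refine Real.rpow_le_rpow_of_exponent_le hXr ?_
    rw [div_le_iff₀ (by positivity)]
    rw [div_le_iff₀ hε] at hm
    nlinarith
  calc (S.card : ℝ) ≤ (k : ℝ) * ((3 * m + 8) * (3 * (2 ^ k * (P1 : ℝ)))) := hcard'
    _ ≤ (k : ℝ) * ((3 * m + 8) * (3 * (2 ^ k * (2 * P0)))) := by gcongr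
    _ = (k : ℝ) * ((3 * m + 8) * (3 * (2 ^ k * (2 * D)))) * Y * Z ^ ((1 : ℝ) / 3) := by
        rw [hP0]; ring
    _ ≤ (k : ℝ) * ((3 * m + 8) * (3 * (2 ^ k * (2 * D)))) * (X : ℝ) ^ ε * Z ^ ((1 : ℝ) / 3) := by
        gcongr

end Pool.Agent.H328R2.ABC
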