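import Pool.Agent.H328R2.ABC.Defs

/-!
Task A: the parts of `n` by exponent class.
-/

set_option autoImplicit false
set_option linter.unusedVariables false

namespace Pool.Agent.H328R2.ABC

open Finset

theorem rad_pos (n : ℕ) : 0 < rad n :=
  Finset.prod_pos (fun _ hp => (Nat.prime_of_mem_primeFactors hp).pos)

theorem part_pos (S : Finset ℕ) (n : ℕ) : 0 < part S n :=
  Finset.prod_pos (fun _ hp => pow_pos (Nat.prime_of_mem_primeFactors (mem_filter.1 hp).1).pos _)

theorem rpart_pos (S : Finset ℕ) (n : ℕ) : 0 < rpart S n :=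
  Finset.prod_pos (fun _ hp => (Nat.prime_of_mem_primeFactors (mem_filter.1 hp).1).pos)

theorem fact_pos {n p : ℕ} (hp : p ∈ n.primeFactors) : 1 ≤ n.factorization p := by
  have h1 := Nat.prime_of_mem_primeFactors hp
  have h2 := Nat.dvd_of_mem_primeFactors hp
  have h3 : n ≠ 0 := (Nat.mem_primeFactors.1 hp).2.2
  exact (h1.dvd_iff_one_le_factorization h3).1 h2

theorem class_mem {n p : ℕ} (hp : p ∈ n.primeFactors) : min (n.factorization p) 5 ∈ All := by
  have h := fact_pos hp
  unfold All
  simp only [mem_insert, mem_singleton]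
  omega

theorem rpart_le_part (S : Finset ℕ) (n : ℕ) : rpart S n ≤ part S n := by
  unfold rpart part
  apply Finset.prod_le_prod'
  intro p hp
  have h1 := fact_pos (mem_filter.1 hp).1
  exact Nat.le_self_pow (by omega) p

theorem prod_pow_fact {n : ℕ} (hn : n ≠ 0) : ∏ p ∈ n.primeFactors, p ^ n.factorization p = n := by
  have := Nat.prod_factorization_pow_eq_self hn
  rw [Finsupp.prod, Nat.support_factorization] at this
  exact this

theorem part_compl (S : Finset ℕ) {n : ℕ} (hn : n ≠ 0) :
    part (All \ S) n * part S n = n := by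
  have h1 : n.primeFactors.filter (fun p => min (n.factorization p) 5 ∈ All \ S) =
      n.primeFactors.filter (fun p => ¬ min (n.factorization p) 5 ∈ S) := by
    apply Finset.filter_congr
    intro p hp
    rw [mem_sdiff]
    exact ⟨fun h => h.2, fun h => ⟨class_mem hp, h⟩⟩
  unfold part
  rw [h1, mul_comm, Finset.prod_filter_mul_prod_filter_not, prod_pow_fact hn]

theorem part_dvd (S : Finset ℕ) {n : ℕ} (hn : n ≠ 0) : part S n ∣ n :=
  ⟨part (All \ S) n, by rw [mul_comm, part_compl S hn]⟩

theorem rpart_compl (S : Finset ℕ) (n : ℕ) (hn : n ≠ 0) :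
    rpart (All \ S) n * rpart S n = rad n := by
  have h1 : n.primeFactors.filter (fun p => min (n.factorization p) 5 ∈ All \ S) =
      n.primeFactors.filter (fun p => ¬ min (n.factorization p) 5 ∈ S) := by
    apply Finset.filter_congr
    intro p hp
    rw [mem_sdiff]
    exact ⟨fun h => h.2, fun h => ⟨class_mem hp, h⟩⟩
  unfold rpart rad
  rw [h1, mul_comm, Finset.prod_filter_mul_prod_filter_not]

theorem primeFactors_prod_pow' {s : Finset ℕ} {e : ℕ → ℕ} (hs : ∀ p ∈ s, p.Prime)
    (he : ∀ p ∈ s, e p ≠ 0) : (∏ p ∈ s, p ^ e p).primeFactors = s := by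
  induction s using Finset.induction_on with
  | empty => simp
  | insert p s hp ih =>
    rw [Finset.prod_insert hp]
    have h1 : p.Prime := hs p (mem_insert_self _ _)
    have hcop : Nat.Coprime (p ^ e p) (∏ q ∈ s, q ^ e q) := by
      apply Nat.Coprime.pow_left
      apply Nat.Coprime.prod_right
      intro q hq
      apply Nat.Coprime.pow_right
      rw [Nat.coprime_primes h1 (hs q (mem_insert_of_mem hq))]
      rintro rfl
      exact hp hq
    rw [hcop.primeFactors_mul, ih (fun q hq => hs q (mem_insert_of_mem hq))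
      (fun q hq => he q (mem_insert_of_mem hq)),
      Nat.primeFactors_prime_pow (he p (mem_insert_self _ _)) h1]
    rfl

theorem primeFactors_part (S : Finset ℕ) (n : ℕ) : (part S n).primeFactors =
    n.primeFactors.filter (fun p => min (n.factorization p) 5 ∈ S) := by
  unfold part
  apply primeFactors_prod_pow'
  · intro p hp
    exact Nat.prime_of_mem_primeFactors (mem_filter.1 hp).1
  · intro p hp
    have := fact_pos (mem_filter.1 hp).1
    omega

theorem rad_part (S : Finset ℕ) (n : ℕ) : rad (part S n) = rpart S n := by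
  unfold rad rpart
  rw [primeFactors_part]

theorem rad_eq_rpart_All {n : ℕ} (hn : n ≠ 0) : rad n = rpart All n := by
  unfold rad rpart
  rw [Finset.filter_true_of_mem]
  intro p hp
  exact class_mem hp

theorem filter_class (S : Finset ℕ) (n : ℕ) :
    n.primeFactors.filter (fun p => min (n.factorization p) 5 ∈ S) =
      S.biUnion (fun i => n.primeFactors.filter (fun p => min (n.factorization p) 5 ∈ ({i} : Finset ℕ))) := by
  ext p
  simp only [mem_filter, mem_biUnion, mem_singleton]
  constructor
  · rintro ⟨h1, h2⟩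
    exact ⟨_, h2, h1, rfl⟩
  · rintro ⟨i, hi, h1, h2⟩
    exact ⟨h1, h2 ▸ hi⟩

theorem class_disj (n : ℕ) (S : Finset ℕ) : Set.PairwiseDisjoint (S : Set ℕ)
    (fun i => n.primeFactors.filter (fun p => min (n.factorization p) 5 ∈ ({i} : Finset ℕ))) := by
  intro i _ j _ hij
  rw [Function.onFun, Finset.disjoint_left]
  intro p hp hq
  apply hij
  rw [mem_filter, mem_singleton] at hp hq
  rw [← hp.2, ← hq.2]

theorem rpart_prod {S : Finset ℕ} (hS : S ⊆ All) (n : ℕ) :
    rpart S n = ∏ i ∈ S, rpart {i} n := by
  unfold rpart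
  rw [filter_class, Finset.prod_biUnion (class_disj n S)]

theorem part_prod {S : Finset ℕ} (hS : S ⊆ All) (n : ℕ) :
    part S n = ∏ i ∈ S, part {i} n := by
  unfold part
  rw [filter_class, Finset.prod_biUnion (class_disj n S)]

theorem part_single {i : ℕ} (h1 : 1 ≤ i) (h4 : i ≤ 4) (n : ℕ) :
    part {i} n = rpart {i} n ^ i := by
  unfold part rpart
  rw [← Finset.prod_pow]
  apply Finset.prod_congr rfl
  intro p hp
  rw [mem_filter, mem_singleton] at hp
  congr 1
  omega

theorem rpart_five (n : ℕ) : rpart {5} n ^ 5 ≤ part {5} n := by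
  unfold part rpart
  rw [← Finset.prod_pow]
  apply Finset.prod_le_prod'
  intro p hp
  rw [mem_filter, mem_singleton] at hp
  exact Nat.pow_le_pow_right (Nat.prime_of_mem_primeFactors hp.1).pos (by omega)

theorem exists_root {J : Finset ℕ} {d : ℕ} (hd : 1 ≤ d) (h : ok J d) (n : ℕ) :
    ∃ y : ℕ, 0 < y ∧ y ^ d = part J n := by
  obtain ⟨_, h | h⟩ := h
  · subst h
    exact ⟨part J n, part_pos _ _, by rw [pow_one]⟩
  · refine ⟨∏ p ∈ n.primeFactors.filter (fun p => min (n.factorization p) 5 ∈ J),
      p ^ (n.factorization p / d), ?_, ?_⟩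
    · exact Finset.prod_pos (fun _ hp =>
        pow_pos (Nat.prime_of_mem_primeFactors (mem_filter.1 hp).1).pos _)
    · unfold part
      rw [← Finset.prod_pow]
      apply Finset.prod_congr rfl
      intro p hp
      rw [mem_filter] at hp
      obtain ⟨h5, hdv⟩ := h _ hp.2
      have h6 : min (n.factorization p) 5 = n.factorization p := by omega
      rw [h6] at hdv
      rw [← pow_mul, Nat.div_mul_cancel hdv]

theorem rad_mul {m n : ℕ} (h : Nat.Coprime m n) : rad (m * n) = rad m * rad n := by
  unfold rad
  rw [h.primeFactors_mul, Finset.prod_union h.disjoint_primeFactors]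

theorem rad_abc {a b : ℕ} (h : Nat.Coprime a b) :
    rad (a * b * (a + b)) = rad a * rad b * rad (a + b) := by
  have h1 : Nat.Coprime a (a + b) := by simpa using h
  have h2 : Nat.Coprime b (a + b) := by
    have := h.symm
    simpa [Nat.add_comm] using this
  rw [rad_mul (Nat.Coprime.mul_left h1 h2), rad_mul h]

theorem rad_le {n : ℕ} (hn : n ≠ 0) : rad n ≤ n := by
  have h1 := rpart_le_part All n
  rw [← rad_eq_rpart_All hn] at h1
  exact h1.trans (Nat.le_of_dvd (Nat.pos_of_ne_zero hn) (part_dvd All hn))

end Pool.Agent.H328R2.ABC
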