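import Mathlib
import Pool.Agent.H328R2.ABC.Defs
import Pool.Agent.H328R2.ABC.Parts

/-! Common lemmas for tasks E and H6. -/

set_option autoImplicit false

namespace Pool.Agent.H328R2.ABC

open Finset

theorem h81_side_pos {a b : ℕ} (ha : 0 < a) (hb : 0 < b) (r : Fin 3) : 0 < side a b r := by
  fin_cases r <;> simp [side] <;> omega

theorem h81_side_le {a b X : ℕ} (h : a + b ≤ X) (r : Fin 3) : side a b r ≤ X := by
  fin_cases r <;> simp [side] <;> omega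

theorem h81_side_inj {a b a' b' : ℕ} {r q : Fin 3} (hrq : r ≠ q) (h1 : side a b r = side a' b' r)
    (h2 : side a b q = side a' b' q) : (a, b) = (a', b') := by
  fin_cases r <;> fin_cases q <;> simp [side] at h1 h2 hrq ⊢ <;> omega

theorem h81_part_le {S : Finset ℕ} {n X : ℕ} (hn : 0 < n) (hX : n ≤ X) : part S n ≤ X :=
  (Nat.le_of_dvd hn (part_dvd S hn.ne')).trans hX

/-- summation over the fibres of `(U, W, n)` -/
theorem h81_fiber_sum (S : Finset (ℕ × ℕ)) (X : ℕ) (key : ℕ × ℕ → ℕ × ℕ × ℕ)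
    (hkey : ∀ t ∈ S, key t ∈ Icc 1 X ×ˢ (Icc 1 X ×ˢ Icc 1 X)) (B : ℝ)
    (hB : ∀ U ∈ Icc 1 X, ∀ W ∈ Icc 1 X, ∀ n ∈ Icc 1 X,
      ((S.filter fun t => key t = (U, W, n)).card : ℝ) ≤
        B * (1 / (rad U : ℝ) * (1 / (rad W : ℝ) * (1 / (rad n : ℝ))))) :
    (S.card : ℝ) ≤ B * (∑ V ∈ Icc 1 X, (1 : ℝ) / (rad V : ℝ)) ^ 3 := by
  classical
  rw [Finset.card_eq_sum_card_fiberwise (f := key) (t := Icc 1 X ×ˢ (Icc 1 X ×ˢ Icc 1 X))
    (fun t ht => hkey t ht)]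
  push_cast
  rw [sum_product]
  simp only [sum_product]
  calc ∑ U ∈ Icc 1 X, ∑ W ∈ Icc 1 X, ∑ n ∈ Icc 1 X,
        ((S.filter fun t => key t = (U, W, n)).card : ℝ)
      ≤ ∑ U ∈ Icc 1 X, ∑ W ∈ Icc 1 X, ∑ n ∈ Icc 1 X,
        B * (1 / (rad U : ℝ) * (1 / (rad W : ℝ) * (1 / (rad n : ℝ)))) :=
        sum_le_sum fun U hU => sum_le_sum fun W hW => sum_le_sum fun n hn => hB U hU W hW n hn
    _ = B * (∑ V ∈ Icc 1 X, (1 : ℝ) / (rad V : ℝ)) ^ 3 := by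
        simp only [← mul_sum, ← sum_mul]
        ring

theorem h81_perm : ∀ r q k : Fin 3, r ≠ q → r ≠ k → q ≠ k → k = 2 ∨ q = 2 ∨ r = 2 := by
  decide

theorem h81_pow_bound {z : ℕ} {P Q : ℝ} (hP : 0 < P) (hz : 0 < z)
    (h : P * (z : ℝ) ^ ((1 : ℝ) / 3) ≤ Q) :
    (z : ℝ) ≤ (Q / P) ^ (3 : ℝ) ∧ 1 ≤ Q / P := by
  have h1 : (z : ℝ) ^ ((1 : ℝ) / 3) ≤ Q / P := by
    rw [le_div_iff₀ hP, mul_comm]
    exact h
  have hz1 : (1 : ℝ) ≤ z := by exact_mod_cast hz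
  have h2 : (1 : ℝ) ≤ (z : ℝ) ^ ((1 : ℝ) / 3) := Real.one_le_rpow hz1 (by norm_num)
  refine ⟨?_, h2.trans h1⟩
  have h3 : ((z : ℝ) ^ ((1 : ℝ) / 3)) ^ (3 : ℝ) = z := by
    rw [← Real.rpow_mul (by positivity)]
    norm_num
  rw [← h3]
  exact Real.rpow_le_rpow (by positivity) h1 (by norm_num)

end Pool.Agent.H328R2.ABC
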