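import Pool.Agent.H328R2.ABC.Defs

/-!
# Task B: the sum of `1 / rad V`
-/

namespace Pool.Agent.H328R2.ABC

open Finset

namespace RadSumAux

lemma rad_mul_cop {m n : ℕ} (h : Nat.Coprime m n) : rad (m * n) = rad m * rad n := by
  unfold rad
  rw [h.primeFactors_mul, Finset.prod_union h.disjoint_primeFactors]

lemma rad_pp {p k : ℕ} (hp : p.Prime) (hk : k ≠ 0) : rad (p ^ k) = p := by
  unfold rad
  rw [Nat.primeFactors_prime_pow hk hp]; simp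

/-- the multiplicative function `n ^ (-ε) / rad n` -/
noncomputable def ff (ε : ℝ) (n : ℕ) : ℝ := (n : ℝ) ^ (-ε) / rad n

lemma ff_one (ε : ℝ) : ff ε 1 = 1 := by simp [ff, rad]

lemma ff_mul (ε : ℝ) {m n : ℕ} (h : Nat.Coprime m n) : ff ε (m * n) = ff ε m * ff ε n := by
  unfold ff
  rw [rad_mul_cop h]
  push_cast
  rw [Real.mul_rpow (by positivity) (by positivity), mul_div_mul_comm]

lemma ff_nonneg (ε : ℝ) (n : ℕ) : 0 ≤ ff ε n := by unfold ff; positivity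

lemma ff_pp (ε : ℝ) {p : ℕ} (hp : p.Prime) (n : ℕ) :
    ff ε (p ^ n) = (p : ℝ)⁻¹ * ((p : ℝ) ^ (-ε)) ^ n + (if n = 0 then 1 - (p : ℝ)⁻¹ else 0) := by
  have hp0 : (p : ℝ) ≠ 0 := by exact_mod_cast hp.ne_zero
  rcases Nat.eq_zero_or_pos n with h | h
  · subst h
    simp [ff_one]
  · rw [if_neg (by omega), add_zero]
    unfold ff
    rw [rad_pp hp (by omega)]
    push_cast
    rw [← Real.rpow_natCast ((p : ℝ) ^ (-ε)) n, ← Real.rpow_natCast (p : ℝ) n,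
      ← Real.rpow_mul (by positivity), ← Real.rpow_mul (by positivity), mul_comm (n : ℝ) (-ε)]
    field_simp

lemma hasSum_ff (ε : ℝ) (hε : 0 < ε) {p : ℕ} (hp : p.Prime) :
    HasSum (fun n : ℕ => ff ε (p ^ n))
      ((p : ℝ)⁻¹ * (1 - (p : ℝ) ^ (-ε))⁻¹ + (1 - (p : ℝ)⁻¹)) := by
  have hx0 : 0 ≤ (p : ℝ) ^ (-ε) := by positivity
  have hp1 : (1 : ℝ) < p := by exact_mod_cast hp.one_lt
  have hx1 : (p : ℝ) ^ (-ε) < 1 := Real.rpow_lt_one_of_one_lt_of_neg hp1 (by linarith)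
  have h1 := (hasSum_geometric_of_lt_one hx0 hx1).mul_left (p : ℝ)⁻¹
  have h2 : HasSum (fun n : ℕ => if n = 0 then 1 - (p : ℝ)⁻¹ else 0) (1 - (p : ℝ)⁻¹) := by
    have := hasSum_ite_eq (0 : ℕ) (1 - (p : ℝ)⁻¹)
    simpa using this
  have h3 := h1.add h2
  refine h3.congr_fun ?_
  intro n
  exact ff_pp ε hp n

lemma local_le (ε : ℝ) (hε : 0 < ε) {p : ℕ} (hp : p.Prime) :
    ∑' n : ℕ, ff ε (p ^ n) ≤ Real.exp ((1 - (2 : ℝ) ^ (-ε))⁻¹ * (p : ℝ) ^ (-(1 + ε))) := by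
  rw [(hasSum_ff ε hε hp).tsum_eq]
  have hp2 : (2 : ℝ) ≤ p := by exact_mod_cast hp.two_le
  have hp0 : (0 : ℝ) < p := by linarith
  have hx0 : 0 < (p : ℝ) ^ (-ε) := by positivity
  have hp1 : (1 : ℝ) < p := by linarith
  have hx1 : (p : ℝ) ^ (-ε) < 1 := Real.rpow_lt_one_of_one_lt_of_neg hp1 (by linarith)
  have hy1 : (2 : ℝ) ^ (-ε) < 1 := Real.rpow_lt_one_of_one_lt_of_neg (by norm_num) (by linarith)
  have hxy : (p : ℝ) ^ (-ε) ≤ (2 : ℝ) ^ (-ε) :=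
    Real.rpow_le_rpow_of_nonpos (by norm_num) hp2 (by linarith)
  have hsplit : (p : ℝ) ^ (-(1 + ε)) = (p : ℝ)⁻¹ * (p : ℝ) ^ (-ε) := by
    rw [neg_add, Real.rpow_add hp0, Real.rpow_neg_one]
  rw [hsplit]
  set x := (p : ℝ) ^ (-ε) with hx
  set y := (2 : ℝ) ^ (-ε) with hy
  have h1 : (1 - x)⁻¹ ≤ (1 - y)⁻¹ := inv_anti₀ (by linarith) (by linarith)
  have h2 : (p : ℝ)⁻¹ * (1 - x)⁻¹ + (1 - (p : ℝ)⁻¹) = 1 + (p : ℝ)⁻¹ * (x * (1 - x)⁻¹) := by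
    have : (1 - x) ≠ 0 := by linarith
    field_simp
    ring
  rw [h2]
  have h3 : 1 + (p : ℝ)⁻¹ * (x * (1 - x)⁻¹) ≤ 1 + (1 - y)⁻¹ * ((p : ℝ)⁻¹ * x) := by
    have h4 : (p : ℝ)⁻¹ * (x * (1 - x)⁻¹) ≤ (p : ℝ)⁻¹ * (x * (1 - y)⁻¹) := by gcongr
    linarith
  refine h3.trans ?_
  rw [add_comm]
  exact Real.add_one_le_exp _

end RadSumAux

open RadSumAux

theorem sum_inv_rad (ε : ℝ) (hε : 0 < ε) :
    ∃ C : ℝ, 0 < C ∧ ∀ X : ℕ, 1 ≤ X →
      ∑ V ∈ Finset.Icc 1 X, (1 : ℝ) / (rad V : ℝ) ≤ C * (X : ℝ) ^ ε := by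
  have hs : Summable (fun n : ℕ => (n : ℝ) ^ (-(1 + ε))) :=
    Real.summable_nat_rpow.2 (by linarith)
  have hy1 : (2 : ℝ) ^ (-ε) < 1 := Real.rpow_lt_one_of_one_lt_of_neg (by norm_num) (by linarith)
  have hy2 : 0 ≤ (1 - (2 : ℝ) ^ (-ε))⁻¹ := inv_nonneg.2 (by linarith)
  refine ⟨Real.exp ((1 - (2 : ℝ) ^ (-ε))⁻¹ * ∑' n : ℕ, (n : ℝ) ^ (-(1 + ε))), Real.exp_pos _, ?_⟩
  intro X hX
  have h1 := (EulerProduct.summable_and_hasSum_smoothNumbers_prod_primesBelow_tsum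
    (f := ff ε) (ff_one ε) (fun h => ff_mul ε h) (by
      intro p hp
      have := (hasSum_ff ε hε hp).summable
      simpa [Real.norm_of_nonneg (ff_nonneg ε _)] using this) (X + 1)).2
  have h2 : HasSum ((Nat.smoothNumbers (X + 1)).indicator (ff ε))
      (∏ p ∈ (X + 1).primesBelow, ∑' n : ℕ, ff ε (p ^ n)) := by
    rw [← hasSum_subtype_iff_indicator]
    exact h1
  have h3 := sum_le_hasSum (Finset.Icc 1 X) (fun n _ => by
    apply Set.indicator_nonneg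
    intro n _
    exact ff_nonneg ε n) h2
  have h4 : ∀ V ∈ Finset.Icc 1 X, (1 : ℝ) / (rad V : ℝ) ≤
      (X : ℝ) ^ ε * (Nat.smoothNumbers (X + 1)).indicator (ff ε) V := by
    intro V hV
    rw [Finset.mem_Icc] at hV
    have hmem : V ∈ Nat.smoothNumbers (X + 1) := by
      rw [Nat.mem_smoothNumbers']
      intro p _ hpV
      have := Nat.le_of_dvd (by omega) hpV
      omega
    rw [Set.indicator_of_mem hmem]
    unfold ff
    have hV0 : (0 : ℝ) < V := by exact_mod_cast (by omega : 0 < V)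
    have hVX : (V : ℝ) ≤ X := by exact_mod_cast hV.2
    rw [← mul_div_assoc]
    apply div_le_div_of_nonneg_right _ (by positivity)
    rw [Real.rpow_neg hV0.le, ← div_eq_mul_inv, one_le_div (by positivity)]
    exact Real.rpow_le_rpow hV0.le hVX hε.le
  have h5 : ∏ p ∈ (X + 1).primesBelow, ∑' n : ℕ, ff ε (p ^ n) ≤
      Real.exp ((1 - (2 : ℝ) ^ (-ε))⁻¹ * ∑' n : ℕ, (n : ℝ) ^ (-(1 + ε))) := by
    calc ∏ p ∈ (X + 1).primesBelow, ∑' n : ℕ, ff ε (p ^ n)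
        ≤ ∏ p ∈ (X + 1).primesBelow, Real.exp ((1 - (2 : ℝ) ^ (-ε))⁻¹ * (p : ℝ) ^ (-(1 + ε))) := by
          apply Finset.prod_le_prod
          · intro p _
            exact tsum_nonneg fun n => ff_nonneg ε _
          · intro p hp
            exact local_le ε hε (Nat.prime_of_mem_primesBelow hp)
      _ = Real.exp (∑ p ∈ (X + 1).primesBelow, (1 - (2 : ℝ) ^ (-ε))⁻¹ * (p : ℝ) ^ (-(1 + ε))) := by
          rw [Real.exp_sum]
      _ ≤ _ := by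
          apply Real.exp_le_exp.2
          rw [← Finset.mul_sum]
          apply mul_le_mul_of_nonneg_left _ hy2
          exact hs.sum_le_tsum _ (fun n _ => by positivity)
  calc ∑ V ∈ Finset.Icc 1 X, (1 : ℝ) / (rad V : ℝ)
      ≤ ∑ V ∈ Finset.Icc 1 X, (X : ℝ) ^ ε * (Nat.smoothNumbers (X + 1)).indicator (ff ε) V :=
        Finset.sum_le_sum h4
    _ = (X : ℝ) ^ ε * ∑ V ∈ Finset.Icc 1 X, (Nat.smoothNumbers (X + 1)).indicator (ff ε) V := by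
        rw [Finset.mul_sum]
    _ ≤ (X : ℝ) ^ ε * Real.exp ((1 - (2 : ℝ) ^ (-ε))⁻¹ * ∑' n : ℕ, (n : ℝ) ^ (-(1 + ε))) := by
        apply mul_le_mul_of_nonneg_left (h3.trans h5) (by positivity)
    _ = _ := by ring

end Pool.Agent.H328R2.ABC
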