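import Mathlib
import Pool.Agent.H328R2.ABC.Defs
import Pool.Agent.H328R2.ABC.Parts
import Pool.Agent.H328R2.ABC.RadSum
import Pool.Agent.H328R2.ABC.Curve
import Pool.Agent.H328R2.ABC.H81Count

/-! Task H6: the determinant bound. -/

set_option autoImplicit false

namespace Pool.Agent.H328R2.ABC

open Finset

theorem countD (r q k : Fin 3) (h1 : r ≠ q) (h2 : r ≠ k) (h3 : q ≠ k) (ε : ℝ) (hε : 0 < ε) :
    ∃ C : ℝ, 0 < C ∧ ∀ X : ℕ, 1 ≤ X → ∀ Q : ℝ, 1 ≤ Q → ∀ S : Finset (ℕ × ℕ),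
      (∀ t ∈ S, Adm X t ∧ condD r q k Q t.1 t.2) → (S.card : ℝ) ≤ C * (X : ℝ) ^ ε * Q := by
  classical
  obtain ⟨C1, hC1, hcurve⟩ := curve_count (ε / 2) (by positivity)
  obtain ⟨C2, hC2, hrad⟩ := sum_inv_rad (ε / 6) (by positivity)
  refine ⟨C1 * C2 ^ 3, by positivity, ?_⟩
  intro X hX Q hQ S hS
  have hXpos : (0 : ℝ) < X := by exact_mod_cast hX
  let key : ℕ × ℕ → ℕ × ℕ × ℕ := fun t =>
    (part (All \ {3}) (side t.1 t.2 r), part (All \ {4}) (side t.1 t.2 q), side t.1 t.2 k)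
  have hpos : ∀ t ∈ S, ∀ i, 0 < side t.1 t.2 i := by
    intro t ht i
    have h4 := (hS t ht).1
    exact h81_side_pos h4.1 (lt_of_lt_of_le h4.1 h4.2.1) i
  have hle : ∀ t ∈ S, ∀ i, side t.1 t.2 i ≤ X := by
    intro t ht i
    exact h81_side_le (hS t ht).1.2.2.2 i
  have hkey : ∀ t ∈ S, key t ∈ Icc 1 X ×ˢ (Icc 1 X ×ˢ Icc 1 X) := by
    intro t ht
    simp only [key, mem_product, mem_Icc]
    exact ⟨⟨part_pos _ _, h81_part_le (hpos t ht r) (hle t ht r)⟩,
      ⟨part_pos _ _, h81_part_le (hpos t ht q) (hle t ht q)⟩, hpos t ht k, hle t ht k⟩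
  have hfib : ∀ U ∈ Icc 1 X, ∀ W ∈ Icc 1 X, ∀ n ∈ Icc 1 X,
      ((S.filter fun t => key t = (U, W, n)).card : ℝ) ≤
        (C1 * (X : ℝ) ^ (ε / 2) * Q) *
          (1 / (rad U : ℝ) * (1 / (rad W : ℝ) * (1 / (rad n : ℝ)))) := by
    intro U hU W hW n hn
    rw [mem_Icc] at hU hW hn
    have hP : (0 : ℝ) < (rad U : ℝ) * rad W * rad n := by
      have := rad_pos U
      have := rad_pos W
      have := rad_pos n
      positivity
    set P : ℝ := (rad U : ℝ) * rad W * rad n with hPdef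
    have hrhs : (C1 * (X : ℝ) ^ (ε / 2) * Q) *
          (1 / (rad U : ℝ) * (1 / (rad W : ℝ) * (1 / (rad n : ℝ)))) =
        C1 * (X : ℝ) ^ (ε / 2) * (Q / P) := by
      rw [hPdef]
      field_simp
    rw [hrhs]
    rcases (S.filter fun t => key t = (U, W, n)).eq_empty_or_nonempty with hemp | hne
    · rw [hemp, card_empty, Nat.cast_zero]
      positivity
    -- elements of the fibre
    let g : ℕ × ℕ → ℕ × ℕ := fun t => (rpart {3} (side t.1 t.2 r), rpart {4} (side t.1 t.2 q))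
    have hel : ∀ t ∈ S.filter (fun t => key t = (U, W, n)),
        side t.1 t.2 r = U * (g t).1 ^ 3 ∧ side t.1 t.2 q = W * (g t).2 ^ 4 ∧
        side t.1 t.2 k = n ∧ P * ((g t).2 : ℝ) ^ ((1 : ℝ) / 3) ≤ Q := by
      intro t ht
      rw [mem_filter] at ht
      obtain ⟨ht, hk⟩ := ht
      simp only [key, Prod.mk.injEq] at hk
      obtain ⟨e1, e2, e3⟩ := hk
      have c1 := part_compl {3} (hpos t ht r).ne'
      have c2 := part_compl {4} (hpos t ht q).ne'
      rw [part_single (by norm_num) (by norm_num), e1] at c1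
      rw [part_single (by norm_num) (by norm_num), e2] at c2
      refine ⟨c1.symm, c2.symm, e3, ?_⟩
      have c3 := (hS t ht).2
      unfold condD at c3
      rw [← rad_part, ← rad_part, e1, e2, e3] at c3
      push_cast at c3
      exact c3
    have hinj : Set.InjOn g (S.filter (fun t => key t = (U, W, n)) : Set (ℕ × ℕ)) := by
      intro t ht t' ht' hgg
      obtain ⟨a1, a2, _, _⟩ := hel t ht
      obtain ⟨b1, b2, _, _⟩ := hel t' ht'
      rw [← hgg] at b1 b2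
      exact h81_side_inj (a := t.1) (b := t.2) (a' := t'.1) (b' := t'.2) h1
        (a1.trans b1.symm) (a2.trans b2.symm)
    rw [← card_image_of_injOn hinj]
    -- `1 ≤ Q / P`
    obtain ⟨t0, ht0⟩ := hne
    have hQP : 1 ≤ Q / P := (h81_pow_bound hP (rpart_pos _ _) (hel t0 ht0).2.2.2).2
    have hZ : (1 : ℝ) ≤ (Q / P) ^ (3 : ℝ) := Real.one_le_rpow hQP (by norm_num)
    -- signs
    have hsign : ∃ A B : ℤ, A ≠ 0 ∧ |A| ≤ X ∧ |B| ≤ X ∧ ∀ t ∈ S.filter (fun t => key t = (U, W, n)),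
        (U : ℤ) * ((g t).1 : ℤ) ^ 3 = A * ((g t).2 : ℤ) ^ 4 + B := by
      have hWX : ((W : ℕ) : ℤ) ≤ X := by exact_mod_cast hW.2
      have hnX : ((n : ℕ) : ℤ) ≤ X := by exact_mod_cast hn.2
      have hW0 : (0 : ℤ) < W := by exact_mod_cast hW.1
      have hn0 : (0 : ℤ) < n := by exact_mod_cast hn.1
      have hsum : ∀ t ∈ S.filter (fun t => key t = (U, W, n)),
          ∃ x z : ℤ, (U : ℤ) * ((g t).1 : ℤ) ^ 3 = (side t.1 t.2 r : ℤ) ∧
            (W : ℤ) * ((g t).2 : ℤ) ^ 4 = (side t.1 t.2 q : ℤ) ∧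
            (n : ℤ) = (side t.1 t.2 k : ℤ) := by
        intro t ht
        obtain ⟨a1, a2, a3, _⟩ := hel t ht
        refine ⟨0, 0, ?_, ?_, ?_⟩
        · rw [a1]; push_cast; ring
        · rw [a2]; push_cast; ring
        · rw [a3]
      rcases h81_perm r q k h1 h2 h3 with hk2 | hq2 | hr2
      · refine ⟨-W, n, by omega, by rw [abs_neg, abs_of_pos hW0]; exact hWX,
          by rw [abs_of_pos hn0]; exact hnX, ?_⟩
        intro t ht
        obtain ⟨x, z, a1, a2, a3⟩ := hsum t ht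
        rw [neg_mul, a1, a2, a3]
        fin_cases r <;> fin_cases q <;> fin_cases k <;> simp [side] at h1 h2 h3 hk2 ⊢
      · refine ⟨W, -n, by omega, by rw [abs_of_pos hW0]; exact hWX,
          by rw [abs_neg, abs_of_pos hn0]; exact hnX, ?_⟩
        intro t ht
        obtain ⟨x, z, a1, a2, a3⟩ := hsum t ht
        rw [a1, a2, a3]
        fin_cases r <;> fin_cases q <;> fin_cases k <;> simp [side] at h1 h2 h3 hq2 ⊢
      · refine ⟨W, n, by omega, by rw [abs_of_pos hW0]; exact hWX,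
          by rw [abs_of_pos hn0]; exact hnX, ?_⟩
        intro t ht
        obtain ⟨x, z, a1, a2, a3⟩ := hsum t ht
        rw [a1, a2, a3]
        fin_cases r <;> fin_cases q <;> fin_cases k <;> (simp [side] at h1 h2 h3 hr2 ⊢; try ring)
    obtain ⟨A, B, hA0, hAX, hBX, hAB⟩ := hsign
    have hUX : |((U : ℕ) : ℤ)| ≤ X := by
      rw [abs_of_nonneg (by positivity)]
      exact_mod_cast hU.2
    have hfinal := hcurve X hX ((Q / P) ^ (3 : ℝ)) hZ (U : ℤ) A B (by
      have := hU.1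
      omega) hA0 hUX hAX hBX ((S.filter fun t => key t = (U, W, n)).image g) (by
      intro p hp
      rw [mem_image] at hp
      obtain ⟨t, ht, rfl⟩ := hp
      have htS := (mem_filter.1 ht).1
      obtain ⟨a1, a2, a3, a4⟩ := hel t ht
      refine ⟨rpart_pos _ _, ?_, rpart_pos _ _, ?_, ?_, hAB t ht⟩
      · exact (rpart_le_part _ _).trans (h81_part_le (hpos t htS r) (hle t htS r))
      · exact (rpart_le_part _ _).trans (h81_part_le (hpos t htS q) (hle t htS q))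
      · exact (h81_pow_bound hP (rpart_pos _ _) a4).1)
    have hpow : ((Q / P) ^ (3 : ℝ)) ^ ((1 : ℝ) / 3) = Q / P := by
      rw [← Real.rpow_mul (by linarith)]
      norm_num
    rw [hpow] at hfinal
    exact hfinal
  have hfin := h81_fiber_sum S X key hkey _ hfib
  have hr := hrad X hX
  have hr0 : 0 ≤ ∑ V ∈ Icc 1 X, (1 : ℝ) / (rad V : ℝ) := sum_nonneg fun _ _ => by positivity
  calc (S.card : ℝ) ≤ (C1 * (X : ℝ) ^ (ε / 2) * Q) * (∑ V ∈ Icc 1 X, (1 : ℝ) / (rad V : ℝ)) ^ 3 :=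
        hfin
    _ ≤ (C1 * (X : ℝ) ^ (ε / 2) * Q) * (C2 * (X : ℝ) ^ (ε / 6)) ^ 3 := by
        apply mul_le_mul_of_nonneg_left _ (by positivity)
        exact pow_le_pow_left₀ hr0 hr 3
    _ = C1 * C2 ^ 3 * ((X : ℝ) ^ (ε / 2) * ((X : ℝ) ^ (ε / 6)) ^ 3) * Q := by ring
    _ = C1 * C2 ^ 3 * (X : ℝ) ^ ε * Q := by
        congr 2
        rw [← Real.rpow_natCast, ← Real.rpow_mul hXpos.le, ← Real.rpow_add hXpos]
        congr 1
        push_cast
        ring

end Pool.Agent.H328R2.ABC
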