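import Pool.Agent.H328R2.ABC.Defs

/-! Task S1: slope lemma. -/

namespace Pool.Agent.H328R2.ABC

open Finset

theorem slope (S : Finset (ℕ × ℕ)) (Z M R : ℝ) (hZ : 0 < Z) (hM : 0 < M) (hR : 0 ≤ R)
    (hz : ∀ p ∈ S, Z ≤ (p.2 : ℝ) ∧ (p.2 : ℝ) ≤ 2 * Z)
    (h : ∀ p ∈ S, ∀ q ∈ S, p ≠ q →
      M ≤ |(p.1 : ℝ) * q.2 - (q.1 : ℝ) * p.2| ∧ |(p.1 : ℝ) * q.2 - (q.1 : ℝ) * p.2| ≤ R) :
    (S.card : ℝ) ≤ 1 + 4 * R / M := by
  classical
  rcases S.eq_empty_or_nonempty with rfl | hne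
  · simp only [card_empty, Nat.cast_zero]
    positivity
  obtain ⟨p0, hp0, hmin⟩ := S.exists_min_image (fun p => (p.1 : ℝ) / p.2) hne
  set s : ℕ × ℕ → ℝ := fun p => (p.1 : ℝ) / p.2 with hs
  set δ : ℝ := M / (4 * Z ^ 2) with hδ
  have hδ0 : 0 < δ := by positivity
  have hdiff : ∀ p ∈ S, ∀ q ∈ S, p ≠ q → δ ≤ |s p - s q| ∧ |s p - s q| ≤ R / Z ^ 2 := by
    intro p hp q hq hpq
    obtain ⟨h1, h2⟩ := h p hp q hq hpq
    obtain ⟨hp1, hp2⟩ := hz p hp
    obtain ⟨hq1, hq2⟩ := hz q hq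
    have hp3 : (0:ℝ) < p.2 := by linarith
    have hq3 : (0:ℝ) < q.2 := by linarith
    have e : s p - s q = ((p.1 : ℝ) * q.2 - (q.1 : ℝ) * p.2) / (p.2 * q.2) := by
      simp only [hs]
      field_simp
    have hpos : (0:ℝ) < p.2 * q.2 := by positivity
    rw [e, abs_div, abs_of_pos hpos]
    constructor
    · rw [hδ, div_le_div_iff₀ (by positivity) hpos]
      have h4 : (p.2 : ℝ) * q.2 ≤ 4 * Z ^ 2 := by nlinarith
      calc M * ((p.2 : ℝ) * q.2) ≤ M * (4 * Z ^ 2) := by gcongr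
        _ ≤ _ := by gcongr
    · rw [div_le_div_iff₀ hpos (by positivity)]
      have h4 : Z ^ 2 ≤ (p.2 : ℝ) * q.2 := by nlinarith
      calc |(p.1 : ℝ) * q.2 - (q.1 : ℝ) * p.2| * Z ^ 2 ≤ R * Z ^ 2 := by gcongr
        _ ≤ _ := by gcongr
  set f : ℕ × ℕ → ℕ := fun p => ⌊(s p - s p0) / δ⌋₊ with hf
  have hmaps : ∀ p ∈ S, f p ∈ Finset.range (⌊4 * R / M⌋₊ + 1) := by
    intro p hp
    rw [Finset.mem_range, Nat.lt_succ_iff]
    apply Nat.floor_mono
    by_cases hpp : p = p0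
    · subst hpp
      simp only [sub_self, zero_div]
      positivity
    · have h2 := (hdiff p hp p0 hp0 hpp).2
      have h3 : s p - s p0 ≤ R / Z ^ 2 := (le_abs_self _).trans h2
      rw [div_le_iff₀ hδ0]
      refine h3.trans (le_of_eq ?_)
      rw [hδ]
      field_simp
  have hinj : Set.InjOn f S := by
    intro p hp q hq hfpq
    by_contra hpq
    have h1 := (hdiff p hp q hq hpq).1
    have np : 0 ≤ (s p - s p0) / δ := div_nonneg (sub_nonneg.2 (hmin p hp)) hδ0.le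
    have nq : 0 ≤ (s q - s p0) / δ := div_nonneg (sub_nonneg.2 (hmin q hq)) hδ0.le
    have a1 := Nat.floor_le np
    have a2 := Nat.lt_floor_add_one ((s p - s p0) / δ)
    have b1 := Nat.floor_le nq
    have b2 := Nat.lt_floor_add_one ((s q - s p0) / δ)
    simp only [hf] at hfpq
    rw [hfpq] at a1 a2
    have h3 : |(s p - s p0) / δ - (s q - s p0) / δ| < 1 := by
      rw [abs_lt]
      constructor <;> linarith
    have h4 : (s p - s p0) / δ - (s q - s p0) / δ = (s p - s q) / δ := by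
      rw [← sub_div]
      congr 1
      ring
    rw [h4, abs_div, abs_of_pos hδ0, div_lt_one hδ0] at h3
    linarith
  have hcard := Finset.card_le_card_of_injOn f hmaps hinj
  rw [Finset.card_range] at hcard
  have h5 : (S.card : ℝ) ≤ (⌊4 * R / M⌋₊ : ℝ) + 1 := by exact_mod_cast hcard
  have h6 := Nat.floor_le (show 0 ≤ 4 * R / M by positivity)
  linarith

end Pool.Agent.H328R2.ABC
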