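import Pool.Agent.H328R2.ABC.Classes
import Pool.Agent.H328R2.ABC.Slope

set_option linter.unusedVariables false

namespace Pool.Agent.H328R2.ABC

/-- Task S3: the number of pairs of a fibre of the lattice bound. -/
theorem fiberA (d : ℕ) (hd : 1 ≤ d) (V W M : ℕ) (hV : 0 < V) (hW : 0 < W) (hM : 0 < M)
    (sg : ℤ) (hsg : sg = 1 ∨ sg = -1) (X : ℕ) (Q ρ : ℝ) (hQ : 0 ≤ Q)
    (hρ : ∀ u : ZMod M, IsUnit u → (({t : ZMod M | t ^ d = u} : Set (ZMod M)).ncard : ℝ) ≤ ρ)
    (S : Finset (ℕ × ℕ))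
    (hS : ∀ p ∈ S, 0 < p.1 ∧ 0 < p.2 ∧ p.1 ≤ X ∧ p.2 ≤ X ∧
      Nat.Coprime (V * p.1 ^ d) (W * p.2 ^ d) ∧
      (M : ℤ) ∣ ((V * p.1 ^ d : ℕ) : ℤ) - sg * ((W * p.2 ^ d : ℕ) : ℤ) ∧
      (p.1 : ℝ) * p.2 ≤ Q * M) :
    (S.card : ℝ) ≤ ((Nat.log 2 X : ℝ) + 1) ^ 2 * (ρ * (1 + 16 * Q)) := by
  have hMr : (0 : ℝ) < M := by exact_mod_cast hM
  have key := classes d hd V W M hM sg hsg ρ (1 + 16 * Q) (by positivity) hρ S
    (fun p hp => by
      obtain ⟨h1, h2, _, _, h5, h6, _⟩ := hS p hp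
      exact ⟨h1, h2, h5, h6⟩)
    (Finset.range (Nat.log 2 X + 1) ×ˢ Finset.range (Nat.log 2 X + 1))
    (fun p => (Nat.log 2 p.1, Nat.log 2 p.2))
    (fun p hp => by
      obtain ⟨h1, h2, h3, h4, _⟩ := hS p hp
      have a3 : Nat.log 2 p.1 ≤ Nat.log 2 X := Nat.log_mono_right h3
      have a4 : Nat.log 2 p.2 ≤ Nat.log 2 X := Nat.log_mono_right h4
      rw [Finset.mem_product, Finset.mem_range, Finset.mem_range]
      exact ⟨Nat.lt_succ_of_le a3, Nat.lt_succ_of_le a4⟩)
    (by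
      intro T hTS hT hsep
      rcases T.eq_empty_or_nonempty with hE | ⟨p0, hp0⟩
      · rw [hE, Finset.card_empty, Nat.cast_zero]
        positivity
      have hlog : ∀ p ∈ T, ((2 : ℝ) ^ Nat.log 2 p0.1 ≤ p.1 ∧ (p.1 : ℝ) ≤ 2 * 2 ^ Nat.log 2 p0.1) ∧
          ((2 : ℝ) ^ Nat.log 2 p0.2 ≤ p.2 ∧ (p.2 : ℝ) ≤ 2 * 2 ^ Nat.log 2 p0.2) := by
        intro p hp
        obtain ⟨h1, h2, _⟩ := hS p (hTS hp)
        have e := hT p hp p0 hp0
        simp only [Prod.mk.injEq] at e
        rw [← e.1, ← e.2]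
        refine ⟨⟨?_, ?_⟩, ?_, ?_⟩
        · exact_mod_cast Nat.pow_log_le_self 2 h1.ne'
        · have := (Nat.lt_pow_succ_log_self (b := 2) (by norm_num) p.1).le
          rw [pow_succ'] at this
          exact_mod_cast this
        · exact_mod_cast Nat.pow_log_le_self 2 h2.ne'
        · have := (Nat.lt_pow_succ_log_self (b := 2) (by norm_num) p.2).le
          rw [pow_succ'] at this
          exact_mod_cast this
      have h0 := hlog p0 hp0
      have hQ0 := (hS p0 (hTS hp0)).2.2.2.2.2.2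
      set Y : ℝ := 2 ^ Nat.log 2 p0.1 with hY
      set Z : ℝ := 2 ^ Nat.log 2 p0.2 with hZ
      have hY0 : 0 < Y := by positivity
      have hZ0 : 0 < Z := by positivity
      have hYZ : Y * Z ≤ Q * M := by
        refine le_trans ?_ hQ0
        exact mul_le_mul h0.1.1 h0.2.1 hZ0.le (by positivity)
      have hs := slope T Z M (4 * (Q * M)) hZ0 hMr (by positivity)
        (fun p hp => (hlog p hp).2) (by
          intro p hp q hq hpq
          refine ⟨hsep p hp q hq hpq, ?_⟩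
          have a := hlog p hp
          have b := hlog q hq
          have hab : (p.1 : ℝ) * q.2 ≤ 4 * (Q * M) := by
            calc (p.1 : ℝ) * q.2 ≤ (2 * Y) * (2 * Z) :=
                  mul_le_mul a.1.2 b.2.2 (by positivity) (by positivity)
              _ = 4 * (Y * Z) := by ring
              _ ≤ _ := by linarith
          have hba : (q.1 : ℝ) * p.2 ≤ 4 * (Q * M) := by
            calc (q.1 : ℝ) * p.2 ≤ (2 * Y) * (2 * Z) :=
                  mul_le_mul b.1.2 a.2.2 (by positivity) (by positivity)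
              _ = 4 * (Y * Z) := by ring
              _ ≤ _ := by linarith
          have h1 : (0 : ℝ) ≤ (p.1 : ℝ) * q.2 := by positivity
          have h2 : (0 : ℝ) ≤ (q.1 : ℝ) * p.2 := by positivity
          rw [abs_le]
          constructor <;> linarith)
      refine hs.trans (le_of_eq ?_)
      field_simp
      ring)
  refine key.trans (le_of_eq ?_)
  rw [Finset.card_product, Finset.card_range]
  push_cast
  ring

end Pool.Agent.H328R2.ABC
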