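import Pool.Agent.H328R2.ABC.Slope
import Pool.Agent.H328R2.ABC.Classes

/-! Task S4: fibre count, small term version. -/

namespace Pool.Agent.H328R2.ABC

open Finset

/-- the key inequality -/
theorem fiberB_key (d : ℕ) (hd : 1 ≤ d) (V W : ℕ) (hV : 0 < V) (hW : 0 < W) (y₁ z₁ y₂ z₂ : ℕ)
    (K : ℝ) (h1 : 0 < y₁) (h2 : 0 < z₂) (hlt1 : V * y₁ ^ d < W * z₁ ^ d)
    (hlt2 : V * y₂ ^ d < W * z₂ ^ d) (hy : y₁ ≤ 2 * y₂)
    (hK : (y₂ : ℝ) * z₂ * (((W * z₂ ^ d : ℕ) : ℝ) - ((V * y₂ ^ d : ℕ) : ℝ)) ≤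
      K * ((W * z₂ ^ d : ℕ) : ℝ)) (hord : y₂ * z₁ < y₁ * z₂) :
    (y₁ : ℝ) * z₂ - (y₂ : ℝ) * z₁ ≤ 2 * K := by
  obtain ⟨e, rfl⟩ : ∃ e, d = e + 1 := ⟨d - 1, by omega⟩
  set a1 : ℝ := (y₁ : ℝ) * z₂ with ha1
  set a2 : ℝ := (y₂ : ℝ) * z₁ with ha2
  have hord' : a2 < a1 := by
    rw [ha1, ha2]
    exact_mod_cast hord
  have ha2' : 0 ≤ a2 := by positivity
  have ha1' : 0 < a1 := by linarith
  set b1 : ℝ := (V : ℝ) * (y₁ : ℝ) ^ (e + 1) with hb1
  set b2 : ℝ := (V : ℝ) * (y₂ : ℝ) ^ (e + 1) with hb2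
  set c1 : ℝ := (W : ℝ) * (z₁ : ℝ) ^ (e + 1) with hc1
  set c2 : ℝ := (W : ℝ) * (z₂ : ℝ) ^ (e + 1) with hc2
  have hVr : (0:ℝ) < V := by exact_mod_cast hV
  have hWr : (0:ℝ) < W := by exact_mod_cast hW
  have hy1r : (0:ℝ) < y₁ := by exact_mod_cast h1
  have hz2r : (0:ℝ) < z₂ := by exact_mod_cast h2
  have hb1p : 0 < b1 := by positivity
  have hc2p : 0 < c2 := by positivity
  have hb2n : 0 ≤ b2 := by positivity
  have hbc1 : b1 < c1 := by
    rw [hb1, hc1]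
    exact_mod_cast hlt1
  have hbc2 : b2 < c2 := by
    rw [hb2, hc2]
    exact_mod_cast hlt2
  -- powers
  have hpow : (a1 - a2) * a1 ^ e ≤ a1 ^ (e + 1) - a2 ^ (e + 1) := by
    have : a2 ^ e ≤ a1 ^ e := pow_le_pow_left₀ ha2' hord'.le e
    have h3 : a2 ^ (e + 1) = a2 * a2 ^ e := by ring
    have h4 : a1 ^ (e + 1) = a1 * a1 ^ e := by ring
    rw [h3, h4]
    have := mul_le_mul_of_nonneg_left this ha2'
    linarith
  have hprod1 : b1 * c2 = V * W * a1 ^ (e + 1) := by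
    rw [hb1, hc2, ha1]
    ring
  have hprod2 : b2 * c1 = V * W * a2 ^ (e + 1) := by
    rw [hb2, hc1, ha2]
    ring
  have h5 : (a1 - a2) * (b1 * c2) ≤ a1 * (b1 * c2 - b2 * c1) := by
    rw [hprod1, hprod2]
    have hVW : (0:ℝ) ≤ V * W * a1 := by positivity
    have := mul_le_mul_of_nonneg_left hpow hVW
    calc (a1 - a2) * (V * W * a1 ^ (e + 1)) = V * W * a1 * ((a1 - a2) * a1 ^ e) := by ring
      _ ≤ V * W * a1 * (a1 ^ (e + 1) - a2 ^ (e + 1)) := this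
      _ = _ := by ring
  have h6 : b1 * c2 - b2 * c1 ≤ b1 * (c2 - b2) := by nlinarith
  have h7 : (a1 - a2) * (b1 * c2) ≤ a1 * (b1 * (c2 - b2)) :=
    h5.trans (mul_le_mul_of_nonneg_left h6 ha1'.le)
  have h8 : (a1 - a2) * c2 ≤ a1 * (c2 - b2) := by
    have : b1 * ((a1 - a2) * c2) ≤ b1 * (a1 * (c2 - b2)) := by linarith
    exact le_of_mul_le_mul_left this hb1p
  have hK' : (y₂ : ℝ) * z₂ * (c2 - b2) ≤ K * c2 := by
    have e1 : ((W * z₂ ^ (e + 1) : ℕ) : ℝ) = c2 := by push_cast; rfl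
    have e2 : ((V * y₂ ^ (e + 1) : ℕ) : ℝ) = b2 := by push_cast; rfl
    rw [e1, e2] at hK
    exact hK
  have hyr : (y₁ : ℝ) ≤ 2 * y₂ := by exact_mod_cast hy
  have h9 : a1 ≤ 2 * ((y₂ : ℝ) * z₂) := by
    rw [ha1]
    calc (y₁ : ℝ) * z₂ ≤ (2 * y₂) * z₂ := by gcongr
      _ = _ := by ring
  have h10 : (a1 - a2) * c2 ≤ (2 * K) * c2 := by
    have hcb : 0 ≤ c2 - b2 := by linarith
    calc (a1 - a2) * c2 ≤ a1 * (c2 - b2) := h8
      _ ≤ (2 * ((y₂ : ℝ) * z₂)) * (c2 - b2) := mul_le_mul_of_nonneg_right h9 hcb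
      _ = 2 * ((y₂ : ℝ) * z₂ * (c2 - b2)) := by ring
      _ ≤ 2 * (K * c2) := by gcongr
      _ = _ := by ring
  exact le_of_mul_le_mul_right h10 hc2p

theorem fiberB (d : ℕ) (hd : 1 ≤ d) (V W M : ℕ) (hV : 0 < V) (hW : 0 < W) (hM : 0 < M)
    (X : ℕ) (Q ρ : ℝ) (hQ : 0 ≤ Q)
    (hρ : ∀ u : ZMod M, IsUnit u → (({t : ZMod M | t ^ d = u} : Set (ZMod M)).ncard : ℝ) ≤ ρ)
    (S : Finset (ℕ × ℕ))
    (hS : ∀ p ∈ S, 0 < p.1 ∧ 0 < p.2 ∧ W * p.2 ^ d ≤ X ∧ V * p.1 ^ d < W * p.2 ^ d ∧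
      W * p.2 ^ d ≤ 2 * (V * p.1 ^ d) ∧
      Nat.Coprime (V * p.1 ^ d) (W * p.2 ^ d) ∧
      (M : ℤ) ∣ ((V * p.1 ^ d : ℕ) : ℤ) - ((W * p.2 ^ d : ℕ) : ℤ) ∧
      (p.1 : ℝ) * p.2 * (((W * p.2 ^ d : ℕ) : ℝ) - ((V * p.1 ^ d : ℕ) : ℝ))
        ≤ Q * M * ((W * p.2 ^ d : ℕ) : ℝ)) :
    (S.card : ℝ) ≤ ((Nat.log 2 X : ℝ) + 1) ^ 4 * (ρ * (1 + 256 * Q)) := by
  classical
  have hMr : (0:ℝ) < M := by exact_mod_cast hM
  have hρ0 : 0 ≤ ρ := le_trans (Nat.cast_nonneg _) (hρ 1 isUnit_one)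
  set L : ℕ := Nat.log 2 X + 1 with hL
  have hcl := classes d hd V W M hM 1 (Or.inl rfl) ρ (1 + 8 * Q) (by positivity) hρ S
    (fun p hp => by
      obtain ⟨h1, h2, -, -, -, h3, h4, -⟩ := hS p hp
      exact ⟨h1, h2, h3, by rwa [one_mul]⟩)
    (Finset.range L ×ˢ Finset.range L) (fun p => (Nat.log 2 p.1, Nat.log 2 p.2))
    (fun p hp => by
      obtain ⟨h1, h2, h3, h4, -⟩ := hS p hp
      rw [Finset.mem_product, Finset.mem_range, Finset.mem_range]
      have e1 : p.1 ≤ X := by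
        calc p.1 ≤ p.1 ^ d := Nat.le_self_pow (by omega) _
          _ ≤ V * p.1 ^ d := Nat.le_mul_of_pos_left _ hV
          _ ≤ X := by omega
      have e2 : p.2 ≤ X := by
        calc p.2 ≤ p.2 ^ d := Nat.le_self_pow (by omega) _
          _ ≤ W * p.2 ^ d := Nat.le_mul_of_pos_left _ hW
          _ ≤ X := by omega
      have f1 := Nat.log_mono_right (b := 2) e1
      have f2 := Nat.log_mono_right (b := 2) e2
      exact ⟨by simp only [hL]; omega, by simp only [hL]; omega⟩)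
    (fun T hTS hT hsep => by
      rcases T.eq_empty_or_nonempty with rfl | ⟨p0, hp0⟩
      · simp only [card_empty, Nat.cast_zero]
        positivity
      have hz0 : p0.2 ≠ 0 := by
        have := (hS p0 (hTS hp0)).2.1
        omega
      have hsl := slope T ((2:ℝ) ^ Nat.log 2 p0.2) M (2 * (Q * M)) (by positivity) hMr
        (by positivity)
        (fun p hp => by
          have hpp := hT p hp p0 hp0
          simp only [Prod.mk.injEq] at hpp
          have hz : p.2 ≠ 0 := by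
            have := (hS p (hTS hp)).2.1
            omega
          rw [← hpp.2]
          constructor
          · exact_mod_cast Nat.pow_log_le_self 2 hz
          · have := Nat.lt_pow_succ_log_self (b := 2) (by norm_num) p.2
            have h3 : (p.2 : ℝ) < (2:ℝ) ^ (Nat.log 2 p.2 + 1) := by exact_mod_cast this
            rw [pow_succ] at h3
            linarith)
        (fun p hp q hq hpq => by
          refine ⟨hsep p hp q hq hpq, ?_⟩
          obtain ⟨hp1, hp2, -, hp4, -, -, -, hp8⟩ := hS p (hTS hp)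
          obtain ⟨hq1, hq2, -, hq4, -, -, -, hq8⟩ := hS q (hTS hq)
          have hpp := hT p hp q hq
          simp only [Prod.mk.injEq] at hpp
          have d1 : p.1 ≤ 2 * q.1 := by
            have e1 := Nat.lt_pow_succ_log_self (b := 2) (by norm_num) p.1
            have e2 := Nat.pow_log_le_self 2 (x := q.1) (by omega)
            rw [hpp.1, pow_succ] at e1
            omega
          have d2 : q.1 ≤ 2 * p.1 := by
            have e1 := Nat.lt_pow_succ_log_self (b := 2) (by norm_num) q.1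
            have e2 := Nat.pow_log_le_self 2 (x := p.1) (by omega)
            rw [← hpp.1, pow_succ] at e1
            omega
          rcases lt_trichotomy (q.1 * p.2) (p.1 * q.2) with h3 | h3 | h3
          · have h4 := fiberB_key d hd V W hV hW p.1 p.2 q.1 q.2 (Q * M) hp1 hq2 hp4 hq4 d1 hq8 h3
            have h5 : ((q.1 * p.2 : ℕ) : ℝ) < ((p.1 * q.2 : ℕ) : ℝ) := by exact_mod_cast h3
            push_cast at h5
            rw [abs_of_pos (by linarith)]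
            exact h4
          · have h5 : ((q.1 * p.2 : ℕ) : ℝ) = ((p.1 * q.2 : ℕ) : ℝ) := by exact_mod_cast h3
            push_cast at h5
            rw [h5, sub_self, abs_zero]
            positivity
          · have h4 := fiberB_key d hd V W hV hW q.1 q.2 p.1 p.2 (Q * M) hq1 hp2 hq4 hp4 d2 hp8 h3
            have h5 : ((p.1 * q.2 : ℕ) : ℝ) < ((q.1 * p.2 : ℕ) : ℝ) := by exact_mod_cast h3
            push_cast at h5
            rw [abs_of_neg (by linarith)]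
            linarith)
      refine hsl.trans (le_of_eq ?_)
      field_simp
      ring)
  refine hcl.trans ?_
  have hc : (((Finset.range L ×ˢ Finset.range L).card : ℕ) : ℝ) = ((Nat.log 2 X : ℝ) + 1) ^ 2 := by
    rw [Finset.card_product, Finset.card_range, hL]
    push_cast
    ring
  rw [hc]
  have h1 : (1:ℝ) ≤ (Nat.log 2 X : ℝ) + 1 := by
    have : (0:ℝ) ≤ (Nat.log 2 X : ℝ) := Nat.cast_nonneg _
    linarith
  have h2 : ((Nat.log 2 X : ℝ) + 1) ^ 2 ≤ ((Nat.log 2 X : ℝ) + 1) ^ 4 :=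
    pow_le_pow_right₀ h1 (by norm_num)
  have h3 : ρ * (1 + 8 * Q) ≤ ρ * (1 + 256 * Q) := by
    apply mul_le_mul_of_nonneg_left _ hρ0
    linarith
  exact mul_le_mul h2 h3 (by positivity) (by positivity)

end Pool.Agent.H328R2.ABC
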