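import Pool.Agent.H328R2.ABC.Defs

/-! Task C: the number of `d`-th roots modulo `M` is `O(M^ε)`. -/

namespace Pool.Agent.H328R2.ABC

namespace RootsAux

open Finset

/-- the number of solutions of `g ^ d = 1` in a finite commutative group with a cyclic subgroup -/
theorem ker_le (G : Type*) [CommGroup G] [Finite G] (H : Subgroup G) [IsCyclic H] (d : ℕ)
    (hd : 0 < d) : Nat.card (powMonoidHom d : G →* G).ker ≤ H.index * d := by
  classical
  set K := (powMonoidHom d : G →* G).ker with hK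
  have h1 : Nat.card K = Nat.card (H ⊓ K : Subgroup G) * H.relIndex K := by
    rw [← Subgroup.relIndex_bot_left K, ← Subgroup.inf_relIndex_right H K,
      ← Subgroup.relIndex_bot_left (H ⊓ K : Subgroup G),
      Subgroup.relIndex_mul_relIndex _ _ _ bot_le inf_le_right]
  have h2 : H.relIndex K ≤ H.index := by
    rw [← Subgroup.relIndex_top_right]
    apply Subgroup.relIndex_le_of_le_right le_top
    rw [Subgroup.relIndex_top_right]
    exact Subgroup.index_ne_zero_of_finite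
  have h3 : Nat.card (H ⊓ K : Subgroup G) ≤ d := by
    have hF : Fintype H := Fintype.ofFinite H
    have h4 := IsCyclic.card_pow_eq_one_le (α := H) hd
    refine le_trans ?_ h4
    rw [← Fintype.card_subtype, ← Nat.card_eq_fintype_card]
    have hmem : ∀ x : (H ⊓ K : Subgroup G), (⟨x.1, x.2.1⟩ : H) ^ d = 1 := by
      intro x
      have h5 : (x.1 : G) ^ d = 1 := x.2.2
      exact Subtype.ext h5
    refine Nat.card_le_card_of_injective
      (fun x : (H ⊓ K : Subgroup G) => (⟨⟨x.1, x.2.1⟩, hmem x⟩ : {a : H // a ^ d = 1})) ?_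
    intro x y hxy
    have h6 := congrArg (fun z : {a : H // a ^ d = 1} => (z.1 : G)) hxy
    exact Subtype.ext h6
  rw [h1, mul_comm]
  exact Nat.mul_le_mul h2 h3

/-- the number of solutions of `t ^ d = 1` modulo `M` -/
noncomputable def NR (d M : ℕ) : ℕ := ({t : ZMod M | t ^ d = 1} : Set (ZMod M)).ncard

theorem NR_coprime (d a b : ℕ) (h : a.Coprime b) : NR d (a * b) = NR d a * NR d b := by
  unfold NR
  rw [← Set.ncard_prod, ← Set.ncard_image_of_injective _ (ZMod.chineseRemainder h).injective]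
  congr 1
  ext x
  constructor
  · rintro ⟨t, ht, rfl⟩
    have h1 : (ZMod.chineseRemainder h t) ^ d = 1 := by
      rw [← map_pow, (show t ^ d = 1 from ht), map_one]
    exact ⟨congrArg Prod.fst h1, congrArg Prod.snd h1⟩
  · rintro ⟨h1, h2⟩
    refine ⟨(ZMod.chineseRemainder h).symm x, ?_, by simp⟩
    show ((ZMod.chineseRemainder h).symm x) ^ d = 1
    rw [← map_pow]
    have h3 : x ^ d = 1 := Prod.ext h1 h2
    rw [h3, map_one]

theorem NR_le_ker (d M : ℕ) (hd : 0 < d) (hM : M ≠ 0) :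
    NR d M ≤ Nat.card (powMonoidHom d : (ZMod M)ˣ →* (ZMod M)ˣ).ker := by
  haveI : NeZero M := ⟨hM⟩
  unfold NR
  rw [← Nat.card_coe_set_eq]
  refine Nat.card_le_card_of_injective (fun t : {t : ZMod M | t ^ d = 1} =>
    (⟨Units.ofPowEqOne t.1 d t.2 hd.ne', by
      rw [MonoidHom.mem_ker]
      apply Units.ext
      simpa using t.2⟩ : (powMonoidHom d : (ZMod M)ˣ →* (ZMod M)ˣ).ker)) ?_
  intro x y hxy
  have h6 := congrArg (fun z : (powMonoidHom d : (ZMod M)ˣ →* (ZMod M)ˣ).ker => ((z.1 : (ZMod M)ˣ) : ZMod M)) hxy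
  exact Subtype.ext h6

theorem ker_cyclic (G : Type*) [CommGroup G] [Finite G] [IsCyclic G] (d : ℕ)
    (hd : 0 < d) : Nat.card (powMonoidHom d : G →* G).ker ≤ d := by
  have h := ker_le G ⊤ d hd
  rwa [Subgroup.index_top, one_mul] at h

theorem NR_prime_pow (d p n : ℕ) (hd : 0 < d) (hp : p.Prime) : NR d (p ^ n) ≤ 2 * d := by
  have hM : p ^ n ≠ 0 := pow_ne_zero _ hp.ne_zero
  haveI : NeZero (p ^ n) := ⟨hM⟩
  refine (NR_le_ker d _ hd hM).trans ?_
  by_cases hp2 : p = 2
  · subst hp2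
    by_cases hn : n ≤ 2
    · haveI : IsCyclic (ZMod (2 ^ n))ˣ := (ZMod.isCyclic_units_two_pow_iff n).2 hn
      have := ker_cyclic (ZMod (2 ^ n))ˣ d hd
      omega
    · obtain ⟨m, rfl⟩ : ∃ m, n = m + 2 := ⟨n - 2, by omega⟩
      have h5 : IsUnit (5 : ZMod (2 ^ (m + 2))) := by
        have : IsUnit ((5 : ℕ) : ZMod (2 ^ (m + 2))) := by
          rw [ZMod.isUnit_iff_coprime]
          exact Nat.Coprime.pow_right _ (by norm_num)
        simpa using this
      obtain ⟨g, hg⟩ := h5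
      have hord : orderOf g = 2 ^ m := by
        rw [← orderOf_units, hg, ZMod.orderOf_five]
      have hH := ker_le (ZMod (2 ^ (m + 2)))ˣ (Subgroup.zpowers g) d hd
      have hidx : (Subgroup.zpowers g).index = 2 := by
        have h1 := Subgroup.card_mul_index (Subgroup.zpowers g)
        rw [Nat.card_zpowers, hord, Nat.card_eq_fintype_card, ZMod.card_units_eq_totient,
          Nat.totient_prime_pow Nat.prime_two (by omega)] at h1
        have h2 : 2 ^ (m + 2 - 1) * (2 - 1) = 2 ^ m * 2 := by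
          rw [show m + 2 - 1 = m + 1 by omega, pow_succ]; ring
        rw [h2] at h1
        exact Nat.eq_of_mul_eq_mul_left (by positivity) h1
      rw [hidx] at hH
      exact hH
  · haveI : IsCyclic (ZMod (p ^ n))ˣ := ZMod.isCyclic_units_of_prime_pow p hp hp2 n
    have := ker_cyclic (ZMod (p ^ n))ˣ d hd
    omega

theorem roots_le_NR (d M : ℕ) (hd : 0 < d) (hM : M ≠ 0) (u : ZMod M) (hu : IsUnit u) :
    ({t : ZMod M | t ^ d = u} : Set (ZMod M)).ncard ≤ NR d M := by
  haveI : NeZero M := ⟨hM⟩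
  by_cases hne : ({t : ZMod M | t ^ d = u} : Set (ZMod M)).Nonempty
  · obtain ⟨t0, ht0⟩ := hne
    have ht0' : t0 ^ d = u := ht0
    have hunit : IsUnit t0 := by
      have : IsUnit (t0 ^ d) := by rw [ht0']; exact hu
      exact (isUnit_pow_iff hd.ne').1 this
    obtain ⟨v, hv⟩ := hunit
    unfold NR
    refine Set.ncard_le_ncard_of_injOn (fun t => t * (↑v⁻¹ : ZMod M)) ?_ ?_ (Set.toFinite _)
    · intro t ht
      have ht' : t ^ d = u := ht
      show (t * (↑v⁻¹ : ZMod M)) ^ d = 1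
      rw [mul_pow, ht', ← ht0', ← hv, ← mul_pow, Units.mul_inv, one_pow]
    · intro s _ t _ hst
      have hst' : s * (↑v⁻¹ : ZMod M) = t * (↑v⁻¹ : ZMod M) := hst
      have := congrArg (fun z => z * (v : ZMod M)) hst'
      simpa [mul_assoc] using this
  · rw [Set.not_nonempty_iff_eq_empty] at hne
    rw [hne]; simp

/-- the factor of a prime -/
noncomputable def cf (d : ℕ) (ε : ℝ) (p : ℕ) : ℝ := max 1 (2 * d / (p : ℝ) ^ ε)

theorem NR_bound (d : ℕ) (hd : 0 < d) (ε : ℝ) (hε : 0 < ε) (M : ℕ) : M ≠ 0 →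
    (NR d M : ℝ) ≤ (∏ p ∈ M.primeFactors, cf d ε p) * (M : ℝ) ^ ε := by
  induction M using Nat.recOnPosPrimePosCoprime with
  | zero => intro h; exact absurd rfl h
  | one =>
    intro _
    simp only [Nat.primeFactors_one, Finset.prod_empty, Nat.cast_one, Real.one_rpow, mul_one]
    have : NR d 1 ≤ 1 := by
      unfold NR
      have h1 := Set.ncard_le_card ({t : ZMod 1 | t ^ d = 1} : Set (ZMod 1))
      simpa using h1
    exact_mod_cast this
  | prime_pow p n hp hn =>
    intro _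
    have h1 := NR_prime_pow d p n hd hp
    rw [Nat.primeFactors_prime_pow hn.ne' hp, Finset.prod_singleton]
    have hp0 : (0 : ℝ) < p := by exact_mod_cast hp.pos
    have hp1 : (1 : ℝ) ≤ p := by exact_mod_cast hp.one_lt.le
    have h2 : (2 * d : ℝ) ≤ cf d ε p * (p : ℝ) ^ ε := by
      have h3 : (2 * d : ℝ) / (p : ℝ) ^ ε ≤ cf d ε p := le_max_right _ _
      rwa [div_le_iff₀ (Real.rpow_pos_of_pos hp0 _)] at h3
    have hc0 : 0 ≤ cf d ε p := le_trans zero_le_one (le_max_left _ _)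
    have h4 : (p : ℝ) ^ ε ≤ ((p ^ n : ℕ) : ℝ) ^ ε := by
      apply Real.rpow_le_rpow hp0.le _ hε.le
      push_cast
      calc (p : ℝ) = (p : ℝ) ^ 1 := (pow_one _).symm
        _ ≤ (p : ℝ) ^ n := pow_le_pow_right₀ hp1 hn
    calc (NR d (p ^ n) : ℝ) ≤ ((2 * d : ℕ) : ℝ) := by exact_mod_cast h1
      _ = 2 * d := by push_cast; ring
      _ ≤ cf d ε p * (p : ℝ) ^ ε := h2
      _ ≤ cf d ε p * ((p ^ n : ℕ) : ℝ) ^ ε := mul_le_mul_of_nonneg_left h4 hc0
  | coprime a b ha hb hab iha ihb =>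
    intro _
    have h1 := iha (by omega)
    have h2 := ihb (by omega)
    rw [NR_coprime d a b hab, Nat.cast_mul, Nat.cast_mul, hab.primeFactors_mul,
      Finset.prod_union hab.disjoint_primeFactors,
      Real.mul_rpow (Nat.cast_nonneg _) (Nat.cast_nonneg _)]
    calc (NR d a : ℝ) * (NR d b : ℝ) ≤ ((∏ p ∈ a.primeFactors, cf d ε p) * (a : ℝ) ^ ε) *
          ((∏ p ∈ b.primeFactors, cf d ε p) * (b : ℝ) ^ ε) :=
          mul_le_mul h1 h2 (Nat.cast_nonneg _) ((Nat.cast_nonneg _).trans h1)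
      _ = _ := by ring

theorem prod_cf (d : ℕ) (hd : 0 < d) (ε : ℝ) (hε : 0 < ε) (P : ℕ)
    (hP : (2 * d : ℝ) ≤ (P : ℝ) ^ ε) (M : ℕ) :
    ∏ p ∈ M.primeFactors, cf d ε p ≤ (2 * d : ℝ) ^ P := by
  have h2d : (1 : ℝ) ≤ 2 * d := by
    have : (1 : ℝ) ≤ d := by exact_mod_cast hd
    linarith
  have hone : ∀ p ∈ M.primeFactors, P ≤ p → cf d ε p = 1 := by
    intro p hp hPp
    unfold cf
    apply max_eq_left
    have hp0 : (0 : ℝ) < p := by exact_mod_cast (Nat.prime_of_mem_primeFactors hp).pos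
    rw [div_le_one (Real.rpow_pos_of_pos hp0 _)]
    refine hP.trans ?_
    exact Real.rpow_le_rpow (Nat.cast_nonneg _) (by exact_mod_cast hPp) hε.le
  have hle : ∀ p ∈ M.primeFactors, cf d ε p ≤ 2 * d := by
    intro p hp
    unfold cf
    apply max_le h2d
    have hp1 : (1 : ℝ) ≤ (p : ℝ) := by exact_mod_cast (Nat.prime_of_mem_primeFactors hp).one_lt.le
    apply div_le_self (by linarith)
    exact Real.one_le_rpow hp1 hε.le
  have hsplit : ∏ p ∈ M.primeFactors, cf d ε p =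
      ∏ p ∈ M.primeFactors.filter (fun p => p < P), cf d ε p := by
    rw [Finset.prod_filter]
    refine Finset.prod_congr rfl ?_
    intro p hp
    by_cases h : p < P
    · rw [if_pos h]
    · rw [if_neg h, hone p hp (not_lt.1 h)]
  rw [hsplit]
  have hcard : (M.primeFactors.filter (fun p => p < P)).card ≤ P := by
    have : M.primeFactors.filter (fun p => p < P) ⊆ Finset.range P := by
      intro p hp
      rw [Finset.mem_filter] at hp
      exact Finset.mem_range.2 hp.2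
    simpa using Finset.card_le_card this
  calc ∏ p ∈ M.primeFactors.filter (fun p => p < P), cf d ε p
      ≤ ∏ p ∈ M.primeFactors.filter (fun p => p < P), (2 * d : ℝ) := by
        refine Finset.prod_le_prod ?_ ?_
        · intro p _
          exact le_trans zero_le_one (le_max_left _ _)
        · intro p hp
          exact hle p (Finset.mem_filter.1 hp).1
    _ = (2 * d : ℝ) ^ (M.primeFactors.filter (fun p => p < P)).card := by
        rw [Finset.prod_const]
    _ ≤ (2 * d : ℝ) ^ P := pow_le_pow_right₀ h2d hcard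

end RootsAux

theorem roots (d : ℕ) (hd : 1 ≤ d) (ε : ℝ) (hε : 0 < ε) :
    ∃ C : ℝ, 0 < C ∧ ∀ M : ℕ, 1 ≤ M → ∀ u : ZMod M, IsUnit u →
      (({t : ZMod M | t ^ d = u} : Set (ZMod M)).ncard : ℝ) ≤ C * (M : ℝ) ^ ε := by
  obtain ⟨P, hP⟩ : ∃ P : ℕ, (2 * d : ℝ) ≤ (P : ℝ) ^ ε := by
    refine ⟨⌈((2 * d : ℝ)) ^ (1 / ε)⌉₊, ?_⟩
    have h0 : (0 : ℝ) ≤ 2 * d := by positivity
    calc (2 * d : ℝ) = ((2 * d : ℝ) ^ (1 / ε)) ^ ε := by
          rw [← Real.rpow_mul h0, one_div, inv_mul_cancel₀ hε.ne', Real.rpow_one]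
      _ ≤ _ := Real.rpow_le_rpow (Real.rpow_nonneg h0 _) (Nat.le_ceil _) hε.le
  refine ⟨(2 * d : ℝ) ^ P, by positivity, ?_⟩
  intro M hM u hu
  have hM0 : M ≠ 0 := by omega
  have h1 := RootsAux.roots_le_NR d M hd hM0 u hu
  have h2 := RootsAux.NR_bound d hd ε hε M hM0
  have h3 := RootsAux.prod_cf d hd ε hε P hP M
  calc (({t : ZMod M | t ^ d = u} : Set (ZMod M)).ncard : ℝ) ≤ (RootsAux.NR d M : ℝ) := by
        exact_mod_cast h1
    _ ≤ _ := h2
    _ ≤ (2 * d : ℝ) ^ P * (M : ℝ) ^ ε :=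
        mul_le_mul_of_nonneg_right h3 (Real.rpow_nonneg (Nat.cast_nonneg _) _)

end Pool.Agent.H328R2.ABC
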