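import Mathlib
import Pool.Agent.H328R2.ABC.Defs
import Pool.Agent.H328R2.ABC.Parts
import Pool.Agent.H328R2.ABC.RadSum
import Pool.Agent.H328R2.ABC.Roots
import Pool.Agent.H328R2.ABC.FiberA
import Pool.Agent.H328R2.ABC.FiberB
import Pool.Agent.H328R2.ABC.H81Count

/-! Task E: the lattice bound. -/

set_option autoImplicit false

namespace Pool.Agent.H328R2.ABC

open Finset

/-- logarithms are small -/
theorem h81_log_bound (ε : ℝ) (hε : 0 < ε) :
    ∃ C : ℝ, 0 < C ∧ ∀ X : ℕ, 1 ≤ X → ((Nat.log 2 X : ℝ) + 1) ^ 4 ≤ C * (X : ℝ) ^ ε := by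
  have hl2 : 0 < Real.log 2 := Real.log_pos (by norm_num)
  refine ⟨(1 / (ε / 4 * Real.log 2) + 1) ^ 4, by positivity, ?_⟩
  intro X hX
  have hXpos : (0 : ℝ) < X := by exact_mod_cast hX
  have hX1 : (1 : ℝ) ≤ X := by exact_mod_cast hX
  have h1 : (Nat.log 2 X : ℝ) ≤ Real.log X / Real.log 2 := by
    rw [le_div_iff₀ hl2, ← Real.log_rpow (by norm_num)]
    apply Real.log_le_log (by positivity)
    rw [Real.rpow_natCast]
    exact_mod_cast Nat.pow_log_le_self 2 (by omega)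
  have h2 : Real.log X ≤ (X : ℝ) ^ (ε / 4) / (ε / 4) := Real.log_le_rpow_div hXpos.le (by positivity)
  have h3 : (1 : ℝ) ≤ (X : ℝ) ^ (ε / 4) := Real.one_le_rpow hX1 (by positivity)
  have h4 : (Nat.log 2 X : ℝ) + 1 ≤ (1 / (ε / 4 * Real.log 2) + 1) * (X : ℝ) ^ (ε / 4) := by
    have h5 : (Nat.log 2 X : ℝ) ≤ 1 / (ε / 4 * Real.log 2) * (X : ℝ) ^ (ε / 4) := by
      refine h1.trans ?_
      rw [div_le_iff₀ hl2]
      refine h2.trans (le_of_eq ?_)
      field_simp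
    nlinarith
  calc ((Nat.log 2 X : ℝ) + 1) ^ 4 ≤ ((1 / (ε / 4 * Real.log 2) + 1) * (X : ℝ) ^ (ε / 4)) ^ 4 :=
        pow_le_pow_left₀ (by positivity) h4 4
    _ = (1 / (ε / 4 * Real.log 2) + 1) ^ 4 * (X : ℝ) ^ ε := by
        rw [mul_pow]
        congr 1
        rw [← Real.rpow_natCast, ← Real.rpow_mul hXpos.le]
        congr 1
        push_cast
        ring

theorem h81_side_ne (r : Fin 3) : r + 1 ≠ r + 2 := by
  revert r; decide

theorem h81_kap0 (a b : ℕ) : kap a b 0 = (a : ℝ) / ((a + b : ℕ) : ℝ) := by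
  unfold kap
  rw [if_pos rfl]

theorem h81_kap1 (a b : ℕ) : kap a b 1 = 1 := by
  unfold kap
  rw [if_neg (by decide)]

theorem h81_kap2 (a b : ℕ) : kap a b 2 = 1 := by
  unfold kap
  rw [if_neg (by decide)]

/-- the fibre bound -/
theorem h81_fiberL (r : Fin 3) (d : ℕ) (hd : 1 ≤ d) (V W M X : ℕ) (hV : 0 < V) (hW : 0 < W)
    (hM : 0 < M) (Q ρ : ℝ) (hQ : 1 ≤ Q) (hρ0 : 0 ≤ ρ)
    (hρ : ∀ u : ZMod M, IsUnit u → (({t : ZMod M | t ^ d = u} : Set (ZMod M)).ncard : ℝ) ≤ ρ)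
    (S : Finset (ℕ × ℕ)) (g : ℕ × ℕ → ℕ × ℕ)
    (hS : ∀ t ∈ S, Adm X t ∧ 0 < (g t).1 ∧ 0 < (g t).2 ∧
      side t.1 t.2 (r + 1) = V * (g t).1 ^ d ∧ side t.1 t.2 (r + 2) = W * (g t).2 ^ d ∧
      M ∣ side t.1 t.2 r ∧ ((g t).1 : ℝ) * (g t).2 * kap t.1 t.2 r ≤ Q * M) :
    (S.card : ℝ) ≤ ((Nat.log 2 X : ℝ) + 1) ^ 4 * (ρ * (1 + 256 * Q)) := by
  classical
  have hinj : Set.InjOn g (S : Set (ℕ × ℕ)) := by
    intro t ht t' ht' hgg
    obtain ⟨_, _, _, a1, a2, _⟩ := hS t ht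
    obtain ⟨_, _, _, b1, b2, _⟩ := hS t' ht'
    rw [← hgg] at b1 b2
    exact h81_side_inj (a := t.1) (b := t.2) (a' := t'.1) (b' := t'.2) (h81_side_ne r)
      (a1.trans b1.symm) (a2.trans b2.symm)
  rw [← card_image_of_injOn hinj]
  have hL1 : (1 : ℝ) ≤ (Nat.log 2 X : ℝ) + 1 := by
    have : (0 : ℝ) ≤ Nat.log 2 X := by positivity
    linarith
  have hA : ((Nat.log 2 X : ℝ) + 1) ^ 2 * (ρ * (1 + 16 * Q)) ≤
      ((Nat.log 2 X : ℝ) + 1) ^ 4 * (ρ * (1 + 256 * Q)) := by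
    apply mul_le_mul (pow_le_pow_right₀ hL1 (by norm_num)) _ (by positivity) (by positivity)
    apply mul_le_mul_of_nonneg_left _ hρ0
    linarith
  have hpowle : ∀ v y : ℕ, 0 < v → v * y ^ d ≤ X → y ≤ X := by
    intro v y hv h
    rcases Nat.eq_zero_or_pos y with h0 | h0
    · omega
    calc y ≤ y ^ d := Nat.le_self_pow (by omega) y
      _ ≤ v * y ^ d := Nat.le_mul_of_pos_left _ hv
      _ ≤ X := h
  obtain ⟨r, hr⟩ := r
  interval_cases r
  · -- the modulus is on the smallest term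
    apply fiberB d hd V W M hV hW hM X Q ρ (by linarith) hρ
    intro p hp
    rw [mem_image] at hp
    obtain ⟨t, ht, rfl⟩ := hp
    obtain ⟨⟨h1, h2, h3, h4⟩, h5, h6, h7, h8, h9, h10⟩ := hS t ht
    have h7' : t.2 = V * (g t).1 ^ d := h7
    have h8' : t.1 + t.2 = W * (g t).2 ^ d := h8
    have h9' : M ∣ t.1 := h9
    rw [← h7', ← h8']
    refine ⟨h5, h6, h4, by omega, by omega, ?_, ?_, ?_⟩
    · exact Nat.coprime_add_self_right.2 h3.symm
    · have e1 : ((t.2 : ℕ) : ℤ) - ((t.1 + t.2 : ℕ) : ℤ) = -(t.1 : ℤ) := by push_cast; ring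
      rw [e1]
      exact (Int.natCast_dvd_natCast.2 h9').neg_right
    · have hc : (0 : ℝ) < ((t.1 + t.2 : ℕ) : ℝ) := by
        have : 0 < t.1 + t.2 := by omega
        exact_mod_cast this
      have e2 : kap t.1 t.2 (⟨0, hr⟩ : Fin 3) = (t.1 : ℝ) / ((t.1 + t.2 : ℕ) : ℝ) :=
        h81_kap0 _ _
      rw [e2, ← mul_div_assoc, div_le_iff₀ hc] at h10
      have e3 : ((t.1 + t.2 : ℕ) : ℝ) - ((t.2 : ℕ) : ℝ) = (t.1 : ℝ) := by push_cast; ring
      rw [e3]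
      exact h10
  · refine le_trans ?_ hA
    apply fiberA d hd V W M hV hW hM 1 (Or.inl rfl) X Q ρ (by linarith) hρ
    intro p hp
    rw [mem_image] at hp
    obtain ⟨t, ht, rfl⟩ := hp
    obtain ⟨⟨h1, h2, h3, h4⟩, h5, h6, h7, h8, h9, h10⟩ := hS t ht
    have h7' : t.1 + t.2 = V * (g t).1 ^ d := h7
    have h8' : t.1 = W * (g t).2 ^ d := h8
    have h9' : M ∣ t.2 := h9
    refine ⟨h5, h6, hpowle V _ hV (by rw [← h7']; exact h4),
      hpowle W _ hW (by rw [← h8']; omega), ?_, ?_, ?_⟩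
    · rw [← h7', ← h8']
      exact Nat.coprime_self_add_left.2 h3.symm
    · rw [← h7', ← h8']
      have e1 : ((t.1 + t.2 : ℕ) : ℤ) - 1 * ((t.1 : ℕ) : ℤ) = (t.2 : ℤ) := by push_cast; ring
      rw [e1]
      exact Int.natCast_dvd_natCast.2 h9'
    · have e2 : kap t.1 t.2 (⟨1, hr⟩ : Fin 3) = 1 := h81_kap1 _ _
      rw [e2, mul_one] at h10
      exact h10
  · refine le_trans ?_ hA
    apply fiberA d hd V W M hV hW hM (-1) (Or.inr rfl) X Q ρ (by linarith) hρ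
    intro p hp
    rw [mem_image] at hp
    obtain ⟨t, ht, rfl⟩ := hp
    obtain ⟨⟨h1, h2, h3, h4⟩, h5, h6, h7, h8, h9, h10⟩ := hS t ht
    have h7' : t.1 = V * (g t).1 ^ d := h7
    have h8' : t.2 = W * (g t).2 ^ d := h8
    have h9' : M ∣ t.1 + t.2 := h9
    refine ⟨h5, h6, hpowle V _ hV (by rw [← h7']; omega),
      hpowle W _ hW (by rw [← h8']; omega), ?_, ?_, ?_⟩
    · rw [← h7', ← h8']
      exact h3
    · rw [← h7', ← h8']
      have e1 : ((t.1 : ℕ) : ℤ) - -1 * ((t.2 : ℕ) : ℤ) = ((t.1 + t.2 : ℕ) : ℤ) := by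
        push_cast; ring
      rw [e1]
      exact Int.natCast_dvd_natCast.2 h9'
    · have e2 : kap t.1 t.2 (⟨2, hr⟩ : Fin 3) = 1 := h81_kap2 _ _
      rw [e2, mul_one] at h10
      exact h10

theorem countL (r : Fin 3) (d : ℕ) (hd : 1 ≤ d) (J K I : Finset ℕ) (hJ : ok J d) (hK : ok K d)
    (hI : I ⊆ All) (ε : ℝ) (hε : 0 < ε) :
    ∃ C : ℝ, 0 < C ∧ ∀ X : ℕ, 1 ≤ X → ∀ Q : ℝ, 1 ≤ Q → ∀ S : Finset (ℕ × ℕ),
      (∀ t ∈ S, Adm X t ∧ condL r d J K I Q t.1 t.2) →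
      (S.card : ℝ) ≤ C * (X : ℝ) ^ ε * Q := by
  classical
  obtain ⟨C2, hC2, hrad⟩ := sum_inv_rad (ε / 5) (by positivity)
  obtain ⟨C3, hC3, hroots⟩ := roots d hd (ε / 5) (by positivity)
  obtain ⟨C4, hC4, hlog⟩ := h81_log_bound (ε / 5) (by positivity)
  refine ⟨C4 * C3 * 257 * C2 ^ 3, by positivity, ?_⟩
  intro X hX Q hQ S hS
  have hXpos : (0 : ℝ) < X := by exact_mod_cast hX
  choose yf hyf0 hyf using fun n => exists_root hd hJ n
  choose zf hzf0 hzf using fun n => exists_root hd hK n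
  let key : ℕ × ℕ → ℕ × ℕ × ℕ := fun t =>
    (part (All \ J) (side t.1 t.2 (r + 1)), part (All \ K) (side t.1 t.2 (r + 2)),
      part I (side t.1 t.2 r))
  have hpos : ∀ t ∈ S, ∀ i, 0 < side t.1 t.2 i := by
    intro t ht i
    have h4 := (hS t ht).1
    exact h81_side_pos h4.1 (lt_of_lt_of_le h4.1 h4.2.1) i
  have hle : ∀ t ∈ S, ∀ i, side t.1 t.2 i ≤ X := by
    intro t ht i
    exact h81_side_le (hS t ht).1.2.2.2 i
  have hkey : ∀ t ∈ S, key t ∈ Icc 1 X ×ˢ (Icc 1 X ×ˢ Icc 1 X) := by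
    intro t ht
    simp only [key, mem_product, mem_Icc]
    exact ⟨⟨part_pos _ _, h81_part_le (hpos t ht _) (hle t ht _)⟩,
      ⟨part_pos _ _, h81_part_le (hpos t ht _) (hle t ht _)⟩,
      part_pos _ _, h81_part_le (hpos t ht _) (hle t ht _)⟩
  have hfib : ∀ V ∈ Icc 1 X, ∀ W ∈ Icc 1 X, ∀ M ∈ Icc 1 X,
      ((S.filter fun t => key t = (V, W, M)).card : ℝ) ≤
        (C4 * C3 * 257 * (X : ℝ) ^ (ε / 5) * (X : ℝ) ^ (ε / 5) * Q) *
          (1 / (rad V : ℝ) * (1 / (rad W : ℝ) * (1 / (rad M : ℝ)))) := by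
    intro V hV W hW M hM
    rw [mem_Icc] at hV hW hM
    have hP : (0 : ℝ) < (rad V : ℝ) * rad W * rad M := by
      have := rad_pos V
      have := rad_pos W
      have := rad_pos M
      positivity
    set P : ℝ := (rad V : ℝ) * rad W * rad M with hPdef
    have hrhs : (C4 * C3 * 257 * (X : ℝ) ^ (ε / 5) * (X : ℝ) ^ (ε / 5) * Q) *
          (1 / (rad V : ℝ) * (1 / (rad W : ℝ) * (1 / (rad M : ℝ)))) =
        (C4 * (X : ℝ) ^ (ε / 5)) * ((C3 * (X : ℝ) ^ (ε / 5)) * (257 * (Q / P))) := by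
      rw [hPdef]
      field_simp
    rw [hrhs]
    rcases (S.filter fun t => key t = (V, W, M)).eq_empty_or_nonempty with hemp | hne
    · rw [hemp, card_empty, Nat.cast_zero]
      positivity
    let g : ℕ × ℕ → ℕ × ℕ := fun t =>
      (yf (side t.1 t.2 (r + 1)), zf (side t.1 t.2 (r + 2)))
    have hel : ∀ t ∈ S.filter (fun t => key t = (V, W, M)),
        Adm X t ∧ 0 < (g t).1 ∧ 0 < (g t).2 ∧
        side t.1 t.2 (r + 1) = V * (g t).1 ^ d ∧ side t.1 t.2 (r + 2) = W * (g t).2 ^ d ∧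
        M ∣ side t.1 t.2 r ∧ ((g t).1 : ℝ) * (g t).2 * kap t.1 t.2 r ≤ (Q / P) * M ∧
        P ≤ Q := by
      intro t ht
      rw [mem_filter] at ht
      obtain ⟨ht, hk⟩ := ht
      simp only [key, Prod.mk.injEq] at hk
      obtain ⟨e1, e2, e3⟩ := hk
      have c1 := part_compl J (hpos t ht (r + 1)).ne'
      have c2 := part_compl K (hpos t ht (r + 2)).ne'
      rw [← hyf, e1] at c1
      rw [← hzf, e2] at c2
      have c3 := (hS t ht).2
      unfold condL PL at c3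
      rw [← rad_part, ← rad_part, ← rad_part, e1, e2, e3, ← hyf, ← hzf] at c3
      have hroot : (((yf (side t.1 t.2 (r + 1))) ^ d * (zf (side t.1 t.2 (r + 2))) ^ d : ℕ) : ℝ) ^
          ((1 : ℝ) / d) = (yf (side t.1 t.2 (r + 1)) : ℝ) * (zf (side t.1 t.2 (r + 2)) : ℝ) := by
        have hd0 : (d : ℝ) ≠ 0 := by
          have : d ≠ 0 := by omega
          exact_mod_cast this
        push_cast
        rw [← mul_pow, ← Real.rpow_natCast, ← Real.rpow_mul (by positivity), mul_one_div_cancel hd0,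
          Real.rpow_one]
      rw [hroot] at c3
      obtain ⟨c4, c5⟩ := c3
      refine ⟨(hS t ht).1, hyf0 _, hzf0 _, c1.symm, c2.symm, ?_, ?_, ?_⟩
      · rw [← e3]
        exact part_dvd I (hpos t ht r).ne'
      · rw [div_mul_eq_mul_div, le_div_iff₀ hP]
        calc (yf (side t.1 t.2 (r + 1)) : ℝ) * (zf (side t.1 t.2 (r + 2)) : ℝ) *
              kap t.1 t.2 r * P
            = ((rad V * rad W * rad M : ℕ) : ℝ) *
              ((yf (side t.1 t.2 (r + 1)) : ℝ) * (zf (side t.1 t.2 (r + 2)) : ℝ)) *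
              kap t.1 t.2 r := by
              rw [hPdef]
              push_cast
              ring
          _ ≤ Q * M := c5
      · rw [hPdef]
        push_cast at c4
        exact c4
    obtain ⟨t0, ht0⟩ := hne
    have hPQ : P ≤ Q := (hel t0 ht0).2.2.2.2.2.2.2
    have hQP : 1 ≤ Q / P := by
      rw [le_div_iff₀ hP, one_mul]
      exact hPQ
    have hM1 : (1 : ℝ) ≤ M := by exact_mod_cast hM.1
    have hMX : (M : ℝ) ≤ X := by exact_mod_cast hM.2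
    have hρM : C3 * (M : ℝ) ^ (ε / 5) ≤ C3 * (X : ℝ) ^ (ε / 5) :=
      mul_le_mul_of_nonneg_left (Real.rpow_le_rpow (by linarith) hMX (by positivity)) hC3.le
    have h1 := h81_fiberL r d hd V W M X hV.1 hW.1 hM.1 (Q / P) (C3 * (X : ℝ) ^ (ε / 5)) hQP
      (by positivity) (fun u hu => (hroots M hM.1 u hu).trans hρM)
      (S.filter fun t => key t = (V, W, M)) g (fun t ht => by
        obtain ⟨a1, a2, a3, a4, a5, a6, a7, _⟩ := hel t ht
        exact ⟨a1, a2, a3, a4, a5, a6, a7⟩)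
    refine h1.trans ?_
    apply mul_le_mul (hlog X hX) _ (by positivity) (by positivity)
    apply mul_le_mul_of_nonneg_left _ (by positivity)
    linarith
  have hfin := h81_fiber_sum S X key hkey _ hfib
  have hr := hrad X hX
  have hr0 : 0 ≤ ∑ V ∈ Icc 1 X, (1 : ℝ) / (rad V : ℝ) := sum_nonneg fun _ _ => by positivity
  calc (S.card : ℝ) ≤ (C4 * C3 * 257 * (X : ℝ) ^ (ε / 5) * (X : ℝ) ^ (ε / 5) * Q) *
        (∑ V ∈ Icc 1 X, (1 : ℝ) / (rad V : ℝ)) ^ 3 := hfin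
    _ ≤ (C4 * C3 * 257 * (X : ℝ) ^ (ε / 5) * (X : ℝ) ^ (ε / 5) * Q) *
        (C2 * (X : ℝ) ^ (ε / 5)) ^ 3 := by
        apply mul_le_mul_of_nonneg_left _ (by positivity)
        exact pow_le_pow_left₀ hr0 hr 3
    _ = C4 * C3 * 257 * C2 ^ 3 * ((X : ℝ) ^ (ε / 5)) ^ 5 * Q := by ring
    _ = C4 * C3 * 257 * C2 ^ 3 * (X : ℝ) ^ ε * Q := by
        congr 2
        rw [← Real.rpow_natCast, ← Real.rpow_mul hXpos.le]
        congr 1
        push_cast
        ring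

end Pool.Agent.H328R2.ABC
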