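import Pool.Agent.H328R2.ABC.Defs
import Pool.Agent.H328R2.ABC.RadSum

/-!
Task T: the trivial bound.
-/

set_option autoImplicit false

namespace Pool.Agent.H328R2.ABC

open Finset

theorem countT_of
    (sum_inv_rad : ∀ ε : ℝ, 0 < ε → ∃ C : ℝ, 0 < C ∧ ∀ X : ℕ, 1 ≤ X →
      ∑ V ∈ Finset.Icc 1 X, (1 : ℝ) / (rad V : ℝ) ≤ C * (X : ℝ) ^ ε)
    (r : Fin 3) (ε : ℝ) (hε : 0 < ε) :
    ∃ C : ℝ, 0 < C ∧ ∀ X : ℕ, 1 ≤ X → ∀ Q : ℝ, 1 ≤ Q → ∀ S : Finset (ℕ × ℕ),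
      (∀ t ∈ S, Adm X t ∧ condT r Q t.1 t.2) → (S.card : ℝ) ≤ C * (X : ℝ) ^ ε * Q := by
  obtain ⟨C, hC, hsum⟩ := sum_inv_rad (ε / 2) (by linarith)
  refine ⟨C ^ 2, by positivity, ?_⟩
  intro X hX Q hQ S hS
  have hradpos : ∀ n : ℕ, 0 < rad n := fun n =>
    Finset.prod_pos (fun p hp => (Nat.prime_of_mem_primeFactors hp).pos)
  -- the map to the two sides
  set f : ℕ × ℕ → ℕ × ℕ := fun t => (side t.1 t.2 (r + 1), side t.1 t.2 (r + 2)) with hf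
  have hinj : Set.InjOn f (S : Set (ℕ × ℕ)) := by
    rintro ⟨a, b⟩ _ ⟨a', b'⟩ _ h
    simp only [hf, side, Prod.mk.injEq] at h
    fin_cases r <;> simp at h <;> (ext <;> simp <;> omega)
  have hmem : ∀ t ∈ S, f t ∈ (Icc 1 X ×ˢ Icc 1 X) := by
    rintro ⟨a, b⟩ ht
    obtain ⟨⟨h1, h2, _, h3⟩, _⟩ := hS _ ht
    simp only [hf, side, mem_product, mem_Icc] at *
    fin_cases r <;> simp <;> omega
  have hcount : (S.card : ℝ) ≤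
      ∑ t ∈ S, Q * ((1 / (rad (f t).1 : ℝ)) * (1 / (rad (f t).2 : ℝ))) := by
    rw [Finset.card_eq_sum_ones, Nat.cast_sum]
    apply Finset.sum_le_sum
    intro t ht
    have h1 := (hS t ht).2
    unfold condT at h1
    have hp1 : (0 : ℝ) < rad (f t).1 := by exact_mod_cast hradpos _
    have hp2 : (0 : ℝ) < rad (f t).2 := by exact_mod_cast hradpos _
    rw [one_div_mul_one_div, mul_one_div, Nat.cast_one, le_div_iff₀ (by positivity), one_mul]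
    have : ((rad (f t).1 * rad (f t).2 : ℕ) : ℝ) ≤ Q := h1
    rwa [Nat.cast_mul] at this
  have hle : ∑ t ∈ S, Q * ((1 / (rad (f t).1 : ℝ)) * (1 / (rad (f t).2 : ℝ))) ≤
      ∑ u ∈ Icc 1 X ×ˢ Icc 1 X, Q * ((1 / (rad u.1 : ℝ)) * (1 / (rad u.2 : ℝ))) := by
    rw [← Finset.sum_image (f := fun u : ℕ × ℕ => Q * ((1 / (rad u.1 : ℝ)) * (1 / (rad u.2 : ℝ))))
      hinj]
    apply Finset.sum_le_sum_of_subset_of_nonneg
    · intro u hu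
      obtain ⟨t, ht, rfl⟩ := mem_image.1 hu
      exact hmem t ht
    · intro u _ _
      positivity
  have hprod : ∑ u ∈ Icc 1 X ×ˢ Icc 1 X, Q * ((1 / (rad u.1 : ℝ)) * (1 / (rad u.2 : ℝ))) =
      Q * ((∑ V ∈ Icc 1 X, (1 : ℝ) / (rad V : ℝ)) * (∑ V ∈ Icc 1 X, (1 : ℝ) / (rad V : ℝ))) := by
    rw [← Finset.mul_sum, Finset.sum_product, Finset.sum_mul_sum]
  have hX0 : (0 : ℝ) < X := by exact_mod_cast hX
  have hfin : (∑ V ∈ Icc 1 X, (1 : ℝ) / (rad V : ℝ)) * (∑ V ∈ Icc 1 X, (1 : ℝ) / (rad V : ℝ)) ≤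
      (C * (X : ℝ) ^ (ε / 2)) * (C * (X : ℝ) ^ (ε / 2)) := by
    apply mul_le_mul (hsum X hX) (hsum X hX)
    · apply Finset.sum_nonneg
      intro V _
      positivity
    · positivity
  have hpow : (C * (X : ℝ) ^ (ε / 2)) * (C * (X : ℝ) ^ (ε / 2)) = C ^ 2 * (X : ℝ) ^ ε := by
    have : (X : ℝ) ^ ε = (X : ℝ) ^ (ε / 2) * (X : ℝ) ^ (ε / 2) := by
      rw [← Real.rpow_add hX0]; congr 1; ring
    rw [this]; ring
  calc (S.card : ℝ) ≤ _ := hcount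
    _ ≤ _ := hle
    _ = _ := hprod
    _ ≤ Q * (C ^ 2 * (X : ℝ) ^ ε) := by
      rw [hpow] at hfin
      exact mul_le_mul_of_nonneg_left hfin (by linarith)
    _ = _ := by ring

theorem countT (r : Fin 3) (ε : ℝ) (hε : 0 < ε) :
    ∃ C : ℝ, 0 < C ∧ ∀ X : ℕ, 1 ≤ X → ∀ Q : ℝ, 1 ≤ Q → ∀ S : Finset (ℕ × ℕ),
      (∀ t ∈ S, Adm X t ∧ condT r Q t.1 t.2) → (S.card : ℝ) ≤ C * (X : ℝ) ^ ε * Q :=
  countT_of (fun ε hε => sum_inv_rad ε hε) r ε hε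

end Pool.Agent.H328R2.ABC
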