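import Pool.Agent.H328R2.ABC.Defs

namespace Pool.Agent.H328R2.ABC

open Finset

theorem DetDvd_sum_ge (s : Finset ℕ) : s.card * (s.card - 1) / 2 ≤ ∑ x ∈ s, x := by
  rw [← Finset.sum_range_id]
  induction hn : s.card generalizing s with
  | zero => simp
  | succ n ih =>
    have hne : s.Nonempty := by
      rw [← Finset.card_pos, hn]
      omega
    have hM : n ≤ s.max' hne := by
      have h1 : s ⊆ range (s.max' hne + 1) := fun x hx =>
        mem_range.2 (Nat.lt_succ_of_le (Finset.le_max' s x hx))
      have h2 := Finset.card_le_card h1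
      rw [hn, card_range] at h2
      omega
    have h3 := ih (s.erase (s.max' hne)) (by
      rw [Finset.card_erase_of_mem (Finset.max'_mem s hne), hn]
      rfl)
    rw [Finset.sum_range_succ, ← Finset.add_sum_erase s _ (Finset.max'_mem s hne)]
    omega

theorem det_dvd (D : ℕ) (p : ℤ) (τ : Fin D → ℤ) (z0 : ℤ) (hτ : ∀ l, p ∣ τ l - z0)
    (q : Fin D → Polynomial ℤ) :
    p ^ (D * (D - 1) / 2) ∣ (Matrix.of fun l k : Fin D => (q k).eval (τ l)).det := by
  classical
  choose t ht using hτ
  set r : Fin D → Polynomial ℤ := fun k => (q k).comp (Polynomial.X + Polynomial.C z0) with hr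
  set N : ℕ := Finset.univ.sup (fun k => (r k).natDegree) + 1 with hN
  have heval : ∀ l k, (q k).eval (τ l) =
      ∑ m : Fin N, ((r k).coeff m * p ^ (m : ℕ)) * t l ^ (m : ℕ) := by
    intro l k
    have h1 : (q k).eval (τ l) = (r k).eval (p * t l) := by
      rw [hr]
      simp only
      rw [Polynomial.eval_comp, Polynomial.eval_add, Polynomial.eval_X, Polynomial.eval_C,
        ← ht l]
      congr 1
      ring
    have h2 : (r k).natDegree < N :=
      Nat.lt_succ_of_le (Finset.le_sup (f := fun k => (r k).natDegree) (Finset.mem_univ k))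
    rw [h1, Polynomial.eval_eq_sum_range' h2, Finset.sum_range]
    refine Finset.sum_congr rfl fun m _ => ?_
    rw [mul_pow]
    ring
  have hdet : (Matrix.of fun l k : Fin D => (q k).eval (τ l)).det =
      (Matrix.detRowAlternating (R := ℤ) (n := Fin D)).toMultilinearMap
        (fun k => ∑ m : Fin N, ((r k).coeff m * p ^ (m : ℕ)) • fun l => t l ^ (m : ℕ)) := by
    rw [← Matrix.det_transpose]
    have : (Matrix.of fun l k : Fin D => (q k).eval (τ l)).transpose =
        fun k => ∑ m : Fin N, ((r k).coeff m * p ^ (m : ℕ)) • fun l => t l ^ (m : ℕ) := by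
      funext k l
      rw [Matrix.transpose_apply, Matrix.of_apply, heval l k, Finset.sum_apply]
      refine Finset.sum_congr rfl fun m _ => ?_
      rw [Pi.smul_apply, smul_eq_mul]
    rw [this]
    rfl
  rw [hdet, MultilinearMap.map_sum]
  refine Finset.dvd_sum fun f _ => ?_
  rw [MultilinearMap.map_smul_univ]
  by_cases hf : Function.Injective f
  · refine Dvd.dvd.mul_right ?_ _
    rw [Finset.prod_mul_distrib]
    refine Dvd.dvd.mul_left ?_ _
    rw [Finset.prod_pow_eq_pow_sum]
    apply pow_dvd_pow
    have hinj : Function.Injective fun k : Fin D => ((f k : Fin N) : ℕ) := fun a b h =>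
      hf (Fin.ext h)
    have h1 := DetDvd_sum_ge (Finset.univ.image fun k : Fin D => ((f k : Fin N) : ℕ))
    rw [Finset.card_image_of_injective _ hinj, Finset.card_univ, Fintype.card_fin,
      Finset.sum_image fun a _ b _ h => hinj h] at h1
    exact h1
  · rw [Function.Injective] at hf
    push Not at hf
    obtain ⟨a, b, hab, hne⟩ := hf
    have h0 : (Matrix.detRowAlternating (R := ℤ) (n := Fin D)).toMultilinearMap
        (fun i l => t l ^ ((f i : Fin N) : ℕ)) = 0 := by
      refine (Matrix.detRowAlternating (R := ℤ) (n := Fin D)).map_eq_zero_of_eq _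
        (i := a) (j := b) ?_ hne
      rw [hab]
    rw [h0, smul_zero]
    exact dvd_zero _

end Pool.Agent.H328R2.ABC
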