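import Pool.Agent.H328R2.ABC.Defs

/-!
# Few common zeros (task H3)
-/

namespace Pool.Agent.H328R2.ABC

open Finset Polynomial

private theorem coeff_top (P g : ℚ[X]) (i : ℕ) (hg : g.natDegree = 4) (hP : P ≠ 0) :
    (P ^ 3 * g ^ i).coeff (3 * P.natDegree + 4 * i) ≠ 0 := by
  have hg0 : g ≠ 0 := by
    rintro rfl
    simp at hg
  have h1 : (P ^ 3 * g ^ i).natDegree = 3 * P.natDegree + 4 * i := by
    rw [natDegree_mul (pow_ne_zero _ hP) (pow_ne_zero _ hg0), natDegree_pow, natDegree_pow, hg]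
    ring
  rw [← h1]
  have : (P ^ 3 * g ^ i) ≠ 0 := mul_ne_zero (pow_ne_zero _ hP) (pow_ne_zero _ hg0)
  simpa using this

private theorem coeff_above (P g : ℚ[X]) (i e : ℕ) (hg : g.natDegree = 4)
    (he : P ≠ 0 → 3 * P.natDegree + 4 * i < e) :
    (P ^ 3 * g ^ i).coeff e = 0 := by
  by_cases hP : P = 0
  · simp [hP]
  · apply coeff_eq_zero_of_natDegree_lt
    have hg0 : g ≠ 0 := by
      rintro rfl
      simp at hg
    have h1 : (P ^ 3 * g ^ i).natDegree = 3 * P.natDegree + 4 * i := by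
      rw [natDegree_mul (pow_ne_zero _ hP) (pow_ne_zero _ hg0), natDegree_pow, natDegree_pow, hg]
      ring
    rw [h1]
    exact he hP

private theorem coeff_cross (P0 P1 P2 g : ℚ[X]) (e : ℕ) (hg : g.natDegree = 4)
    (he : P0 ≠ 0 → P1 ≠ 0 → P2 ≠ 0 → P0.natDegree + P1.natDegree + P2.natDegree + 4 < e) :
    (3 * P0 * P1 * P2 * g).coeff e = 0 := by
  by_cases h0 : P0 = 0
  · simp [h0]
  by_cases h1 : P1 = 0
  · simp [h1]
  by_cases h2 : P2 = 0
  · simp [h2]
  apply coeff_eq_zero_of_natDegree_lt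
  have h3 : (3 * P0 * P1 * P2 * g).natDegree ≤
      P0.natDegree + P1.natDegree + P2.natDegree + 4 := by
    have e3 : (3 : ℚ[X]).natDegree = 0 := natDegree_ofNat 3
    calc (3 * P0 * P1 * P2 * g).natDegree
        ≤ (3 * P0 * P1 * P2).natDegree + g.natDegree := natDegree_mul_le
      _ ≤ ((3 * P0 * P1).natDegree + P2.natDegree) + g.natDegree := by
          gcongr; exact natDegree_mul_le
      _ ≤ (((3 * P0).natDegree + P1.natDegree) + P2.natDegree) + g.natDegree := by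
          gcongr; exact natDegree_mul_le
      _ ≤ ((((3 : ℚ[X]).natDegree + P0.natDegree) + P1.natDegree) + P2.natDegree)
            + g.natDegree := by
          gcongr; exact natDegree_mul_le
      _ = _ := by rw [e3, hg]; ring
  exact lt_of_le_of_lt h3 (he h0 h1 h2)

/-- the norm form of `P0 + P1 x + P2 x ^ 2`, `x ^ 3 = g` -/
private noncomputable def nrm (P0 P1 P2 g : ℚ[X]) : ℚ[X] :=
  P0 ^ 3 * g ^ 0 + P1 ^ 3 * g ^ 1 + P2 ^ 3 * g ^ 2 - 3 * P0 * P1 * P2 * g

private theorem nrm_ne_zero (P0 P1 P2 g : ℚ[X]) (hg : g.natDegree = 4)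
    (h : ¬ (P0 = 0 ∧ P1 = 0 ∧ P2 = 0)) : nrm P0 P1 P2 g ≠ 0 := by
  have main : ∀ e : ℕ, (nrm P0 P1 P2 g).coeff e ≠ 0 → nrm P0 P1 P2 g ≠ 0 := by
    intro e he h0
    rw [h0] at he
    simp at he
  -- each of the three terms may dominate
  have c0 : P0 ≠ 0 → (P1 ≠ 0 → 3 * P1.natDegree + 4 * 1 < 3 * P0.natDegree + 4 * 0) →
      (P2 ≠ 0 → 3 * P2.natDegree + 4 * 2 < 3 * P0.natDegree + 4 * 0) →
      nrm P0 P1 P2 g ≠ 0 := by
    intro h0 h1 h2
    apply main (3 * P0.natDegree + 4 * 0)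
    have e0 := coeff_top P0 g 0 hg h0
    have e1 := coeff_above P1 g 1 _ hg h1
    have e2 := coeff_above P2 g 2 _ hg h2
    have e3 := coeff_cross P0 P1 P2 g (3 * P0.natDegree + 4 * 0) hg (by
      intro _ a1 a2
      have := h1 a1
      have := h2 a2
      omega)
    unfold nrm
    rw [coeff_sub, coeff_add, coeff_add, e1, e2, e3]
    simpa using e0
  have c1 : P1 ≠ 0 → (P0 ≠ 0 → 3 * P0.natDegree + 4 * 0 < 3 * P1.natDegree + 4 * 1) →
      (P2 ≠ 0 → 3 * P2.natDegree + 4 * 2 < 3 * P1.natDegree + 4 * 1) →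
      nrm P0 P1 P2 g ≠ 0 := by
    intro h1 h0 h2
    apply main (3 * P1.natDegree + 4 * 1)
    have e1 := coeff_top P1 g 1 hg h1
    have e0 := coeff_above P0 g 0 _ hg h0
    have e2 := coeff_above P2 g 2 _ hg h2
    have e3 := coeff_cross P0 P1 P2 g (3 * P1.natDegree + 4 * 1) hg (by
      intro a0 _ a2
      have := h0 a0
      have := h2 a2
      omega)
    unfold nrm
    rw [coeff_sub, coeff_add, coeff_add, e0, e2, e3]
    simpa using e1
  have c2 : P2 ≠ 0 → (P0 ≠ 0 → 3 * P0.natDegree + 4 * 0 < 3 * P2.natDegree + 4 * 2) →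
      (P1 ≠ 0 → 3 * P1.natDegree + 4 * 1 < 3 * P2.natDegree + 4 * 2) →
      nrm P0 P1 P2 g ≠ 0 := by
    intro h2 h0 h1
    apply main (3 * P2.natDegree + 4 * 2)
    have e2 := coeff_top P2 g 2 hg h2
    have e0 := coeff_above P0 g 0 _ hg h0
    have e1 := coeff_above P1 g 1 _ hg h1
    have e3 := coeff_cross P0 P1 P2 g (3 * P2.natDegree + 4 * 2) hg (by
      intro a0 a1 _
      have := h0 a0
      have := h1 a1
      omega)
    unfold nrm
    rw [coeff_sub, coeff_add, coeff_add, e0, e1, e3]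
    simpa using e2
  by_cases z0 : P0 = 0
  · by_cases z1 : P1 = 0
    · have z2 : P2 ≠ 0 := fun z2 => h ⟨z0, z1, z2⟩
      exact c2 z2 (fun a => absurd z0 a) (fun a => absurd z1 a)
    · by_cases z2 : P2 = 0
      · exact c1 z1 (fun a => absurd z0 a) (fun a => absurd z2 a)
      · rcases lt_or_ge (3 * P2.natDegree + 4 * 2) (3 * P1.natDegree + 4 * 1) with l | l
        · exact c1 z1 (fun a => absurd z0 a) (fun _ => l)
        · exact c2 z2 (fun a => absurd z0 a) (fun _ => by omega)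
  · by_cases z1 : P1 = 0
    · by_cases z2 : P2 = 0
      · exact c0 z0 (fun a => absurd z1 a) (fun a => absurd z2 a)
      · rcases lt_or_ge (3 * P2.natDegree + 4 * 2) (3 * P0.natDegree + 4 * 0) with l | l
        · exact c0 z0 (fun a => absurd z1 a) (fun _ => l)
        · exact c2 z2 (fun _ => by omega) (fun a => absurd z1 a)
    · by_cases z2 : P2 = 0
      · rcases lt_or_ge (3 * P1.natDegree + 4 * 1) (3 * P0.natDegree + 4 * 0) with l | l
        · exact c0 z0 (fun _ => l) (fun a => absurd z2 a)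
        · exact c1 z1 (fun _ => by omega) (fun a => absurd z2 a)
      · rcases lt_or_ge (3 * P1.natDegree + 4 * 1) (3 * P0.natDegree + 4 * 0) with l | l
        · rcases lt_or_ge (3 * P2.natDegree + 4 * 2) (3 * P0.natDegree + 4 * 0) with k | k
          · exact c0 z0 (fun _ => l) (fun _ => k)
          · exact c2 z2 (fun _ => by omega) (fun _ => by omega)
        · rcases lt_or_ge (3 * P2.natDegree + 4 * 2) (3 * P1.natDegree + 4 * 1) with k | k
          · exact c1 z1 (fun _ => by omega) (fun _ => k)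
          · exact c2 z2 (fun _ => by omega) (fun _ => by omega)

private theorem nrm_natDegree (P0 P1 P2 g : ℚ[X]) (m : ℕ) (hg : g.natDegree = 4)
    (h0 : P0.natDegree ≤ m) (h1 : P1.natDegree ≤ m) (h2 : P2.natDegree ≤ m) :
    (nrm P0 P1 P2 g).natDegree ≤ 3 * m + 8 := by
  rw [natDegree_le_iff_coeff_eq_zero]
  intro e he
  have e0 := coeff_above P0 g 0 e hg (by intro _; omega)
  have e1 := coeff_above P1 g 1 e hg (by intro _; omega)
  have e2 := coeff_above P2 g 2 e hg (by intro _; omega)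
  have e3 := coeff_cross P0 P1 P2 g e hg (by intro _ _ _; omega)
  unfold nrm
  rw [coeff_sub, coeff_add, coeff_add, e0, e1, e2, e3]
  simp

theorem few_points (m : ℕ) (U A B : ℤ) (hU : U ≠ 0) (hA : A ≠ 0)
    (c : Fin (m + 1) → Fin 3 → ℚ) (hc : c ≠ 0) (S : Finset (ℤ × ℤ))
    (hS : ∀ p ∈ S, U * p.1 ^ 3 = A * p.2 ^ 4 + B ∧
      ∑ α : Fin (m + 1), ∑ β : Fin 3,
        c α β * (p.2 : ℚ) ^ (α : ℕ) * (p.1 : ℚ) ^ (β : ℕ) = 0) :
    S.card ≤ 3 * m + 8 := by
  classical
  have hUq : (U : ℚ) ≠ 0 := by exact_mod_cast hU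
  have hAq : (A : ℚ) ≠ 0 := by exact_mod_cast hA
  set P : Fin 3 → ℚ[X] := fun β => ∑ α : Fin (m + 1), C (c α β) * X ^ (α : ℕ) with hP
  have hPdeg : ∀ β, (P β).natDegree ≤ m := by
    intro β
    apply natDegree_sum_le_of_forall_le
    intro α _
    refine le_trans (natDegree_C_mul_X_pow_le _ _) ?_
    have := α.2
    omega
  have hPcoeff : ∀ β (α : Fin (m + 1)), (P β).coeff (α : ℕ) = c α β := by
    intro β α
    simp only [hP, finsetSum_coeff, coeff_C_mul, coeff_X_pow]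
    rw [Finset.sum_eq_single α]
    · simp
    · intro b _ hb
      have : (α : ℕ) ≠ (b : ℕ) := fun h => hb (Fin.ext h.symm)
      simp [this]
    · intro h
      exact absurd (Finset.mem_univ _) h
  set g : ℚ[X] := C ((A : ℚ) / U) * X ^ 4 + C ((B : ℚ) / U) with hgdef
  have hg : g.natDegree = 4 := by
    rw [hgdef, natDegree_add_C, natDegree_C_mul_X_pow]
    exact div_ne_zero hAq hUq
  have hne : ¬ (P 0 = 0 ∧ P 1 = 0 ∧ P 2 = 0) := by
    rintro ⟨a0, a1, a2⟩
    apply hc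
    funext α β
    rw [← hPcoeff β α]
    fin_cases β <;> simp [a0, a1, a2]
  have hN := nrm_ne_zero (P 0) (P 1) (P 2) g hg hne
  have hNd := nrm_natDegree (P 0) (P 1) (P 2) g m hg (hPdeg 0) (hPdeg 1) (hPdeg 2)
  -- the second coordinates are roots
  have hroot : ∀ p ∈ S, ((p.2 : ℚ)) ∈ (nrm (P 0) (P 1) (P 2) g).roots.toFinset := by
    intro p hp
    obtain ⟨e1, e2⟩ := hS p hp
    rw [Multiset.mem_toFinset, mem_roots hN, IsRoot.def]
    have hgz : g.eval (p.2 : ℚ) = (p.1 : ℚ) ^ 3 := by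
      have e1q : (U : ℚ) * (p.1 : ℚ) ^ 3 = A * (p.2 : ℚ) ^ 4 + B := by exact_mod_cast e1
      rw [hgdef]
      simp only [eval_add, eval_mul, eval_C, eval_pow, eval_X]
      field_simp
      linarith
    have hlin : (P 0).eval (p.2 : ℚ) + (P 1).eval (p.2 : ℚ) * p.1 +
        (P 2).eval (p.2 : ℚ) * (p.1 : ℚ) ^ 2 = 0 := by
      rw [← e2, Finset.sum_comm, Fin.sum_univ_three]
      simp only [hP, eval_finsetSum, eval_mul, eval_C, eval_pow, eval_X]
      congr 1
      · congr 1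
        · apply Finset.sum_congr rfl
          intro α _
          simp
        · rw [Finset.sum_mul]
          apply Finset.sum_congr rfl
          intro α _
          simp
      · rw [Finset.sum_mul]
        apply Finset.sum_congr rfl
        intro α _
        simp
    unfold nrm
    simp only [eval_add, eval_sub, eval_mul, eval_pow, hgz, eval_ofNat]
    set p0 := (P 0).eval (p.2 : ℚ)
    set p1 := (P 1).eval (p.2 : ℚ)
    set p2 := (P 2).eval (p.2 : ℚ)
    have hfac : p0 ^ 3 * ((p.1 : ℚ) ^ 3) ^ 0 + p1 ^ 3 * ((p.1 : ℚ) ^ 3) ^ 1 +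
        p2 ^ 3 * ((p.1 : ℚ) ^ 3) ^ 2 - 3 * p0 * p1 * p2 * (p.1 : ℚ) ^ 3 =
        (p0 + p1 * p.1 + p2 * (p.1 : ℚ) ^ 2) *
        (p0 ^ 2 + p1 ^ 2 * (p.1 : ℚ) ^ 2 + p2 ^ 2 * (p.1 : ℚ) ^ 4 - p0 * p1 * p.1
          - p0 * p2 * (p.1 : ℚ) ^ 2 - p1 * p2 * (p.1 : ℚ) ^ 3) := by ring
    rw [hfac, hlin, zero_mul]
  have hinj : Set.InjOn (fun p : ℤ × ℤ => ((p.2 : ℚ))) (S : Set (ℤ × ℤ)) := by
    intro p hp q hq hpq
    have h2 : p.2 = q.2 := by
      have : ((p.2 : ℚ)) = ((q.2 : ℚ)) := hpq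
      exact_mod_cast this
    have e1 := (hS p hp).1
    have e2 := (hS q hq).1
    rw [h2] at e1
    have h3 : U * p.1 ^ 3 = U * q.1 ^ 3 := by rw [e1, e2]
    have h4 : p.1 ^ 3 = q.1 ^ 3 := mul_left_cancel₀ hU h3
    have h5 : p.1 = q.1 := (Odd.strictMono_pow (by decide : Odd 3)).injective h4
    exact Prod.ext h5 h2
  calc S.card = (S.image (fun p : ℤ × ℤ => ((p.2 : ℚ)))).card :=
        (Finset.card_image_of_injOn hinj).symm
    _ ≤ (nrm (P 0) (P 1) (P 2) g).roots.toFinset.card := by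
        apply Finset.card_le_card
        intro z hz
        obtain ⟨p, hp, rfl⟩ := Finset.mem_image.mp hz
        exact hroot p hp
    _ ≤ Multiset.card (nrm (P 0) (P 1) (P 2) g).roots := Multiset.toFinset_card_le _
    _ ≤ (nrm (P 0) (P 1) (P 2) g).natDegree := card_roots' _
    _ ≤ 3 * m + 8 := hNd

end Pool.Agent.H328R2.ABC
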