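import Pool.Agent.H328R2.ABC.Defs

/-! Task H2: `p`-adic expansion of `x` as a polynomial in `z` on the curve `U x^3 = A z^4 + B`. -/

namespace Pool.Agent.H328R2.ABC

open Finset Polynomial

theorem hensel (p : ℕ) (hp : p.Prime) (U A B z0 x0 : ℤ) (h : ¬ (p : ℤ) ∣ 3 * U * x0) (N : ℕ) :
    ∃ Φ : Polynomial ℤ, ∀ z x : ℤ, (p : ℤ) ∣ z - z0 → (p : ℤ) ∣ x - x0 →
      U * x ^ 3 = A * z ^ 4 + B → (p : ℤ) ^ N ∣ x - Φ.eval z := by
  have hpp : Prime (p : ℤ) := Nat.prime_iff_prime_int.1 hp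
  have h2 : ¬ (p : ℤ) ∣ 3 * U * x0 ^ 2 := by
    intro h3
    have h4 : (p : ℤ) ∣ (3 * U * x0) * x0 := by
      have : 3 * U * x0 ^ 2 = (3 * U * x0) * x0 := by ring
      rwa [this] at h3
    rcases hpp.dvd_or_dvd h4 with h5 | h5
    · exact h h5
    · exact h (h5.mul_left _)
  obtain ⟨a, w, hw⟩ := (hpp.coprime_iff_not_dvd.2 h2)
  have hw' : (p : ℤ) ∣ 1 - 3 * U * x0 ^ 2 * w := ⟨a, by linarith⟩
  -- induction from `N = 1`
  have key : ∀ n : ℕ, ∃ Φ : Polynomial ℤ, ∀ z x : ℤ, (p : ℤ) ∣ z - z0 → (p : ℤ) ∣ x - x0 →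
      U * x ^ 3 = A * z ^ 4 + B → (p : ℤ) ^ (n + 1) ∣ x - Φ.eval z := by
    intro n
    induction n with
    | zero =>
      refine ⟨C x0, ?_⟩
      intro z x _ hx _
      simpa using hx
    | succ n ih =>
      obtain ⟨Φ, hΦ⟩ := ih
      refine ⟨Φ - C w * (C U * Φ ^ 3 - (C A * X ^ 4 + C B)), ?_⟩
      intro z x hz hx hc
      have h1 := hΦ z x hz hx hc
      simp only [eval_sub, eval_mul, eval_C, eval_pow, eval_add, eval_X]
      set f := Φ.eval z with hf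
      obtain ⟨k, hk⟩ := h1
      have hid : x - (f - w * (U * f ^ 3 - (A * z ^ 4 + B))) =
          (x - f) * (1 - 3 * U * x0 ^ 2 * w) + (x - f) * (x - x0) * (-3 * w * U * (x + x0)) +
            (x - f) ^ 2 * (w * U * (3 * x - (x - f))) := by
        rw [← hc]; ring
      rw [hid]
      obtain ⟨q1, hq1⟩ := hw'
      obtain ⟨q2, hq2⟩ := hx
      have hd1 : (p : ℤ) ^ (n + 1 + 1) ∣ (x - f) * (1 - 3 * U * x0 ^ 2 * w) := by
        rw [hk, hq1]
        exact ⟨k * q1, by ring⟩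
      have hd2 : (p : ℤ) ^ (n + 1 + 1) ∣ (x - f) * (x - x0) * (-3 * w * U * (x + x0)) := by
        rw [hk, hq2]
        exact ⟨k * q2 * (-3 * w * U * (x + x0)), by ring⟩
      have hd3 : (p : ℤ) ^ (n + 1 + 1) ∣ (x - f) ^ 2 * (w * U * (3 * x - (x - f))) := by
        apply Dvd.dvd.mul_right
        rw [hk]
        exact ⟨(p : ℤ) ^ n * k ^ 2, by ring⟩
      exact dvd_add (dvd_add hd1 hd2) hd3
  cases N with
  | zero => exact ⟨0, fun z x _ _ _ => by simp⟩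
  | succ n => exact key n

end Pool.Agent.H328R2.ABC
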