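import Pool.Agent.H328R2.ABC.LPFull
import Pool.Agent.H328R2.ABC.Parts

/-!
# Every exceptional triple is counted by one of the bounds
-/

namespace Pool.Agent.H328R2.ABC

open Finset

theorem part_All {n : ℕ} (hn : n ≠ 0) : part All n = n := by
  have h := part_compl ∅ hn
  have h1 : part ∅ n = 1 := by simp [part]
  rw [h1, mul_one, sdiff_empty] at h
  exact h

theorem side_pos {a b : ℕ} (ha : 0 < a) (hb : 0 < b) (r : Fin 3) : 0 < side a b r := by
  fin_cases r
  · exact ha
  · exact hb
  · show 0 < a + b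
    omega

theorem side_le {a b : ℕ} (r : Fin 3) : side a b r ≤ a + b := by
  fin_cases r
  · show a ≤ a + b
    omega
  · show b ≤ a + b
    omega
  · exact le_refl _

/-- the weights of a triple -/
noncomputable def wt (a b : ℕ) (r : Fin 3) (i : ℕ) : ℝ :=
  Real.log (rpart {i} (side a b r)) / Real.log ((a + b : ℕ) : ℝ)

/-- the size of the class five part -/
noncomputable def st (a b : ℕ) (r : Fin 3) : ℝ :=
  Real.log (part {5} (side a b r)) / Real.log ((a + b : ℕ) : ℝ)

theorem RW_wt (a b : ℕ) {S : Finset ℕ} (hS : S ⊆ All) (r : Fin 3) :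
    RW (wt a b) S r = Real.log (rpart S (side a b r)) / Real.log ((a + b : ℕ) : ℝ) := by
  rw [rpart_prod hS, Nat.cast_prod, Real.log_prod
    (fun i _ => by exact_mod_cast (rpart_pos {i} (side a b r)).ne'), sum_div]
  rfl

theorem SZ_wt (a b : ℕ) {S : Finset ℕ} (hS : S ⊆ All) (r : Fin 3) :
    SZ (wt a b) (st a b) S r =
      Real.log (part S (side a b r)) / Real.log ((a + b : ℕ) : ℝ) := by
  rw [part_prod hS, Nat.cast_prod, Real.log_prod
    (fun i _ => by exact_mod_cast (part_pos {i} (side a b r)).ne'), sum_div]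
  unfold SZ
  refine sum_congr rfl (fun i hi => ?_)
  by_cases h5 : i = 5
  · subst h5
    simp [st]
  · have hi' := hS hi
    have h14 : 1 ≤ i ∧ i ≤ 4 := by
      simp only [All, mem_insert, mem_singleton] at hi'
      omega
    rw [if_neg h5, part_single h14.1 h14.2, Nat.cast_pow, Real.log_pow, wt]
    ring

theorem key (μ σ θ : ℝ) (hμ : 0 ≤ μ) (hσ : 0 ≤ σ) (hθ : θ = 3 / 5 + μ + σ)
    (a b : ℕ) (ha : 0 < a) (hab : a ≤ b) (hcop : Nat.Coprime a b)
    (hlog : Real.log 2 ≤ σ * Real.log ((a + b : ℕ) : ℝ))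
    (hrad : (rad (a * b * (a + b)) : ℝ) ≤ (((a + b : ℕ) : ℝ)) ^ (1 + μ)) :
    (∃ r, condT r (((a + b : ℕ) : ℝ) ^ θ) a b) ∨
    (∃ r q k : Fin 3, r ≠ q ∧ r ≠ k ∧ q ≠ k ∧ condD r q k (((a + b : ℕ) : ℝ) ^ θ) a b) ∨
    (∃ (r : Fin 3) (d : ℕ) (J K I : Finset ℕ), 1 ≤ d ∧ d ≤ 4 ∧ ok J d ∧ ok K d ∧ I ⊆ All ∧
      condL r d J K I (((a + b : ℕ) : ℝ) ^ θ) a b) := by
  by_contra hcon
  push Not at hcon
  obtain ⟨hT, hD, hL⟩ := hcon
  have hb : 0 < b := lt_of_lt_of_le ha hab
  have hc2 : 2 ≤ a + b := by omega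
  set c : ℝ := ((a + b : ℕ) : ℝ) with hcdef
  have hc2' : (2 : ℝ) ≤ c := by rw [hcdef]; exact_mod_cast hc2
  have hc0 : 0 < c := by linarith
  have hl : 0 < Real.log c := Real.log_pos (by linarith)
  set l := Real.log c with hldef
  have hsp := fun r => side_pos ha hb r
  have hrp : ∀ S r, (0 : ℝ) < rpart S (side a b r) := fun S r => by
    exact_mod_cast rpart_pos S _
  have hpp : ∀ S r, (0 : ℝ) < part S (side a b r) := fun S r => by
    exact_mod_cast part_pos S _
  have hradp : ∀ r, (0 : ℝ) < rad (side a b r) := fun r => by exact_mod_cast rad_pos _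
  have hradRW : ∀ r, RW (wt a b) All r = Real.log (rad (side a b r)) / l := fun r => by
    rw [RW_wt a b (Subset.refl _), rad_eq_rpart_All (hsp r).ne']
  have hszAll : ∀ r, SZ (wt a b) (st a b) All r = Real.log (side a b r : ℝ) / l := fun r => by
    rw [SZ_wt a b (Subset.refl _), part_All (hsp r).ne']
  have hlogQ : Real.log (c ^ θ) = θ * l := Real.log_rpow hc0 θ
  have hQ0 : 0 < c ^ θ := Real.rpow_pos_of_pos hc0 θ
  refine lp_full (wt a b) (st a b) μ σ θ hμ hσ hθ ?_ ?_ ?_ ?_ ?_ ?_ ?_ ?_ ?_ ?_
  · intro r i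
    exact div_nonneg (Real.log_nonneg (by exact_mod_cast rpart_pos {i} (side a b r))) hl.le
  · intro r
    exact div_nonneg (Real.log_nonneg (by exact_mod_cast part_pos {5} (side a b r))) hl.le
  · rw [hradRW, hradRW, hradRW, ← add_div, ← add_div, div_le_iff₀ hl,
      ← Real.log_mul (hradp 0).ne' (hradp 1).ne',
      ← Real.log_mul (mul_pos (hradp 0) (hradp 1)).ne' (hradp 2).ne']
    have h1 : ((rad (side a b 0) : ℝ) * rad (side a b 1) * rad (side a b 2)) =
        (rad (a * b * (a + b)) : ℝ) := by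
      rw [rad_abc hcop]
      push_cast
      rfl
    rw [h1, hldef, ← Real.log_rpow hc0]
    exact Real.log_le_log (by exact_mod_cast rad_pos _) hrad
  · intro r
    rw [hszAll, div_le_one hl]
    exact Real.log_le_log (by exact_mod_cast hsp r) (Nat.cast_le.mpr (side_le r))
  · rw [hszAll, le_div_iff₀ hl]
    have h1 : c / 2 ≤ (side a b 1 : ℝ) := by
      have : (a : ℝ) ≤ b := by exact_mod_cast hab
      show c / 2 ≤ (b : ℝ)
      rw [hcdef]; push_cast; linarith
    have h2 := Real.log_le_log (by linarith : (0 : ℝ) < c / 2) h1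
    rw [Real.log_div hc0.ne' (by norm_num)] at h2
    nlinarith
  · rw [hszAll]
    have h1 : (side a b 2 : ℝ) = c := rfl
    rw [h1, div_self hl.ne']
    linarith
  · intro r
    have h1 : (rpart {5} (side a b r) : ℝ) ^ 5 ≤ part {5} (side a b r) := by
      exact_mod_cast rpart_five (side a b r)
    have h2 := Real.log_le_log (by positivity [hrp {5} r] : (0 : ℝ) < _) h1
    rw [Real.log_pow] at h2
    have h3 : wt a b r 5 = Real.log (rpart {5} (side a b r)) / l := rfl
    have h4 : st a b r = Real.log (part {5} (side a b r)) / l := rfl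
    rw [h3, h4, ← mul_div_assoc]
    exact div_le_div_of_nonneg_right (by exact_mod_cast h2) hl.le
  · intro r
    have h := hT r
    unfold condT at h
    push Not at h
    have h2 := Real.log_lt_log hQ0 h
    rw [hlogQ, Nat.cast_mul, Real.log_mul (hradp _).ne' (hradp _).ne'] at h2
    rw [hradRW, hradRW, ← add_div, lt_div_iff₀ hl]
    exact h2
  · intro r q k h1 h2 h3
    have h := hD r q k h1 h2 h3
    unfold condD at h
    push Not at h
    have h4 := Real.log_lt_log hQ0 h
    have hz : (0 : ℝ) < (rpart {4} (side a b q) : ℝ) ^ ((1 : ℝ) / 3) :=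
      Real.rpow_pos_of_pos (hrp _ _) _
    rw [hlogQ, Nat.cast_mul, Nat.cast_mul,
      Real.log_mul (mul_pos (mul_pos (hrp _ _) (hrp _ _)) (hradp _)).ne' hz.ne',
      Real.log_mul (mul_pos (hrp _ _) (hrp _ _)).ne' (hradp _).ne',
      Real.log_mul (hrp _ _).ne' (hrp _ _).ne', Real.log_rpow (hrp _ _)] at h4
    rw [RW_wt a b sdiff_subset, RW_wt a b sdiff_subset, hradRW]
    have h5 : wt a b q 4 = Real.log (rpart {4} (side a b q)) / l := rfl
    rw [h5, ← add_div, ← add_div, div_right_comm, ← add_div, lt_div_iff₀ hl]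
    linarith
  · intro r d J K I hd hd4 hJ hK hI
    have h := hL r d J K I hd hd4 hJ hK hI
    unfold condL at h
    rw [not_and_or, not_le, not_le] at h
    have hPL : Real.log (PL J K I a b r : ℝ) =
        Real.log (rpart (All \ J) (side a b (r + 1))) +
        Real.log (rpart (All \ K) (side a b (r + 2))) + Real.log (rpart I (side a b r)) := by
      unfold PL
      rw [Nat.cast_mul, Nat.cast_mul,
        Real.log_mul (mul_pos (hrp _ _) (hrp _ _)).ne' (hrp _ _).ne',
        Real.log_mul (hrp _ _).ne' (hrp _ _).ne']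
    have hL1 : L1 (wt a b) r J K I = Real.log (PL J K I a b r : ℝ) / l := by
      unfold L1
      rw [RW_wt a b sdiff_subset, RW_wt a b sdiff_subset, RW_wt a b hI, hPL]
      ring
    have hPLpos : (0 : ℝ) < (PL J K I a b r : ℝ) := by
      unfold PL
      push_cast
      exact mul_pos (mul_pos (hrp _ _) (hrp _ _)) (hrp _ _)
    rcases h with h | h
    · left
      have h2 := Real.log_lt_log hQ0 h
      rw [hlogQ] at h2
      rw [hL1, lt_div_iff₀ hl]
      exact h2
    · right
      have hd0 : (0 : ℝ) < d := by exact_mod_cast hd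
      have hpp2 : (0 : ℝ) < ((part J (side a b (r + 1)) * part K (side a b (r + 2)) : ℕ) : ℝ) := by
        push_cast
        exact mul_pos (hpp _ _) (hpp _ _)
      have hkap : 0 < kap a b r := by
        unfold kap
        split_ifs
        · have : (0 : ℝ) < a := by exact_mod_cast ha
          positivity
        · norm_num
      have h2 := Real.log_lt_log (mul_pos hQ0 (hpp _ _)) h
      rw [Real.log_mul hQ0.ne' (hpp _ _).ne', hlogQ,
        Real.log_mul (mul_pos hPLpos (Real.rpow_pos_of_pos hpp2 _)).ne' hkap.ne',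
        Real.log_mul hPLpos.ne' (Real.rpow_pos_of_pos hpp2 _).ne',
        Real.log_rpow hpp2, Nat.cast_mul, Real.log_mul (hpp _ _).ne' (hpp _ _).ne'] at h2
      have hlk : Real.log (kap a b r) / l = (if r = 0 then SZ (wt a b) (st a b) All 0 - 1 else 0) := by
        unfold kap
        split_ifs with h0
        · rw [Real.log_div (by exact_mod_cast ha.ne') (by positivity), hszAll]
          have h1 : (side a b 0 : ℝ) = a := rfl
          rw [h1, sub_div]
          congr 1
          exact div_self hl.ne'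
        · simp
      unfold L2
      rw [hL1, SZ_wt a b hJ.1, SZ_wt a b hK.1, SZ_wt a b hI, ← hlk]
      rw [← add_div, div_right_comm, ← add_div, ← sub_div, ← add_div, lt_div_iff₀ hl]
      have h3 : (1 : ℝ) / d * (Real.log (part J (side a b (r + 1))) +
          Real.log (part K (side a b (r + 2)))) = (Real.log (part J (side a b (r + 1))) +
          Real.log (part K (side a b (r + 2)))) / d := by ring
      rw [h3] at h2
      linarith

end Pool.Agent.H328R2.ABC
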