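import Pool.Agent.H328R2.ABC.Defs

/-!
# The linear programme behind the exponent `3/5`

`w r i` is the logarithm (base `c`) of the radical of the part of class `i` of side `r`, `s r` the
logarithm of the part of class 5.  The certificate was found by branch and bound (44 leaves, exact).
-/

namespace Pool.Agent.H328R2.ABC

open Finset

/-- total radical weight of the classes in `S` on side `r` -/
noncomputable def RW (w : Fin 3 → ℕ → ℝ) (S : Finset ℕ) (r : Fin 3) : ℝ := ∑ i ∈ S, w r i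

/-- total size of the classes in `S` on side `r` -/
noncomputable def SZ (w : Fin 3 → ℕ → ℝ) (s : Fin 3 → ℝ) (S : Finset ℕ) (r : Fin 3) : ℝ :=
  ∑ i ∈ S, (if i = 5 then s r else (i : ℝ) * w r i)

/-- first linear form of the lattice bound -/
noncomputable def L1 (w : Fin 3 → ℕ → ℝ) (r : Fin 3) (J K I : Finset ℕ) : ℝ :=
  RW w (All \ J) (r + 1) + RW w (All \ K) (r + 2) + RW w I r

/-- second linear form of the lattice bound -/
noncomputable def L2 (w : Fin 3 → ℕ → ℝ) (s : Fin 3 → ℝ) (r : Fin 3) (d : ℕ) (J K I : Finset ℕ) :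
    ℝ :=
  L1 w r J K I + (SZ w s J (r + 1) + SZ w s K (r + 2)) / d - SZ w s I r +
    (if r = 0 then SZ w s All 0 - 1 else 0)

theorem L1_0 (w : Fin 3 → ℕ → ℝ) (J K I : Finset ℕ) :
    L1 w 0 J K I = RW w (All \ J) 1 + RW w (All \ K) 2 + RW w I 0 := rfl
theorem L1_1 (w : Fin 3 → ℕ → ℝ) (J K I : Finset ℕ) :
    L1 w 1 J K I = RW w (All \ J) 2 + RW w (All \ K) 0 + RW w I 1 := rfl
theorem L1_2 (w : Fin 3 → ℕ → ℝ) (J K I : Finset ℕ) :
    L1 w 2 J K I = RW w (All \ J) 0 + RW w (All \ K) 1 + RW w I 2 := rfl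
theorem L2_0 (w : Fin 3 → ℕ → ℝ) (s : Fin 3 → ℝ) (d : ℕ) (J K I : Finset ℕ) :
    L2 w s 0 d J K I = RW w (All \ J) 1 + RW w (All \ K) 2 + RW w I 0 +
      (SZ w s J 1 + SZ w s K 2) / d - SZ w s I 0 + (SZ w s All 0 - 1) := rfl
theorem L2_1 (w : Fin 3 → ℕ → ℝ) (s : Fin 3 → ℝ) (d : ℕ) (J K I : Finset ℕ) :
    L2 w s 1 d J K I = RW w (All \ J) 2 + RW w (All \ K) 0 + RW w I 1 +
      (SZ w s J 2 + SZ w s K 0) / d - SZ w s I 1 + 0 := rfl
theorem L2_2 (w : Fin 3 → ℕ → ℝ) (s : Fin 3 → ℝ) (d : ℕ) (J K I : Finset ℕ) :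
    L2 w s 2 d J K I = RW w (All \ J) 0 + RW w (All \ K) 1 + RW w I 2 +
      (SZ w s J 0 + SZ w s K 1) / d - SZ w s I 2 + 0 := rfl

theorem cm0 : All \ (∅ : Finset ℕ) = {1, 2, 3, 4, 5} := by decide
theorem cm1 : All \ ({1} : Finset ℕ) = {2, 3, 4, 5} := by decide
theorem cm2 : All \ ({2} : Finset ℕ) = {1, 3, 4, 5} := by decide
theorem cm3 : All \ ({1, 2} : Finset ℕ) = {3, 4, 5} := by decide
theorem cm4 : All \ ({3} : Finset ℕ) = {1, 2, 4, 5} := by decide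
theorem cm5 : All \ ({1, 3} : Finset ℕ) = {2, 4, 5} := by decide
theorem cm7 : All \ ({1, 2, 3} : Finset ℕ) = {4, 5} := by decide
theorem cm8 : All \ ({4} : Finset ℕ) = {1, 2, 3, 5} := by decide
theorem cm10 : All \ ({2, 4} : Finset ℕ) = {1, 3, 5} := by decide
theorem cm18 : All \ ({2, 5} : Finset ℕ) = {1, 3, 4} := by decide
theorem cm23 : All \ ({1, 2, 3, 5} : Finset ℕ) = {4} := by decide
theorem cm31 : All \ ({1, 2, 3, 4, 5} : Finset ℕ) = ∅ := by decide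
theorem rw0 (w : Fin 3 → ℕ → ℝ) (r : Fin 3) :
    RW w ∅ r = 0 := by
  simp [RW]
theorem rw5 (w : Fin 3 → ℕ → ℝ) (r : Fin 3) :
    RW w {1, 3} r = w r 1 + w r 3 := by
  simp [RW]
theorem rw8 (w : Fin 3 → ℕ → ℝ) (r : Fin 3) :
    RW w {4} r = w r 4 := by
  simp [RW]
theorem rw12 (w : Fin 3 → ℕ → ℝ) (r : Fin 3) :
    RW w {3, 4} r = w r 3 + w r 4 := by
  simp [RW]
theorem rw13 (w : Fin 3 → ℕ → ℝ) (r : Fin 3) :
    RW w {1, 3, 4} r = w r 1 + w r 3 + w r 4 := by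
  simp [RW]
  ring
theorem rw16 (w : Fin 3 → ℕ → ℝ) (r : Fin 3) :
    RW w {5} r = w r 5 := by
  simp [RW]
theorem rw20 (w : Fin 3 → ℕ → ℝ) (r : Fin 3) :
    RW w {3, 5} r = w r 3 + w r 5 := by
  simp [RW]
theorem rw21 (w : Fin 3 → ℕ → ℝ) (r : Fin 3) :
    RW w {1, 3, 5} r = w r 1 + w r 3 + w r 5 := by
  simp [RW]
  ring
theorem rw22 (w : Fin 3 → ℕ → ℝ) (r : Fin 3) :
    RW w {2, 3, 5} r = w r 2 + w r 3 + w r 5 := by
  simp [RW]
  ring
theorem rw23 (w : Fin 3 → ℕ → ℝ) (r : Fin 3) :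
    RW w {1, 2, 3, 5} r = w r 1 + w r 2 + w r 3 + w r 5 := by
  simp [RW]
  ring
theorem rw24 (w : Fin 3 → ℕ → ℝ) (r : Fin 3) :
    RW w {4, 5} r = w r 4 + w r 5 := by
  simp [RW]
theorem rw26 (w : Fin 3 → ℕ → ℝ) (r : Fin 3) :
    RW w {2, 4, 5} r = w r 2 + w r 4 + w r 5 := by
  simp [RW]
  ring
theorem rw27 (w : Fin 3 → ℕ → ℝ) (r : Fin 3) :
    RW w {1, 2, 4, 5} r = w r 1 + w r 2 + w r 4 + w r 5 := by
  simp [RW]
  ring
theorem rw28 (w : Fin 3 → ℕ → ℝ) (r : Fin 3) :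
    RW w {3, 4, 5} r = w r 3 + w r 4 + w r 5 := by
  simp [RW]
  ring
theorem rw29 (w : Fin 3 → ℕ → ℝ) (r : Fin 3) :
    RW w {1, 3, 4, 5} r = w r 1 + w r 3 + w r 4 + w r 5 := by
  simp [RW]
  ring
theorem rw30 (w : Fin 3 → ℕ → ℝ) (r : Fin 3) :
    RW w {2, 3, 4, 5} r = w r 2 + w r 3 + w r 4 + w r 5 := by
  simp [RW]
  ring
theorem rw31 (w : Fin 3 → ℕ → ℝ) (r : Fin 3) :
    RW w All r = w r 1 + w r 2 + w r 3 + w r 4 + w r 5 := by
  simp [RW, All]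
  ring
theorem sz0 (w : Fin 3 → ℕ → ℝ) (s : Fin 3 → ℝ) (r : Fin 3) :
    SZ w s ∅ r = 0 := by
  simp [SZ]
theorem sz1 (w : Fin 3 → ℕ → ℝ) (s : Fin 3 → ℝ) (r : Fin 3) :
    SZ w s {1} r = 1 * w r 1 := by
  simp [SZ]
theorem sz2 (w : Fin 3 → ℕ → ℝ) (s : Fin 3 → ℝ) (r : Fin 3) :
    SZ w s {2} r = 2 * w r 2 := by
  simp [SZ]
theorem sz3 (w : Fin 3 → ℕ → ℝ) (s : Fin 3 → ℝ) (r : Fin 3) :
    SZ w s {1, 2} r = 1 * w r 1 + 2 * w r 2 := by
  simp [SZ]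
theorem sz4 (w : Fin 3 → ℕ → ℝ) (s : Fin 3 → ℝ) (r : Fin 3) :
    SZ w s {3} r = 3 * w r 3 := by
  simp [SZ]
theorem sz5 (w : Fin 3 → ℕ → ℝ) (s : Fin 3 → ℝ) (r : Fin 3) :
    SZ w s {1, 3} r = 1 * w r 1 + 3 * w r 3 := by
  simp [SZ]
theorem sz7 (w : Fin 3 → ℕ → ℝ) (s : Fin 3 → ℝ) (r : Fin 3) :
    SZ w s {1, 2, 3} r = 1 * w r 1 + 2 * w r 2 + 3 * w r 3 := by
  simp [SZ]
  ring
theorem sz8 (w : Fin 3 → ℕ → ℝ) (s : Fin 3 → ℝ) (r : Fin 3) :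
    SZ w s {4} r = 4 * w r 4 := by
  simp [SZ]
theorem sz10 (w : Fin 3 → ℕ → ℝ) (s : Fin 3 → ℝ) (r : Fin 3) :
    SZ w s {2, 4} r = 2 * w r 2 + 4 * w r 4 := by
  simp [SZ]
theorem sz12 (w : Fin 3 → ℕ → ℝ) (s : Fin 3 → ℝ) (r : Fin 3) :
    SZ w s {3, 4} r = 3 * w r 3 + 4 * w r 4 := by
  simp [SZ]
theorem sz16 (w : Fin 3 → ℕ → ℝ) (s : Fin 3 → ℝ) (r : Fin 3) :
    SZ w s {5} r = s r := by
  simp [SZ]
theorem sz18 (w : Fin 3 → ℕ → ℝ) (s : Fin 3 → ℝ) (r : Fin 3) :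
    SZ w s {2, 5} r = 2 * w r 2 + s r := by
  simp [SZ]
theorem sz20 (w : Fin 3 → ℕ → ℝ) (s : Fin 3 → ℝ) (r : Fin 3) :
    SZ w s {3, 5} r = 3 * w r 3 + s r := by
  simp [SZ]
theorem sz22 (w : Fin 3 → ℕ → ℝ) (s : Fin 3 → ℝ) (r : Fin 3) :
    SZ w s {2, 3, 5} r = 2 * w r 2 + 3 * w r 3 + s r := by
  simp [SZ]
  ring
theorem sz23 (w : Fin 3 → ℕ → ℝ) (s : Fin 3 → ℝ) (r : Fin 3) :
    SZ w s {1, 2, 3, 5} r = 1 * w r 1 + 2 * w r 2 + 3 * w r 3 + s r := by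
  simp [SZ]
  ring
theorem sz24 (w : Fin 3 → ℕ → ℝ) (s : Fin 3 → ℝ) (r : Fin 3) :
    SZ w s {4, 5} r = 4 * w r 4 + s r := by
  simp [SZ]
theorem sz26 (w : Fin 3 → ℕ → ℝ) (s : Fin 3 → ℝ) (r : Fin 3) :
    SZ w s {2, 4, 5} r = 2 * w r 2 + 4 * w r 4 + s r := by
  simp [SZ]
  ring
theorem sz28 (w : Fin 3 → ℕ → ℝ) (s : Fin 3 → ℝ) (r : Fin 3) :
    SZ w s {3, 4, 5} r = 3 * w r 3 + 4 * w r 4 + s r := by
  simp [SZ]
  ring
theorem sz30 (w : Fin 3 → ℕ → ℝ) (s : Fin 3 → ℝ) (r : Fin 3) :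
    SZ w s {2, 3, 4, 5} r = 2 * w r 2 + 3 * w r 3 + 4 * w r 4 + s r := by
  simp [SZ]
  ring
theorem sz31 (w : Fin 3 → ℕ → ℝ) (s : Fin 3 → ℝ) (r : Fin 3) :
    SZ w s All r = 1 * w r 1 + 2 * w r 2 + 3 * w r 3 + 4 * w r 4 + s r := by
  simp [SZ, All]
  ring
theorem cmA : All \ All = (∅ : Finset ℕ) := by decide
theorem all_eq : ({1, 2, 3, 4, 5} : Finset ℕ) = All := rfl

theorem node1 (w : Fin 3 → ℕ → ℝ) (s : Fin 3 → ℝ) (θ : ℝ)
    (h : θ < L1 w 0 {4} {4} {2, 3, 4, 5} ∨ θ < L2 w s 0 4 {4} {4} {2, 3, 4, 5}) :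
    θ < w 0 2 + w 0 3 + w 0 4 + w 0 5 + w 1 1 + w 1 2 + w 1 3 + w 1 5 + w 2 1 + w 2 2 + w 2 3 + w 2 5 ∨
      4 * θ < 4 * w 0 1 + 4 * w 0 2 + 4 * w 0 3 + 4 * w 0 4 + 4 * w 0 5 + 4 * w 1 1 + 4 * w 1 2 + 4 * w 1 3 + 4 * w 1 4 + 4 * w 1 5 + 4 * w 2 1 + 4 * w 2 2 + 4 * w 2 3 + 4 * w 2 4 + 4 * w 2 5 - 4 := by
  rcases h with h | h
  · left
    simp only [all_eq, L1_0, cm8, rw23, rw30] at h
    linarith only [h]
  · right
    simp only [all_eq, L2_0, cm8, rw23, rw30, sz30, sz31, sz8, Nat.cast_ofNat, Nat.cast_one] at h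
    linarith only [h]

theorem node2 (w : Fin 3 → ℕ → ℝ) (s : Fin 3 → ℝ) (θ : ℝ)
    (h : θ < L1 w 2 {1, 2, 3, 4, 5} {2, 5} {4} ∨ θ < L2 w s 2 1 {1, 2, 3, 4, 5} {2, 5} {4}) :
    θ < w 1 1 + w 1 3 + w 1 4 + w 2 4 ∨
      θ < w 0 1 + 2 * w 0 2 + 3 * w 0 3 + 4 * w 0 4 + s 0 + w 1 1 + 2 * w 1 2 + w 1 3 + w 1 4 + s 1 - 3 * w 2 4 := by
  rcases h with h | h
  · left
    simp only [all_eq, L1_2, cm18, cmA, rw0, rw13, rw8] at h
    linarith only [h]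
  · right
    simp only [all_eq, L2_2, cm18, cmA, rw0, rw13, rw8, sz18, sz31, sz8, Nat.cast_ofNat, Nat.cast_one] at h
    linarith only [h]

theorem node3 (w : Fin 3 → ℕ → ℝ) (s : Fin 3 → ℝ) (θ : ℝ)
    (h : θ < L1 w 1 {4} {2, 4} {1, 2, 3, 4, 5} ∨ θ < L2 w s 1 2 {4} {2, 4} {1, 2, 3, 4, 5}) :
    θ < w 0 1 + w 0 3 + w 0 5 + w 1 1 + w 1 2 + w 1 3 + w 1 4 + w 1 5 + w 2 1 + w 2 2 + w 2 3 + w 2 5 ∨
      2 * θ < 2 * w 0 1 + 2 * w 0 2 + 2 * w 0 3 + 4 * w 0 4 + 2 * w 0 5 - 2 * w 1 2 - 4 * w 1 3 - 6 * w 1 4 + 2 * w 1 5 - 2 * s 1 + 2 * w 2 1 + 2 * w 2 2 + 2 * w 2 3 + 4 * w 2 4 + 2 * w 2 5 := by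
  rcases h with h | h
  · left
    simp only [all_eq, L1_1, cm10, cm8, rw21, rw23, rw31] at h
    linarith only [h]
  · right
    simp only [all_eq, L2_1, cm10, cm8, rw21, rw23, rw31, sz10, sz31, sz8, Nat.cast_ofNat, Nat.cast_one] at h
    linarith only [h]

theorem node4 (w : Fin 3 → ℕ → ℝ) (s : Fin 3 → ℝ) (θ : ℝ)
    (h : θ < L1 w 0 {3} {3} {3, 4, 5} ∨ θ < L2 w s 0 3 {3} {3} {3, 4, 5}) :
    θ < w 0 3 + w 0 4 + w 0 5 + w 1 1 + w 1 2 + w 1 4 + w 1 5 + w 2 1 + w 2 2 + w 2 4 + w 2 5 ∨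
      3 * θ < 3 * w 0 1 + 6 * w 0 2 + 3 * w 0 3 + 3 * w 0 4 + 3 * w 0 5 + 3 * w 1 1 + 3 * w 1 2 + 3 * w 1 3 + 3 * w 1 4 + 3 * w 1 5 + 3 * w 2 1 + 3 * w 2 2 + 3 * w 2 3 + 3 * w 2 4 + 3 * w 2 5 - 3 := by
  rcases h with h | h
  · left
    simp only [all_eq, L1_0, cm4, rw27, rw28] at h
    linarith only [h]
  · right
    simp only [all_eq, L2_0, cm4, rw27, rw28, sz28, sz31, sz4, Nat.cast_ofNat, Nat.cast_one] at h
    linarith only [h]

theorem node5 (w : Fin 3 → ℕ → ℝ) (s : Fin 3 → ℝ) (θ : ℝ)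
    (h : θ < L1 w 2 {3} {3} {3, 4, 5} ∨ θ < L2 w s 2 3 {3} {3} {3, 4, 5}) :
    θ < w 0 1 + w 0 2 + w 0 4 + w 0 5 + w 1 1 + w 1 2 + w 1 4 + w 1 5 + w 2 3 + w 2 4 + w 2 5 ∨
      3 * θ < 3 * w 0 1 + 3 * w 0 2 + 3 * w 0 3 + 3 * w 0 4 + 3 * w 0 5 + 3 * w 1 1 + 3 * w 1 2 + 3 * w 1 3 + 3 * w 1 4 + 3 * w 1 5 - 6 * w 2 3 - 9 * w 2 4 + 3 * w 2 5 - 3 * s 2 := by
  rcases h with h | h
  · left
    simp only [all_eq, L1_2, cm4, rw27, rw28] at h
    linarith only [h]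
  · right
    simp only [all_eq, L2_2, cm4, rw27, rw28, sz28, sz31, sz4, Nat.cast_ofNat, Nat.cast_one] at h
    linarith only [h]

theorem node6 (w : Fin 3 → ℕ → ℝ) (s : Fin 3 → ℝ) (θ : ℝ)
    (h : θ < L1 w 1 {2, 4} {2, 4} {2, 3, 4, 5} ∨ θ < L2 w s 1 2 {2, 4} {2, 4} {2, 3, 4, 5}) :
    θ < w 0 1 + w 0 3 + w 0 5 + w 1 2 + w 1 3 + w 1 4 + w 1 5 + w 2 1 + w 2 3 + w 2 5 ∨
      2 * θ < 2 * w 0 1 + 2 * w 0 2 + 2 * w 0 3 + 4 * w 0 4 + 2 * w 0 5 - 2 * w 1 2 - 4 * w 1 3 - 6 * w 1 4 + 2 * w 1 5 - 2 * s 1 + 2 * w 2 1 + 2 * w 2 2 + 2 * w 2 3 + 4 * w 2 4 + 2 * w 2 5 := by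
  rcases h with h | h
  · left
    simp only [all_eq, L1_1, cm10, rw21, rw30] at h
    linarith only [h]
  · right
    simp only [all_eq, L2_1, cm10, rw21, rw30, sz10, sz30, sz31, Nat.cast_ofNat, Nat.cast_one] at h
    linarith only [h]

theorem node7 (w : Fin 3 → ℕ → ℝ) (s : Fin 3 → ℝ) (θ : ℝ)
    (h : θ < L1 w 0 {2} {4} {3, 4, 5} ∨ θ < L2 w s 0 2 {2} {4} {3, 4, 5}) :
    θ < w 0 3 + w 0 4 + w 0 5 + w 1 1 + w 1 3 + w 1 4 + w 1 5 + w 2 1 + w 2 2 + w 2 3 + w 2 5 ∨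
      2 * θ < 2 * w 0 1 + 4 * w 0 2 + 2 * w 0 3 + 2 * w 0 4 + 2 * w 0 5 + 2 * w 1 1 + 2 * w 1 2 + 2 * w 1 3 + 2 * w 1 4 + 2 * w 1 5 + 2 * w 2 1 + 2 * w 2 2 + 2 * w 2 3 + 4 * w 2 4 + 2 * w 2 5 - 2 := by
  rcases h with h | h
  · left
    simp only [all_eq, L1_0, cm2, cm8, rw23, rw28, rw29] at h
    linarith only [h]
  · right
    simp only [all_eq, L2_0, cm2, cm8, rw23, rw28, rw29, sz2, sz28, sz31, sz8, Nat.cast_ofNat, Nat.cast_one] at h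
    linarith only [h]

theorem node8 (w : Fin 3 → ℕ → ℝ) (s : Fin 3 → ℝ) (θ : ℝ)
    (h : θ < L1 w 1 {1, 2} {1, 2, 3, 4, 5} {3, 4} ∨ θ < L2 w s 1 1 {1, 2} {1, 2, 3, 4, 5} {3, 4}) :
    θ < w 1 3 + w 1 4 + w 2 3 + w 2 4 + w 2 5 ∨
      θ < w 0 1 + 2 * w 0 2 + 3 * w 0 3 + 4 * w 0 4 + s 0 - 2 * w 1 3 - 3 * w 1 4 + w 2 1 + 2 * w 2 2 + w 2 3 + w 2 4 + w 2 5 := by
  rcases h with h | h
  · left
    simp only [all_eq, L1_1, cm3, cmA, rw0, rw12, rw28] at h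
    linarith only [h]
  · right
    simp only [all_eq, L2_1, cm3, cmA, rw0, rw12, rw28, sz12, sz3, sz31, Nat.cast_ofNat, Nat.cast_one] at h
    linarith only [h]

theorem node9 (w : Fin 3 → ℕ → ℝ) (s : Fin 3 → ℝ) (θ : ℝ)
    (h : θ < L1 w 0 {2, 4} {4} {2, 3, 4, 5} ∨ θ < L2 w s 0 2 {2, 4} {4} {2, 3, 4, 5}) :
    θ < w 0 2 + w 0 3 + w 0 4 + w 0 5 + w 1 1 + w 1 3 + w 1 5 + w 2 1 + w 2 2 + w 2 3 + w 2 5 ∨
      2 * θ < 2 * w 0 1 + 2 * w 0 2 + 2 * w 0 3 + 2 * w 0 4 + 2 * w 0 5 + 2 * w 1 1 + 2 * w 1 2 + 2 * w 1 3 + 4 * w 1 4 + 2 * w 1 5 + 2 * w 2 1 + 2 * w 2 2 + 2 * w 2 3 + 4 * w 2 4 + 2 * w 2 5 - 2 := by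
  rcases h with h | h
  · left
    simp only [all_eq, L1_0, cm10, cm8, rw21, rw23, rw30] at h
    linarith only [h]
  · right
    simp only [all_eq, L2_0, cm10, cm8, rw21, rw23, rw30, sz10, sz30, sz31, sz8, Nat.cast_ofNat, Nat.cast_one] at h
    linarith only [h]

theorem node10 (w : Fin 3 → ℕ → ℝ) (s : Fin 3 → ℝ) (θ : ℝ)
    (h : θ < L1 w 1 {4} {4} {2, 4, 5} ∨ θ < L2 w s 1 4 {4} {4} {2, 4, 5}) :
    θ < w 0 1 + w 0 2 + w 0 3 + w 0 5 + w 1 2 + w 1 4 + w 1 5 + w 2 1 + w 2 2 + w 2 3 + w 2 5 ∨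
      4 * θ < 4 * w 0 1 + 4 * w 0 2 + 4 * w 0 3 + 4 * w 0 4 + 4 * w 0 5 - 4 * w 1 2 - 12 * w 1 4 + 4 * w 1 5 - 4 * s 1 + 4 * w 2 1 + 4 * w 2 2 + 4 * w 2 3 + 4 * w 2 4 + 4 * w 2 5 := by
  rcases h with h | h
  · left
    simp only [all_eq, L1_1, cm8, rw23, rw26] at h
    linarith only [h]
  · right
    simp only [all_eq, L2_1, cm8, rw23, rw26, sz26, sz31, sz8, Nat.cast_ofNat, Nat.cast_one] at h
    linarith only [h]

theorem node11 (w : Fin 3 → ℕ → ℝ) (s : Fin 3 → ℝ) (θ : ℝ)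
    (h : θ < L1 w 1 {3} {3} {2, 4, 5} ∨ θ < L2 w s 1 3 {3} {3} {2, 4, 5}) :
    θ < w 0 1 + w 0 2 + w 0 4 + w 0 5 + w 1 2 + w 1 4 + w 1 5 + w 2 1 + w 2 2 + w 2 4 + w 2 5 ∨
      3 * θ < 3 * w 0 1 + 3 * w 0 2 + 3 * w 0 3 + 3 * w 0 4 + 3 * w 0 5 - 3 * w 1 2 - 9 * w 1 4 + 3 * w 1 5 - 3 * s 1 + 3 * w 2 1 + 3 * w 2 2 + 3 * w 2 3 + 3 * w 2 4 + 3 * w 2 5 := by
  rcases h with h | h
  · left
    simp only [all_eq, L1_1, cm4, rw26, rw27] at h
    linarith only [h]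
  · right
    simp only [all_eq, L2_1, cm4, rw26, rw27, sz26, sz31, sz4, Nat.cast_ofNat, Nat.cast_one] at h
    linarith only [h]

theorem node12 (w : Fin 3 → ℕ → ℝ) (s : Fin 3 → ℝ) (θ : ℝ)
    (h : θ < L1 w 2 {2, 4} {2, 4} {2, 3, 4, 5} ∨ θ < L2 w s 2 2 {2, 4} {2, 4} {2, 3, 4, 5}) :
    θ < w 0 1 + w 0 3 + w 0 5 + w 1 1 + w 1 3 + w 1 5 + w 2 2 + w 2 3 + w 2 4 + w 2 5 ∨
      2 * θ < 2 * w 0 1 + 2 * w 0 2 + 2 * w 0 3 + 4 * w 0 4 + 2 * w 0 5 + 2 * w 1 1 + 2 * w 1 2 + 2 * w 1 3 + 4 * w 1 4 + 2 * w 1 5 - 2 * w 2 2 - 4 * w 2 3 - 6 * w 2 4 + 2 * w 2 5 - 2 * s 2 := by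
  rcases h with h | h
  · left
    simp only [all_eq, L1_2, cm10, rw21, rw30] at h
    linarith only [h]
  · right
    simp only [all_eq, L2_2, cm10, rw21, rw30, sz10, sz30, sz31, Nat.cast_ofNat, Nat.cast_one] at h
    linarith only [h]

theorem node13 (w : Fin 3 → ℕ → ℝ) (s : Fin 3 → ℝ) (θ : ℝ)
    (h : θ < L1 w 1 {1, 2, 3} {1, 2, 3, 5} {3, 4} ∨ θ < L2 w s 1 1 {1, 2, 3} {1, 2, 3, 5} {3, 4}) :
    θ < w 0 4 + w 1 3 + w 1 4 + w 2 4 + w 2 5 ∨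
      θ < w 0 1 + 2 * w 0 2 + 3 * w 0 3 + w 0 4 + s 0 - 2 * w 1 3 - 3 * w 1 4 + w 2 1 + 2 * w 2 2 + 3 * w 2 3 + w 2 4 + w 2 5 := by
  rcases h with h | h
  · left
    simp only [all_eq, L1_1, cm23, cm7, rw12, rw24, rw8] at h
    linarith only [h]
  · right
    simp only [all_eq, L2_1, cm23, cm7, rw12, rw24, rw8, sz12, sz23, sz31, sz7, Nat.cast_ofNat, Nat.cast_one] at h
    linarith only [h]

theorem node14 (w : Fin 3 → ℕ → ℝ) (s : Fin 3 → ℝ) (θ : ℝ)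
    (h : θ < L1 w 1 {1, 2} {1} {2, 4, 5} ∨ θ < L2 w s 1 1 {1, 2} {1} {2, 4, 5}) :
    θ < w 0 2 + w 0 3 + w 0 4 + w 0 5 + w 1 2 + w 1 4 + w 1 5 + w 2 3 + w 2 4 + w 2 5 ∨
      θ < w 0 1 + w 0 2 + w 0 3 + w 0 4 + w 0 5 - w 1 2 - 3 * w 1 4 + w 1 5 - s 1 + w 2 1 + 2 * w 2 2 + w 2 3 + w 2 4 + w 2 5 := by
  rcases h with h | h
  · left
    simp only [all_eq, L1_1, cm1, cm3, rw26, rw28, rw30] at h
    linarith only [h]
  · right
    simp only [all_eq, L2_1, cm1, cm3, rw26, rw28, rw30, sz1, sz26, sz3, sz31, Nat.cast_ofNat, Nat.cast_one] at h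
    linarith only [h]

theorem node15 (w : Fin 3 → ℕ → ℝ) (s : Fin 3 → ℝ) (θ : ℝ)
    (h : θ < L1 w 0 {4} {4} {4} ∨ θ < L2 w s 0 4 {4} {4} {4}) :
    θ < w 0 4 + w 1 1 + w 1 2 + w 1 3 + w 1 5 + w 2 1 + w 2 2 + w 2 3 + w 2 5 ∨
      4 * θ < 4 * w 0 1 + 8 * w 0 2 + 12 * w 0 3 + 4 * w 0 4 + 4 * s 0 + 4 * w 1 1 + 4 * w 1 2 + 4 * w 1 3 + 4 * w 1 4 + 4 * w 1 5 + 4 * w 2 1 + 4 * w 2 2 + 4 * w 2 3 + 4 * w 2 4 + 4 * w 2 5 - 4 := by
  rcases h with h | h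
  · left
    simp only [all_eq, L1_0, cm8, rw23, rw8] at h
    linarith only [h]
  · right
    simp only [all_eq, L2_0, cm8, rw23, rw8, sz31, sz8, Nat.cast_ofNat, Nat.cast_one] at h
    linarith only [h]

theorem node16 (w : Fin 3 → ℕ → ℝ) (s : Fin 3 → ℝ) (θ : ℝ)
    (h : θ < L1 w 0 {2, 4} {2} {4} ∨ θ < L2 w s 0 1 {2, 4} {2} {4}) :
    θ < w 0 4 + w 1 1 + w 1 3 + w 1 5 + w 2 1 + w 2 3 + w 2 4 + w 2 5 ∨
      θ < w 0 1 + 2 * w 0 2 + 3 * w 0 3 + w 0 4 + s 0 + w 1 1 + 2 * w 1 2 + w 1 3 + 4 * w 1 4 + w 1 5 + w 2 1 + 2 * w 2 2 + w 2 3 + w 2 4 + w 2 5 - 1 := by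
  rcases h with h | h
  · left
    simp only [all_eq, L1_0, cm10, cm2, rw21, rw29, rw8] at h
    linarith only [h]
  · right
    simp only [all_eq, L2_0, cm10, cm2, rw21, rw29, rw8, sz10, sz2, sz31, sz8, Nat.cast_ofNat, Nat.cast_one] at h
    linarith only [h]

theorem node17 (w : Fin 3 → ℕ → ℝ) (s : Fin 3 → ℝ) (θ : ℝ)
    (h : θ < L1 w 0 {2, 4} {2} {3, 4, 5} ∨ θ < L2 w s 0 2 {2, 4} {2} {3, 4, 5}) :
    θ < w 0 3 + w 0 4 + w 0 5 + w 1 1 + w 1 3 + w 1 5 + w 2 1 + w 2 3 + w 2 4 + w 2 5 ∨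
      2 * θ < 2 * w 0 1 + 4 * w 0 2 + 2 * w 0 3 + 2 * w 0 4 + 2 * w 0 5 + 2 * w 1 1 + 2 * w 1 2 + 2 * w 1 3 + 4 * w 1 4 + 2 * w 1 5 + 2 * w 2 1 + 2 * w 2 2 + 2 * w 2 3 + 2 * w 2 4 + 2 * w 2 5 - 2 := by
  rcases h with h | h
  · left
    simp only [all_eq, L1_0, cm10, cm2, rw21, rw28, rw29] at h
    linarith only [h]
  · right
    simp only [all_eq, L2_0, cm10, cm2, rw21, rw28, rw29, sz10, sz2, sz28, sz31, Nat.cast_ofNat, Nat.cast_one] at h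
    linarith only [h]

theorem node18 (w : Fin 3 → ℕ → ℝ) (s : Fin 3 → ℝ) (θ : ℝ)
    (h : θ < L1 w 1 {1, 2} {1, 2, 3, 4, 5} {3, 4, 5} ∨ θ < L2 w s 1 1 {1, 2} {1, 2, 3, 4, 5} {3, 4, 5}) :
    θ < w 1 3 + w 1 4 + w 1 5 + w 2 3 + w 2 4 + w 2 5 ∨
      θ < w 0 1 + 2 * w 0 2 + 3 * w 0 3 + 4 * w 0 4 + s 0 - 2 * w 1 3 - 3 * w 1 4 + w 1 5 - s 1 + w 2 1 + 2 * w 2 2 + w 2 3 + w 2 4 + w 2 5 := by
  rcases h with h | h
  · left
    simp only [all_eq, L1_1, cm3, cmA, rw0, rw28] at h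
    linarith only [h]
  · right
    simp only [all_eq, L2_1, cm3, cmA, rw0, rw28, sz28, sz3, sz31, Nat.cast_ofNat, Nat.cast_one] at h
    linarith only [h]

theorem node19 (w : Fin 3 → ℕ → ℝ) (s : Fin 3 → ℝ) (θ : ℝ)
    (h : θ < L1 w 0 {1, 2} {1, 2} {3, 4, 5} ∨ θ < L2 w s 0 1 {1, 2} {1, 2} {3, 4, 5}) :
    θ < w 0 3 + w 0 4 + w 0 5 + w 1 3 + w 1 4 + w 1 5 + w 2 3 + w 2 4 + w 2 5 ∨
      θ < w 0 1 + 2 * w 0 2 + w 0 3 + w 0 4 + w 0 5 + w 1 1 + 2 * w 1 2 + w 1 3 + w 1 4 + w 1 5 + w 2 1 + 2 * w 2 2 + w 2 3 + w 2 4 + w 2 5 - 1 := by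
  rcases h with h | h
  · left
    simp only [all_eq, L1_0, cm3, rw28] at h
    linarith only [h]
  · right
    simp only [all_eq, L2_0, cm3, rw28, sz28, sz3, sz31, Nat.cast_ofNat, Nat.cast_one] at h
    linarith only [h]

theorem node20 (w : Fin 3 → ℕ → ℝ) (s : Fin 3 → ℝ) (θ : ℝ)
    (h : θ < L1 w 0 {1, 3} {1} {2, 3, 4, 5} ∨ θ < L2 w s 0 1 {1, 3} {1} {2, 3, 4, 5}) :
    θ < w 0 2 + w 0 3 + w 0 4 + w 0 5 + w 1 2 + w 1 4 + w 1 5 + w 2 2 + w 2 3 + w 2 4 + w 2 5 ∨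
      θ < w 0 1 + w 0 2 + w 0 3 + w 0 4 + w 0 5 + w 1 1 + w 1 2 + 3 * w 1 3 + w 1 4 + w 1 5 + w 2 1 + w 2 2 + w 2 3 + w 2 4 + w 2 5 - 1 := by
  rcases h with h | h
  · left
    simp only [all_eq, L1_0, cm1, cm5, rw26, rw30] at h
    linarith only [h]
  · right
    simp only [all_eq, L2_0, cm1, cm5, rw26, rw30, sz1, sz30, sz31, sz5, Nat.cast_ofNat, Nat.cast_one] at h
    linarith only [h]

theorem node21 (w : Fin 3 → ℕ → ℝ) (s : Fin 3 → ℝ) (θ : ℝ)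
    (h : θ < L1 w 1 {1, 2, 3} {1, 2, 3} {3, 4, 5} ∨ θ < L2 w s 1 1 {1, 2, 3} {1, 2, 3} {3, 4, 5}) :
    θ < w 0 4 + w 0 5 + w 1 3 + w 1 4 + w 1 5 + w 2 4 + w 2 5 ∨
      θ < w 0 1 + 2 * w 0 2 + 3 * w 0 3 + w 0 4 + w 0 5 - 2 * w 1 3 - 3 * w 1 4 + w 1 5 - s 1 + w 2 1 + 2 * w 2 2 + 3 * w 2 3 + w 2 4 + w 2 5 := by
  rcases h with h | h
  · left
    simp only [all_eq, L1_1, cm7, rw24, rw28] at h
    linarith only [h]
  · right
    simp only [all_eq, L2_1, cm7, rw24, rw28, sz28, sz31, sz7, Nat.cast_ofNat, Nat.cast_one] at h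
    linarith only [h]

theorem node22 (w : Fin 3 → ℕ → ℝ) (s : Fin 3 → ℝ) (θ : ℝ)
    (h : θ < L1 w 0 {2, 4} {2, 4} {3, 4, 5} ∨ θ < L2 w s 0 2 {2, 4} {2, 4} {3, 4, 5}) :
    θ < w 0 3 + w 0 4 + w 0 5 + w 1 1 + w 1 3 + w 1 5 + w 2 1 + w 2 3 + w 2 5 ∨
      2 * θ < 2 * w 0 1 + 4 * w 0 2 + 2 * w 0 3 + 2 * w 0 4 + 2 * w 0 5 + 2 * w 1 1 + 2 * w 1 2 + 2 * w 1 3 + 4 * w 1 4 + 2 * w 1 5 + 2 * w 2 1 + 2 * w 2 2 + 2 * w 2 3 + 4 * w 2 4 + 2 * w 2 5 - 2 := by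
  rcases h with h | h
  · left
    simp only [all_eq, L1_0, cm10, rw21, rw28] at h
    linarith only [h]
  · right
    simp only [all_eq, L2_0, cm10, rw21, rw28, sz10, sz28, sz31, Nat.cast_ofNat, Nat.cast_one] at h
    linarith only [h]

theorem node23 (w : Fin 3 → ℕ → ℝ) (s : Fin 3 → ℝ) (θ : ℝ)
    (h : θ < L1 w 1 {1, 2} {1, 2} {3, 5} ∨ θ < L2 w s 1 1 {1, 2} {1, 2} {3, 5}) :
    θ < w 0 3 + w 0 4 + w 0 5 + w 1 3 + w 1 5 + w 2 3 + w 2 4 + w 2 5 ∨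
      θ < w 0 1 + 2 * w 0 2 + w 0 3 + w 0 4 + w 0 5 - 2 * w 1 3 + w 1 5 - s 1 + w 2 1 + 2 * w 2 2 + w 2 3 + w 2 4 + w 2 5 := by
  rcases h with h | h
  · left
    simp only [all_eq, L1_1, cm3, rw20, rw28] at h
    linarith only [h]
  · right
    simp only [all_eq, L2_1, cm3, rw20, rw28, sz20, sz3, sz31, Nat.cast_ofNat, Nat.cast_one] at h
    linarith only [h]

theorem node24 (w : Fin 3 → ℕ → ℝ) (s : Fin 3 → ℝ) (θ : ℝ)
    (h : θ < L1 w 1 {3} {3} {4, 5} ∨ θ < L2 w s 1 3 {3} {3} {4, 5}) :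
    θ < w 0 1 + w 0 2 + w 0 4 + w 0 5 + w 1 4 + w 1 5 + w 2 1 + w 2 2 + w 2 4 + w 2 5 ∨
      3 * θ < 3 * w 0 1 + 3 * w 0 2 + 3 * w 0 3 + 3 * w 0 4 + 3 * w 0 5 - 9 * w 1 4 + 3 * w 1 5 - 3 * s 1 + 3 * w 2 1 + 3 * w 2 2 + 3 * w 2 3 + 3 * w 2 4 + 3 * w 2 5 := by
  rcases h with h | h
  · left
    simp only [all_eq, L1_1, cm4, rw24, rw27] at h
    linarith only [h]
  · right
    simp only [all_eq, L2_1, cm4, rw24, rw27, sz24, sz31, sz4, Nat.cast_ofNat, Nat.cast_one] at h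
    linarith only [h]

theorem node25 (w : Fin 3 → ℕ → ℝ) (s : Fin 3 → ℝ) (θ : ℝ)
    (h : θ < L1 w 0 {4} {4} {2, 4, 5} ∨ θ < L2 w s 0 4 {4} {4} {2, 4, 5}) :
    θ < w 0 2 + w 0 4 + w 0 5 + w 1 1 + w 1 2 + w 1 3 + w 1 5 + w 2 1 + w 2 2 + w 2 3 + w 2 5 ∨
      4 * θ < 4 * w 0 1 + 4 * w 0 2 + 12 * w 0 3 + 4 * w 0 4 + 4 * w 0 5 + 4 * w 1 1 + 4 * w 1 2 + 4 * w 1 3 + 4 * w 1 4 + 4 * w 1 5 + 4 * w 2 1 + 4 * w 2 2 + 4 * w 2 3 + 4 * w 2 4 + 4 * w 2 5 - 4 := by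
  rcases h with h | h
  · left
    simp only [all_eq, L1_0, cm8, rw23, rw26] at h
    linarith only [h]
  · right
    simp only [all_eq, L2_0, cm8, rw23, rw26, sz26, sz31, sz8, Nat.cast_ofNat, Nat.cast_one] at h
    linarith only [h]

theorem node26 (w : Fin 3 → ℕ → ℝ) (s : Fin 3 → ℝ) (θ : ℝ)
    (h : θ < L1 w 0 {1, 2} {1, 2, 3} {3, 4, 5} ∨ θ < L2 w s 0 1 {1, 2} {1, 2, 3} {3, 4, 5}) :
    θ < w 0 3 + w 0 4 + w 0 5 + w 1 3 + w 1 4 + w 1 5 + w 2 4 + w 2 5 ∨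
      θ < w 0 1 + 2 * w 0 2 + w 0 3 + w 0 4 + w 0 5 + w 1 1 + 2 * w 1 2 + w 1 3 + w 1 4 + w 1 5 + w 2 1 + 2 * w 2 2 + 3 * w 2 3 + w 2 4 + w 2 5 - 1 := by
  rcases h with h | h
  · left
    simp only [all_eq, L1_0, cm3, cm7, rw24, rw28] at h
    linarith only [h]
  · right
    simp only [all_eq, L2_0, cm3, cm7, rw24, rw28, sz28, sz3, sz31, sz7, Nat.cast_ofNat, Nat.cast_one] at h
    linarith only [h]

theorem node27 (w : Fin 3 → ℕ → ℝ) (s : Fin 3 → ℝ) (θ : ℝ)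
    (h : θ < L1 w 2 {3} {3} {2, 3, 5} ∨ θ < L2 w s 2 3 {3} {3} {2, 3, 5}) :
    θ < w 0 1 + w 0 2 + w 0 4 + w 0 5 + w 1 1 + w 1 2 + w 1 4 + w 1 5 + w 2 2 + w 2 3 + w 2 5 ∨
      3 * θ < 3 * w 0 1 + 3 * w 0 2 + 3 * w 0 3 + 3 * w 0 4 + 3 * w 0 5 + 3 * w 1 1 + 3 * w 1 2 + 3 * w 1 3 + 3 * w 1 4 + 3 * w 1 5 - 3 * w 2 2 - 6 * w 2 3 + 3 * w 2 5 - 3 * s 2 := by
  rcases h with h | h
  · left
    simp only [all_eq, L1_2, cm4, rw22, rw27] at h
    linarith only [h]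
  · right
    simp only [all_eq, L2_2, cm4, rw22, rw27, sz22, sz31, sz4, Nat.cast_ofNat, Nat.cast_one] at h
    linarith only [h]

theorem node28 (w : Fin 3 → ℕ → ℝ) (s : Fin 3 → ℝ) (θ : ℝ)
    (h : θ < L1 w 0 {1, 3} {1} {2, 4, 5} ∨ θ < L2 w s 0 1 {1, 3} {1} {2, 4, 5}) :
    θ < w 0 2 + w 0 4 + w 0 5 + w 1 2 + w 1 4 + w 1 5 + w 2 2 + w 2 3 + w 2 4 + w 2 5 ∨
      θ < w 0 1 + w 0 2 + 3 * w 0 3 + w 0 4 + w 0 5 + w 1 1 + w 1 2 + 3 * w 1 3 + w 1 4 + w 1 5 + w 2 1 + w 2 2 + w 2 3 + w 2 4 + w 2 5 - 1 := by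
  rcases h with h | h
  · left
    simp only [all_eq, L1_0, cm1, cm5, rw26, rw30] at h
    linarith only [h]
  · right
    simp only [all_eq, L2_0, cm1, cm5, rw26, rw30, sz1, sz26, sz31, sz5, Nat.cast_ofNat, Nat.cast_one] at h
    linarith only [h]

theorem node29 (w : Fin 3 → ℕ → ℝ) (s : Fin 3 → ℝ) (θ : ℝ)
    (h : θ < L1 w 1 {2, 4} {2, 4} {4, 5} ∨ θ < L2 w s 1 2 {2, 4} {2, 4} {4, 5}) :
    θ < w 0 1 + w 0 3 + w 0 5 + w 1 4 + w 1 5 + w 2 1 + w 2 3 + w 2 5 ∨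
      2 * θ < 2 * w 0 1 + 2 * w 0 2 + 2 * w 0 3 + 4 * w 0 4 + 2 * w 0 5 - 6 * w 1 4 + 2 * w 1 5 - 2 * s 1 + 2 * w 2 1 + 2 * w 2 2 + 2 * w 2 3 + 4 * w 2 4 + 2 * w 2 5 := by
  rcases h with h | h
  · left
    simp only [all_eq, L1_1, cm10, rw21, rw24] at h
    linarith only [h]
  · right
    simp only [all_eq, L2_1, cm10, rw21, rw24, sz10, sz24, sz31, Nat.cast_ofNat, Nat.cast_one] at h
    linarith only [h]

theorem node30 (w : Fin 3 → ℕ → ℝ) (s : Fin 3 → ℝ) (θ : ℝ)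
    (h : θ < L1 w 2 {2, 4} {2, 4} {3, 4, 5} ∨ θ < L2 w s 2 2 {2, 4} {2, 4} {3, 4, 5}) :
    θ < w 0 1 + w 0 3 + w 0 5 + w 1 1 + w 1 3 + w 1 5 + w 2 3 + w 2 4 + w 2 5 ∨
      2 * θ < 2 * w 0 1 + 2 * w 0 2 + 2 * w 0 3 + 4 * w 0 4 + 2 * w 0 5 + 2 * w 1 1 + 2 * w 1 2 + 2 * w 1 3 + 4 * w 1 4 + 2 * w 1 5 - 4 * w 2 3 - 6 * w 2 4 + 2 * w 2 5 - 2 * s 2 := by
  rcases h with h | h
  · left
    simp only [all_eq, L1_2, cm10, rw21, rw28] at h
    linarith only [h]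
  · right
    simp only [all_eq, L2_2, cm10, rw21, rw28, sz10, sz28, sz31, Nat.cast_ofNat, Nat.cast_one] at h
    linarith only [h]

theorem node31 (w : Fin 3 → ℕ → ℝ) (s : Fin 3 → ℝ) (θ : ℝ)
    (h : θ < L1 w 2 {3} {3} {5} ∨ θ < L2 w s 2 3 {3} {3} {5}) :
    θ < w 0 1 + w 0 2 + w 0 4 + w 0 5 + w 1 1 + w 1 2 + w 1 4 + w 1 5 + w 2 5 ∨
      3 * θ < 3 * w 0 1 + 3 * w 0 2 + 3 * w 0 3 + 3 * w 0 4 + 3 * w 0 5 + 3 * w 1 1 + 3 * w 1 2 + 3 * w 1 3 + 3 * w 1 4 + 3 * w 1 5 + 3 * w 2 5 - 3 * s 2 := by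
  rcases h with h | h
  · left
    simp only [all_eq, L1_2, cm4, rw16, rw27] at h
    linarith only [h]
  · right
    simp only [all_eq, L2_2, cm4, rw16, rw27, sz16, sz31, sz4, Nat.cast_ofNat, Nat.cast_one] at h
    linarith only [h]

theorem node32 (w : Fin 3 → ℕ → ℝ) (s : Fin 3 → ℝ) (θ : ℝ)
    (h : θ < L1 w 1 {4} {2} {4, 5} ∨ θ < L2 w s 1 2 {4} {2} {4, 5}) :
    θ < w 0 1 + w 0 3 + w 0 4 + w 0 5 + w 1 4 + w 1 5 + w 2 1 + w 2 2 + w 2 3 + w 2 5 ∨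
      2 * θ < 2 * w 0 1 + 2 * w 0 2 + 2 * w 0 3 + 2 * w 0 4 + 2 * w 0 5 - 6 * w 1 4 + 2 * w 1 5 - 2 * s 1 + 2 * w 2 1 + 2 * w 2 2 + 2 * w 2 3 + 4 * w 2 4 + 2 * w 2 5 := by
  rcases h with h | h
  · left
    simp only [all_eq, L1_1, cm2, cm8, rw23, rw24, rw29] at h
    linarith only [h]
  · right
    simp only [all_eq, L2_1, cm2, cm8, rw23, rw24, rw29, sz2, sz24, sz31, sz8, Nat.cast_ofNat, Nat.cast_one] at h
    linarith only [h]

theorem node33 (w : Fin 3 → ℕ → ℝ) (s : Fin 3 → ℝ) (θ : ℝ)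
    (h : θ < L1 w 2 {2, 4} {2, 4} {1, 3} ∨ θ < L2 w s 2 2 {2, 4} {2, 4} {1, 3}) :
    θ < w 0 1 + w 0 3 + w 0 5 + w 1 1 + w 1 3 + w 1 5 + w 2 1 + w 2 3 ∨
      2 * θ < 2 * w 0 1 + 2 * w 0 2 + 2 * w 0 3 + 4 * w 0 4 + 2 * w 0 5 + 2 * w 1 1 + 2 * w 1 2 + 2 * w 1 3 + 4 * w 1 4 + 2 * w 1 5 - 4 * w 2 3 := by
  rcases h with h | h
  · left
    simp only [all_eq, L1_2, cm10, rw21, rw5] at h
    linarith only [h]
  · right
    simp only [all_eq, L2_2, cm10, rw21, rw5, sz10, sz31, sz5, Nat.cast_ofNat, Nat.cast_one] at h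
    linarith only [h]

theorem node34 (w : Fin 3 → ℕ → ℝ) (s : Fin 3 → ℝ) (θ : ℝ)
    (h : θ < L1 w 0 {1, 3} {1, 3} {2, 4, 5} ∨ θ < L2 w s 0 1 {1, 3} {1, 3} {2, 4, 5}) :
    θ < w 0 2 + w 0 4 + w 0 5 + w 1 2 + w 1 4 + w 1 5 + w 2 2 + w 2 4 + w 2 5 ∨
      θ < w 0 1 + w 0 2 + 3 * w 0 3 + w 0 4 + w 0 5 + w 1 1 + w 1 2 + 3 * w 1 3 + w 1 4 + w 1 5 + w 2 1 + w 2 2 + 3 * w 2 3 + w 2 4 + w 2 5 - 1 := by
  rcases h with h | h
  · left
    simp only [all_eq, L1_0, cm5, rw26] at h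
    linarith only [h]
  · right
    simp only [all_eq, L2_0, cm5, rw26, sz26, sz31, sz5, Nat.cast_ofNat, Nat.cast_one] at h
    linarith only [h]

theorem node35 (w : Fin 3 → ℕ → ℝ) (s : Fin 3 → ℝ) (θ : ℝ)
    (h : θ < L1 w 0 {3} {3} {4, 5} ∨ θ < L2 w s 0 3 {3} {3} {4, 5}) :
    θ < w 0 4 + w 0 5 + w 1 1 + w 1 2 + w 1 4 + w 1 5 + w 2 1 + w 2 2 + w 2 4 + w 2 5 ∨
      3 * θ < 3 * w 0 1 + 6 * w 0 2 + 9 * w 0 3 + 3 * w 0 4 + 3 * w 0 5 + 3 * w 1 1 + 3 * w 1 2 + 3 * w 1 3 + 3 * w 1 4 + 3 * w 1 5 + 3 * w 2 1 + 3 * w 2 2 + 3 * w 2 3 + 3 * w 2 4 + 3 * w 2 5 - 3 := by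
  rcases h with h | h
  · left
    simp only [all_eq, L1_0, cm4, rw24, rw27] at h
    linarith only [h]
  · right
    simp only [all_eq, L2_0, cm4, rw24, rw27, sz24, sz31, sz4, Nat.cast_ofNat, Nat.cast_one] at h
    linarith only [h]

theorem node36 (w : Fin 3 → ℕ → ℝ) (s : Fin 3 → ℝ) (θ : ℝ)
    (h : θ < L1 w 2 {4} {4} {2, 4, 5} ∨ θ < L2 w s 2 4 {4} {4} {2, 4, 5}) :
    θ < w 0 1 + w 0 2 + w 0 3 + w 0 5 + w 1 1 + w 1 2 + w 1 3 + w 1 5 + w 2 2 + w 2 4 + w 2 5 ∨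
      4 * θ < 4 * w 0 1 + 4 * w 0 2 + 4 * w 0 3 + 4 * w 0 4 + 4 * w 0 5 + 4 * w 1 1 + 4 * w 1 2 + 4 * w 1 3 + 4 * w 1 4 + 4 * w 1 5 - 4 * w 2 2 - 12 * w 2 4 + 4 * w 2 5 - 4 * s 2 := by
  rcases h with h | h
  · left
    simp only [all_eq, L1_2, cm8, rw23, rw26] at h
    linarith only [h]
  · right
    simp only [all_eq, L2_2, cm8, rw23, rw26, sz26, sz31, sz8, Nat.cast_ofNat, Nat.cast_one] at h
    linarith only [h]

theorem node37 (w : Fin 3 → ℕ → ℝ) (s : Fin 3 → ℝ) (θ : ℝ)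
    (h : θ < L1 w 0 {1, 2, 3} {1, 2} {4, 5} ∨ θ < L2 w s 0 1 {1, 2, 3} {1, 2} {4, 5}) :
    θ < w 0 4 + w 0 5 + w 1 4 + w 1 5 + w 2 3 + w 2 4 + w 2 5 ∨
      θ < w 0 1 + 2 * w 0 2 + 3 * w 0 3 + w 0 4 + w 0 5 + w 1 1 + 2 * w 1 2 + 3 * w 1 3 + w 1 4 + w 1 5 + w 2 1 + 2 * w 2 2 + w 2 3 + w 2 4 + w 2 5 - 1 := by
  rcases h with h | h
  · left
    simp only [all_eq, L1_0, cm3, cm7, rw24, rw28] at h
    linarith only [h]
  · right
    simp only [all_eq, L2_0, cm3, cm7, rw24, rw28, sz24, sz3, sz31, sz7, Nat.cast_ofNat, Nat.cast_one] at h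
    linarith only [h]

theorem node38 (w : Fin 3 → ℕ → ℝ) (s : Fin 3 → ℝ) (θ : ℝ)
    (h : θ < L1 w 2 {3} {3} {4, 5} ∨ θ < L2 w s 2 3 {3} {3} {4, 5}) :
    θ < w 0 1 + w 0 2 + w 0 4 + w 0 5 + w 1 1 + w 1 2 + w 1 4 + w 1 5 + w 2 4 + w 2 5 ∨
      3 * θ < 3 * w 0 1 + 3 * w 0 2 + 3 * w 0 3 + 3 * w 0 4 + 3 * w 0 5 + 3 * w 1 1 + 3 * w 1 2 + 3 * w 1 3 + 3 * w 1 4 + 3 * w 1 5 - 9 * w 2 4 + 3 * w 2 5 - 3 * s 2 := by
  rcases h with h | h
  · left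
    simp only [all_eq, L1_2, cm4, rw24, rw27] at h
    linarith only [h]
  · right
    simp only [all_eq, L2_2, cm4, rw24, rw27, sz24, sz31, sz4, Nat.cast_ofNat, Nat.cast_one] at h
    linarith only [h]

theorem node39 (w : Fin 3 → ℕ → ℝ) (s : Fin 3 → ℝ) (θ : ℝ)
    (h : θ < L1 w 0 ∅ {3} {5} ∨ θ < L2 w s 0 3 ∅ {3} {5}) :
    θ < w 0 5 + w 1 1 + w 1 2 + w 1 3 + w 1 4 + w 1 5 + w 2 1 + w 2 2 + w 2 4 + w 2 5 ∨
      3 * θ < 3 * w 0 1 + 6 * w 0 2 + 9 * w 0 3 + 12 * w 0 4 + 3 * w 0 5 + 3 * w 1 1 + 3 * w 1 2 + 3 * w 1 3 + 3 * w 1 4 + 3 * w 1 5 + 3 * w 2 1 + 3 * w 2 2 + 3 * w 2 3 + 3 * w 2 4 + 3 * w 2 5 - 3 := by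
  rcases h with h | h
  · left
    simp only [all_eq, L1_0, cm0, cm4, rw16, rw27, rw31] at h
    linarith only [h]
  · right
    simp only [all_eq, L2_0, cm0, cm4, rw16, rw27, rw31, sz0, sz16, sz31, sz4, Nat.cast_ofNat, Nat.cast_one] at h
    linarith only [h]

theorem node40 (w : Fin 3 → ℕ → ℝ) (s : Fin 3 → ℝ) (θ : ℝ)
    (h : θ < L1 w 2 {3} ∅ {4, 5} ∨ θ < L2 w s 2 3 {3} ∅ {4, 5}) :
    θ < w 0 1 + w 0 2 + w 0 4 + w 0 5 + w 1 1 + w 1 2 + w 1 3 + w 1 4 + w 1 5 + w 2 4 + w 2 5 ∨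
      3 * θ < 3 * w 0 1 + 3 * w 0 2 + 3 * w 0 3 + 3 * w 0 4 + 3 * w 0 5 + 3 * w 1 1 + 3 * w 1 2 + 3 * w 1 3 + 3 * w 1 4 + 3 * w 1 5 - 9 * w 2 4 + 3 * w 2 5 - 3 * s 2 := by
  rcases h with h | h
  · left
    simp only [all_eq, L1_2, cm0, cm4, rw24, rw27, rw31] at h
    linarith only [h]
  · right
    simp only [all_eq, L2_2, cm0, cm4, rw24, rw27, rw31, sz0, sz24, sz31, sz4, Nat.cast_ofNat, Nat.cast_one] at h
    linarith only [h]

theorem node41 (w : Fin 3 → ℕ → ℝ) (s : Fin 3 → ℝ) (θ : ℝ)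
    (h : θ < L1 w 1 {2} {4} {3, 5} ∨ θ < L2 w s 1 2 {2} {4} {3, 5}) :
    θ < w 0 1 + w 0 2 + w 0 3 + w 0 5 + w 1 3 + w 1 5 + w 2 1 + w 2 3 + w 2 4 + w 2 5 ∨
      2 * θ < 2 * w 0 1 + 2 * w 0 2 + 2 * w 0 3 + 4 * w 0 4 + 2 * w 0 5 - 4 * w 1 3 + 2 * w 1 5 - 2 * s 1 + 2 * w 2 1 + 2 * w 2 2 + 2 * w 2 3 + 2 * w 2 4 + 2 * w 2 5 := by
  rcases h with h | h
  · left
    simp only [all_eq, L1_1, cm2, cm8, rw20, rw23, rw29] at h
    linarith only [h]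
  · right
    simp only [all_eq, L2_1, cm2, cm8, rw20, rw23, rw29, sz2, sz20, sz31, sz8, Nat.cast_ofNat, Nat.cast_one] at h
    linarith only [h]

theorem node42 (w : Fin 3 → ℕ → ℝ) (s : Fin 3 → ℝ) (θ : ℝ)
    (h : θ < L1 w 1 ∅ {3} {5} ∨ θ < L2 w s 1 3 ∅ {3} {5}) :
    θ < w 0 1 + w 0 2 + w 0 4 + w 0 5 + w 1 5 + w 2 1 + w 2 2 + w 2 3 + w 2 4 + w 2 5 ∨
      3 * θ < 3 * w 0 1 + 3 * w 0 2 + 3 * w 0 3 + 3 * w 0 4 + 3 * w 0 5 + 3 * w 1 5 - 3 * s 1 + 3 * w 2 1 + 3 * w 2 2 + 3 * w 2 3 + 3 * w 2 4 + 3 * w 2 5 := by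
  rcases h with h | h
  · left
    simp only [all_eq, L1_1, cm0, cm4, rw16, rw27, rw31] at h
    linarith only [h]
  · right
    simp only [all_eq, L2_1, cm0, cm4, rw16, rw27, rw31, sz0, sz16, sz31, sz4, Nat.cast_ofNat, Nat.cast_one] at h
    linarith only [h]

theorem node43 (w : Fin 3 → ℕ → ℝ) (s : Fin 3 → ℝ) (θ : ℝ)
    (h : θ < L1 w 2 ∅ {3} {4, 5} ∨ θ < L2 w s 2 3 ∅ {3} {4, 5}) :
    θ < w 0 1 + w 0 2 + w 0 3 + w 0 4 + w 0 5 + w 1 1 + w 1 2 + w 1 4 + w 1 5 + w 2 4 + w 2 5 ∨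
      3 * θ < 3 * w 0 1 + 3 * w 0 2 + 3 * w 0 3 + 3 * w 0 4 + 3 * w 0 5 + 3 * w 1 1 + 3 * w 1 2 + 3 * w 1 3 + 3 * w 1 4 + 3 * w 1 5 - 9 * w 2 4 + 3 * w 2 5 - 3 * s 2 := by
  rcases h with h | h
  · left
    simp only [all_eq, L1_2, cm0, cm4, rw24, rw27, rw31] at h
    linarith only [h]
  · right
    simp only [all_eq, L2_2, cm0, cm4, rw24, rw27, rw31, sz0, sz24, sz31, sz4, Nat.cast_ofNat, Nat.cast_one] at h
    linarith only [h]

set_option maxHeartbeats 4000000 in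
theorem lp_half (w : Fin 3 → ℕ → ℝ) (s : Fin 3 → ℝ) (μ σ θ : ℝ) (hμ : 0 ≤ μ) (hσ : 0 ≤ σ)
    (hθ : θ = 3 / 5 + μ + σ)
    (hw : ∀ r, ∀ i, 0 ≤ w r i) (hs : ∀ r, 0 ≤ s r)
    (h0 : RW w All 0 + RW w All 1 + RW w All 2 ≤ 1 + μ)
    (hz : ∀ r, SZ w s All r ≤ 1) (hy1 : 1 - σ ≤ SZ w s All 1) (hy2 : 1 - σ ≤ SZ w s All 2)
    (hf : ∀ r, 5 * w r 5 ≤ s r)
    (sym : RW w All 1 ≤ RW w All 2)
    (hT : ∀ r, θ < RW w All (r + 1) + RW w All (r + 2))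
    (hD : ∀ r q k : Fin 3, r ≠ q → r ≠ k → q ≠ k →
      θ < RW w (All \ {3}) r + RW w (All \ {4}) q + RW w All k + w q 4 / 3)
    (H : ∀ (r : Fin 3) (d : ℕ) (J K I : Finset ℕ), 1 ≤ d → d ≤ 4 → ok J d → ok K d → I ⊆ All →
      θ < L1 w r J K I ∨ θ < L2 w s r d J K I) : False := by
  have p01 := hw 0 1
  have p02 := hw 0 2
  have p03 := hw 0 3
  have p04 := hw 0 4
  have p05 := hw 0 5
  have q0 := hs 0
  have p11 := hw 1 1
  have p12 := hw 1 2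
  have p13 := hw 1 3
  have p14 := hw 1 4
  have p15 := hw 1 5
  have q1 := hs 1
  have p21 := hw 2 1
  have p22 := hw 2 2
  have p23 := hw 2 3
  have p24 := hw 2 4
  have p25 := hw 2 5
  have q2 := hs 2
  rw [rw31, rw31, rw31] at h0
  rw [rw31, rw31] at sym
  have z0 := hz 0
  rw [sz31] at z0
  have z1 := hz 1
  rw [sz31] at z1
  have z2 := hz 2
  rw [sz31] at z2
  have y1 := hy1
  have y2 := hy2
  rw [sz31] at y1 y2
  have f0 := hf 0
  have f1 := hf 1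
  have f2 := hf 2
  have t0 : θ < (w 1 1 + w 1 2 + w 1 3 + w 1 4 + w 1 5) + (w 2 1 + w 2 2 + w 2 3 + w 2 4 + w 2 5) := by
    have h : θ < RW w All 1 + RW w All 2 := hT 0
    rwa [rw31, rw31] at h
  have t1 : θ < (w 2 1 + w 2 2 + w 2 3 + w 2 4 + w 2 5) + (w 0 1 + w 0 2 + w 0 3 + w 0 4 + w 0 5) := by
    have h : θ < RW w All 2 + RW w All 0 := hT 1
    rwa [rw31, rw31] at h
  have t2 : θ < (w 0 1 + w 0 2 + w 0 3 + w 0 4 + w 0 5) + (w 1 1 + w 1 2 + w 1 3 + w 1 4 + w 1 5) := by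
    have h : θ < RW w All 0 + RW w All 1 := hT 2
    rwa [rw31, rw31] at h
  have d01 : 3 * θ < 3 * (w 0 1 + w 0 2 + w 0 4 + w 0 5) + 3 * (w 1 1 + w 1 2 + w 1 3 + w 1 5) + 3 * (w 2 1 + w 2 2 + w 2 3 + w 2 4 + w 2 5) + w 1 4 := by
    have h := hD 0 1 2 (by decide) (by decide) (by decide)
    rw [cm4, cm8, rw27, rw23, rw31] at h; linarith only [h]
  have d02 : 3 * θ < 3 * (w 0 1 + w 0 2 + w 0 4 + w 0 5) + 3 * (w 2 1 + w 2 2 + w 2 3 + w 2 5) + 3 * (w 1 1 + w 1 2 + w 1 3 + w 1 4 + w 1 5) + w 2 4 := by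
    have h := hD 0 2 1 (by decide) (by decide) (by decide)
    rw [cm4, cm8, rw27, rw23, rw31] at h; linarith only [h]
  have d10 : 3 * θ < 3 * (w 1 1 + w 1 2 + w 1 4 + w 1 5) + 3 * (w 0 1 + w 0 2 + w 0 3 + w 0 5) + 3 * (w 2 1 + w 2 2 + w 2 3 + w 2 4 + w 2 5) + w 0 4 := by
    have h := hD 1 0 2 (by decide) (by decide) (by decide)
    rw [cm4, cm8, rw27, rw23, rw31] at h; linarith only [h]
  have d12 : 3 * θ < 3 * (w 1 1 + w 1 2 + w 1 4 + w 1 5) + 3 * (w 2 1 + w 2 2 + w 2 3 + w 2 5) + 3 * (w 0 1 + w 0 2 + w 0 3 + w 0 4 + w 0 5) + w 2 4 := by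
    have h := hD 1 2 0 (by decide) (by decide) (by decide)
    rw [cm4, cm8, rw27, rw23, rw31] at h; linarith only [h]
  have d20 : 3 * θ < 3 * (w 2 1 + w 2 2 + w 2 4 + w 2 5) + 3 * (w 0 1 + w 0 2 + w 0 3 + w 0 5) + 3 * (w 1 1 + w 1 2 + w 1 3 + w 1 4 + w 1 5) + w 0 4 := by
    have h := hD 2 0 1 (by decide) (by decide) (by decide)
    rw [cm4, cm8, rw27, rw23, rw31] at h; linarith only [h]
  have d21 : 3 * θ < 3 * (w 2 1 + w 2 2 + w 2 4 + w 2 5) + 3 * (w 1 1 + w 1 2 + w 1 3 + w 1 5) + 3 * (w 0 1 + w 0 2 + w 0 3 + w 0 4 + w 0 5) + w 1 4 := by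
    have h := hD 2 1 0 (by decide) (by decide) (by decide)
    rw [cm4, cm8, rw27, rw23, rw31] at h; linarith only [h]
  have n1 := node1 w s θ (H 0 4 {4} {4} {2, 3, 4, 5} (by norm_num) (by norm_num) ⟨by decide, by decide⟩
    ⟨by decide, by decide⟩ (by decide))
  have n2 := node2 w s θ (H 2 1 {1, 2, 3, 4, 5} {2, 5} {4} (by norm_num) (by norm_num) ⟨by decide, by decide⟩
    ⟨by decide, by decide⟩ (by decide))
  have n3 := node3 w s θ (H 1 2 {4} {2, 4} {1, 2, 3, 4, 5} (by norm_num) (by norm_num) ⟨by decide, by decide⟩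
    ⟨by decide, by decide⟩ (by decide))
  have n4 := node4 w s θ (H 0 3 {3} {3} {3, 4, 5} (by norm_num) (by norm_num) ⟨by decide, by decide⟩
    ⟨by decide, by decide⟩ (by decide))
  have n5 := node5 w s θ (H 2 3 {3} {3} {3, 4, 5} (by norm_num) (by norm_num) ⟨by decide, by decide⟩
    ⟨by decide, by decide⟩ (by decide))
  have n6 := node6 w s θ (H 1 2 {2, 4} {2, 4} {2, 3, 4, 5} (by norm_num) (by norm_num) ⟨by decide, by decide⟩
    ⟨by decide, by decide⟩ (by decide))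
  have n7 := node7 w s θ (H 0 2 {2} {4} {3, 4, 5} (by norm_num) (by norm_num) ⟨by decide, by decide⟩
    ⟨by decide, by decide⟩ (by decide))
  have n8 := node8 w s θ (H 1 1 {1, 2} {1, 2, 3, 4, 5} {3, 4} (by norm_num) (by norm_num) ⟨by decide, by decide⟩
    ⟨by decide, by decide⟩ (by decide))
  have n9 := node9 w s θ (H 0 2 {2, 4} {4} {2, 3, 4, 5} (by norm_num) (by norm_num) ⟨by decide, by decide⟩
    ⟨by decide, by decide⟩ (by decide))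
  have n10 := node10 w s θ (H 1 4 {4} {4} {2, 4, 5} (by norm_num) (by norm_num) ⟨by decide, by decide⟩
    ⟨by decide, by decide⟩ (by decide))
  have n11 := node11 w s θ (H 1 3 {3} {3} {2, 4, 5} (by norm_num) (by norm_num) ⟨by decide, by decide⟩
    ⟨by decide, by decide⟩ (by decide))
  have n12 := node12 w s θ (H 2 2 {2, 4} {2, 4} {2, 3, 4, 5} (by norm_num) (by norm_num) ⟨by decide, by decide⟩
    ⟨by decide, by decide⟩ (by decide))
  have n13 := node13 w s θ (H 1 1 {1, 2, 3} {1, 2, 3, 5} {3, 4} (by norm_num) (by norm_num) ⟨by decide, by decide⟩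
    ⟨by decide, by decide⟩ (by decide))
  have n14 := node14 w s θ (H 1 1 {1, 2} {1} {2, 4, 5} (by norm_num) (by norm_num) ⟨by decide, by decide⟩
    ⟨by decide, by decide⟩ (by decide))
  have n15 := node15 w s θ (H 0 4 {4} {4} {4} (by norm_num) (by norm_num) ⟨by decide, by decide⟩
    ⟨by decide, by decide⟩ (by decide))
  have n16 := node16 w s θ (H 0 1 {2, 4} {2} {4} (by norm_num) (by norm_num) ⟨by decide, by decide⟩
    ⟨by decide, by decide⟩ (by decide))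
  have n17 := node17 w s θ (H 0 2 {2, 4} {2} {3, 4, 5} (by norm_num) (by norm_num) ⟨by decide, by decide⟩
    ⟨by decide, by decide⟩ (by decide))
  have n18 := node18 w s θ (H 1 1 {1, 2} {1, 2, 3, 4, 5} {3, 4, 5} (by norm_num) (by norm_num) ⟨by decide, by decide⟩
    ⟨by decide, by decide⟩ (by decide))
  have n19 := node19 w s θ (H 0 1 {1, 2} {1, 2} {3, 4, 5} (by norm_num) (by norm_num) ⟨by decide, by decide⟩
    ⟨by decide, by decide⟩ (by decide))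
  have n20 := node20 w s θ (H 0 1 {1, 3} {1} {2, 3, 4, 5} (by norm_num) (by norm_num) ⟨by decide, by decide⟩
    ⟨by decide, by decide⟩ (by decide))
  have n21 := node21 w s θ (H 1 1 {1, 2, 3} {1, 2, 3} {3, 4, 5} (by norm_num) (by norm_num) ⟨by decide, by decide⟩
    ⟨by decide, by decide⟩ (by decide))
  have n22 := node22 w s θ (H 0 2 {2, 4} {2, 4} {3, 4, 5} (by norm_num) (by norm_num) ⟨by decide, by decide⟩
    ⟨by decide, by decide⟩ (by decide))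
  have n23 := node23 w s θ (H 1 1 {1, 2} {1, 2} {3, 5} (by norm_num) (by norm_num) ⟨by decide, by decide⟩
    ⟨by decide, by decide⟩ (by decide))
  have n24 := node24 w s θ (H 1 3 {3} {3} {4, 5} (by norm_num) (by norm_num) ⟨by decide, by decide⟩
    ⟨by decide, by decide⟩ (by decide))
  have n25 := node25 w s θ (H 0 4 {4} {4} {2, 4, 5} (by norm_num) (by norm_num) ⟨by decide, by decide⟩
    ⟨by decide, by decide⟩ (by decide))
  have n26 := node26 w s θ (H 0 1 {1, 2} {1, 2, 3} {3, 4, 5} (by norm_num) (by norm_num) ⟨by decide, by decide⟩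
    ⟨by decide, by decide⟩ (by decide))
  have n27 := node27 w s θ (H 2 3 {3} {3} {2, 3, 5} (by norm_num) (by norm_num) ⟨by decide, by decide⟩
    ⟨by decide, by decide⟩ (by decide))
  have n28 := node28 w s θ (H 0 1 {1, 3} {1} {2, 4, 5} (by norm_num) (by norm_num) ⟨by decide, by decide⟩
    ⟨by decide, by decide⟩ (by decide))
  have n29 := node29 w s θ (H 1 2 {2, 4} {2, 4} {4, 5} (by norm_num) (by norm_num) ⟨by decide, by decide⟩
    ⟨by decide, by decide⟩ (by decide))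
  have n30 := node30 w s θ (H 2 2 {2, 4} {2, 4} {3, 4, 5} (by norm_num) (by norm_num) ⟨by decide, by decide⟩
    ⟨by decide, by decide⟩ (by decide))
  have n31 := node31 w s θ (H 2 3 {3} {3} {5} (by norm_num) (by norm_num) ⟨by decide, by decide⟩
    ⟨by decide, by decide⟩ (by decide))
  have n32 := node32 w s θ (H 1 2 {4} {2} {4, 5} (by norm_num) (by norm_num) ⟨by decide, by decide⟩
    ⟨by decide, by decide⟩ (by decide))
  have n33 := node33 w s θ (H 2 2 {2, 4} {2, 4} {1, 3} (by norm_num) (by norm_num) ⟨by decide, by decide⟩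
    ⟨by decide, by decide⟩ (by decide))
  have n34 := node34 w s θ (H 0 1 {1, 3} {1, 3} {2, 4, 5} (by norm_num) (by norm_num) ⟨by decide, by decide⟩
    ⟨by decide, by decide⟩ (by decide))
  have n35 := node35 w s θ (H 0 3 {3} {3} {4, 5} (by norm_num) (by norm_num) ⟨by decide, by decide⟩
    ⟨by decide, by decide⟩ (by decide))
  have n36 := node36 w s θ (H 2 4 {4} {4} {2, 4, 5} (by norm_num) (by norm_num) ⟨by decide, by decide⟩
    ⟨by decide, by decide⟩ (by decide))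
  have n37 := node37 w s θ (H 0 1 {1, 2, 3} {1, 2} {4, 5} (by norm_num) (by norm_num) ⟨by decide, by decide⟩
    ⟨by decide, by decide⟩ (by decide))
  have n38 := node38 w s θ (H 2 3 {3} {3} {4, 5} (by norm_num) (by norm_num) ⟨by decide, by decide⟩
    ⟨by decide, by decide⟩ (by decide))
  have n39 := node39 w s θ (H 0 3 ∅ {3} {5} (by norm_num) (by norm_num) ⟨by decide, by decide⟩
    ⟨by decide, by decide⟩ (by decide))
  have n40 := node40 w s θ (H 2 3 {3} ∅ {4, 5} (by norm_num) (by norm_num) ⟨by decide, by decide⟩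
    ⟨by decide, by decide⟩ (by decide))
  have n41 := node41 w s θ (H 1 2 {2} {4} {3, 5} (by norm_num) (by norm_num) ⟨by decide, by decide⟩
    ⟨by decide, by decide⟩ (by decide))
  have n42 := node42 w s θ (H 1 3 ∅ {3} {5} (by norm_num) (by norm_num) ⟨by decide, by decide⟩
    ⟨by decide, by decide⟩ (by decide))
  have n43 := node43 w s θ (H 2 3 ∅ {3} {4, 5} (by norm_num) (by norm_num) ⟨by decide, by decide⟩
    ⟨by decide, by decide⟩ (by decide))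
  clear H hD hT hz hf hw hs
  rcases n1 with m1 | m1
  · rcases n2 with m2 | m2
    · exact absurd (show (0 : ℝ) < 0 by linear_combination 10 * h0 + 5 * z2 + f2 + 10 * t1 + 5 * sym + 15 * m2 + 15 * p12 + 15 * p15 + 5 * p22 + 10 * p23 + 4 * q2 + 15 * hμ + 25 * hσ - 25 * hθ) (by norm_num)
    · rcases n3 with m3 | m3
      · rcases n4 with m4 | m4
        · rcases n5 with m5 | m5
          · rcases n6 with m6 | m6
            · rcases n7 with m7 | m7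
              · rcases n8 with m8 | m8
                · exact absurd (show (42 : ℝ) < 0 by linear_combination 120 * h0 + 150 * z0 + 495 * z1 + 570 * z2 + 120 * f0 + 99 * f1 + 456 * f2 + 105 * sym + 5 * d01 + 40 * d21 + 450 * m4 + 135 * m5 + 1575 * m8 + 150 * p02 + 30 * q0 + 495 * p12 + 396 * q1 + 570 * p22 + 114 * q2 + 2175 * hμ + 2295 * hσ - 2295 * hθ) (by norm_num)
                · rcases n9 with m9 | m9
                  · rcases n10 with m10 | m10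
                    · rcases n11 with m11 | m11
                      · rcases n12 with m12 | m12
                        · rcases n13 with m13 | m13
                          · rcases n14 with m14 | m14
                            · rcases n15 with m15 | m15
                              · exact absurd (show (4 : ℝ) < 0 by linear_combination 520 * h0 + 550 * z0 + 475 * z1 + 725 * z2 + 330 * f0 + 326 * f1 + 725 * f2 + 355 * sym + 165 * m4 + 390 * m10 + 680 * m12 + 1285 * m13 + 935 * m14 + 335 * m15 + 295 * p02 + 220 * q0 + 170 * p11 + 149 * q1 + 45 * p22 + 3270 * hμ + 3790 * hσ - 3790 * hθ) (by norm_num)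
                              · exact absurd (show (160 : ℝ) < 0 by linear_combination 600 * h0 + 560 * z0 + 700 * z1 + 560 * z2 + 20 * f0 + 128 * f1 + 560 * f2 + 60 * m4 + 60 * m5 + 560 * m10 + 2160 * m13 + 20 * m14 + 135 * m15 + 20 * p03 + 640 * p11 + 760 * p12 + 572 * q1 + 560 * p22 + 1100 * p23 + 2800 * hμ + 3400 * hσ - 3400 * hθ) (by norm_num)
                            · rcases n16 with m16 | m16
                              · exact absurd (show (5 : ℝ) < 0 by linear_combination 695 * h0 + 29 * z0 + 85 * z2 + 175 * y1 + 29 * f0 + 45 * f1 + 85 * f2 + 55 * sym + 116 * m4 + 250 * m5 + 254 * m10 + 90 * m13 + 220 * m14 + 135 * m16 + 29 * p02 + 192 * p03 + 74 * p11 + 36 * p23 + 169 * p24 + 370 * hμ + 890 * hσ - 1065 * hθ) (by norm_num)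
                              · exact absurd (show (0 : ℝ) < 0 by linear_combination 25 * h0 + 5 * z0 + 5 * z2 + f1 + 5 * f2 + 10 * m5 + 5 * m10 + 20 * m13 + 10 * m14 + 5 * m16 + 10 * p03 + 10 * p11 + 10 * p12 + 9 * q1 + 10 * p21 + 10 * p23 + 25 * hμ + 50 * hσ - 50 * hθ) (by norm_num)
                          · rcases n17 with m17 | m17
                            · rcases n18 with m18 | m18
                              · exact absurd (show (3 : ℝ) < 0 by linear_combination 5 * z0 + 20 * z1 + 20 * z2 + 4 * f0 + 16 * f1 + 16 * f2 + 15 * m4 + 5 * m11 + 60 * m18 + 5 * p02 + q0 + 5 * p11 + 20 * p12 + 4 * q1 + 20 * p22 + 4 * q2 + 80 * hμ + 80 * hσ - 80 * hθ) (by norm_num)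
                              · rcases n19 with m19 | m19
                                · rcases n20 with m20 | m20
                                  · rcases n21 with m21 | m21
                                    · rcases n22 with m22 | m22
                                      · rcases n23 with m23 | m23
                                        · exact absurd (show (0 : ℝ) < 0 by linear_combination z0 + z1 + z2 + f0 + f1 + f2 + m10 + m20 + 2 * m21 + m23 + p11 + 5 * hμ + 5 * hσ - 5 * hθ) (by norm_num)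
                                        · exact absurd (show (0 : ℝ) < 0 by linear_combination 5 * h0 + 5 * z0 + 3 * z1 + 5 * z2 + 5 * f0 + 5 * f1 + 5 * f2 + m10 + 4 * m12 + 16 * m21 + 4 * m22 + 5 * m23 + 4 * p02 + 6 * p03 + 10 * p12 + 3 * q1 + 6 * p23 + 25 * hμ + 30 * hσ - 30 * hθ) (by norm_num)
                                      · exact absurd (show (12 / 5 : ℝ) < 0 by linear_combination 34 * h0 + 6 * z0 + 10 * z1 + 8 * z2 + 6 * f0 + 10 * f1 + 6 * f2 + 2 * m1 + 8 * m6 + 10 * m7 + 10 * m12 + 12 * m21 + 11 * m22 + 12 * p04 + 22 * p12 + 20 * p15 + 6 * p22 + 6 * p23 + 2 * q2 + 30 * hμ + 64 * hσ - 64 * hθ) (by norm_num)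
                                    · rcases n24 with m24 | m24
                                      · rcases n25 with m25 | m25
                                        · rcases n26 with m26 | m26
                                          · rcases n27 with m27 | m27
                                            · rcases n28 with m28 | m28
                                              · rcases n29 with m29 | m29
                                                · rcases n30 with m30 | m30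
                                                  · exact absurd (show (0 : ℝ) < 0 by linear_combination 2 * z0 + 2 * z1 + 2 * z2 + 2 * f0 + 2 * f1 + 2 * f2 + m25 + 4 * m26 + 3 * m28 + m29 + m30 + 10 * hμ + 10 * hσ - 10 * hθ) (by norm_num)
                                                  · exact absurd (show (14 / 5 : ℝ) < 0 by linear_combination 68 * h0 + 10 * z0 + 6 * z1 + 28 * y2 + 6 * f0 + 6 * f1 + 6 * f2 + 12 * m12 + 28 * m17 + 12 * m26 + 12 * m29 + 17 * m30 + 20 * p01 + 54 * p02 + 4 * q0 + 46 * p12 + 6 * p24 + 30 * hμ + 70 * hσ - 98 * hθ) (by norm_num)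
                                                · exact absurd (show (0 : ℝ) < 0 by linear_combination 10 * h0 + 4 * y1 + 2 * m6 + 2 * m21 + 4 * m24 + m29 + 6 * p11 + 6 * hσ - 10 * hθ) (by norm_num)
                                              · rcases n31 with m31 | m31
                                                · exact absurd (show (1 / 5 : ℝ) < 0 by linear_combination 12 * h0 + 2 * z2 + 2 * f2 + 5 * t0 + 5 * sym + 4 * m28 + 8 * m31 + 2 * p22 + 4 * p23 + 6 * p24 + 5 * hμ + 17 * hσ - 17 * hθ) (by norm_num)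
                                                · exact absurd (show (3 : ℝ) < 0 by linear_combination 705 * h0 + 30 * z0 + 30 * z1 + 30 * y2 + 24 * f0 + 30 * f1 + 30 * f2 + 30 * t0 + 60 * m4 + 150 * m5 + 120 * m24 + 30 * m25 + 180 * m27 + 225 * m28 + 20 * m31 + 6 * q0 + 30 * p12 + 210 * p21 + 150 * hμ + 825 * hσ - 855 * hθ) (by norm_num)
                                            · rcases n32 with m32 | m32
                                              · exact absurd (show (0 : ℝ) < 0 by linear_combination 60 * h0 + 3 * z0 + 6 * y1 + 12 * y2 + 3 * f0 + 3 * f1 + 3 * f2 + 3 * m12 + 9 * m21 + 24 * m25 + 8 * m27 + 15 * m32 + 12 * p01 + 3 * p11 + 9 * p13 + 24 * p14 + 3 * p23 + 9 * q2 + 15 * hμ + 57 * hσ - 75 * hθ) (by norm_num)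
                                              · exact absurd (show (432 / 5 : ℝ) < 0 by linear_combination 8124 * h0 + 522 * z0 + 2016 * y1 + 276 * y2 + 522 * f0 + 522 * f1 + 522 * f2 + 162 * m4 + 1476 * m5 + 126 * m6 + 2538 * m7 + 396 * m10 + 1260 * m21 + 1566 * m24 + 522 * m25 + 470 * m27 + 639 * m32 + 1134 * p01 + 612 * q2 + 2610 * hμ + 8442 * hσ - 10734 * hθ) (by norm_num)
                                          · rcases n33 with m33 | m33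
                                            · rcases n34 with m34 | m34
                                              · exact absurd (show (0 : ℝ) < 0 by linear_combination 5 * z0 + 5 * z1 + 5 * z2 + 5 * f0 + 5 * f1 + 4 * f2 + 10 * m19 + 5 * m33 + 10 * m34 + q2 + 25 * hμ + 25 * hσ - 25 * hθ) (by norm_num)
                                              · rcases n35 with m35 | m35
                                                · rcases n36 with m36 | m36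
                                                  · rcases n37 with m37 | m37
                                                    · exact absurd (show (0 : ℝ) < 0 by linear_combination 5 * h0 + z0 + z1 + 2 * z2 + f0 + f1 + f2 + 2 * m24 + m26 + 2 * m34 + 2 * m35 + m36 + 2 * m37 + 3 * p24 + q2 + 5 * hμ + 10 * hσ - 10 * hθ) (by norm_num)
                                                    · rcases n38 with m38 | m38
                                                      · exact absurd (show (2 : ℝ) < 0 by linear_combination 70 * h0 + 5 * z0 + 5 * z1 + 5 * z2 + 5 * f0 + 5 * f1 + 4 * f2 + 20 * m24 + 5 * m26 + 5 * m33 + 20 * m34 + 20 * m35 + 5 * m37 + 20 * m38 + q2 + 25 * hμ + 95 * hσ - 95 * hθ) (by norm_num)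
                                                      · exact absurd (show (3 : ℝ) < 0 by linear_combination 330 * h0 + 15 * z0 + 15 * z1 + 90 * y2 + 15 * f0 + 15 * f1 + 12 * f2 + 15 * m19 + 45 * m24 + 15 * m33 + 45 * m35 + 30 * m37 + 85 * m38 + 105 * p21 + 600 * p24 + 153 * q2 + 75 * hμ + 315 * hσ - 405 * hθ) (by norm_num)
                                                  · rcases n39 with m39 | m39
                                                    · exact absurd (show (4 / 5 : ℝ) < 0 by linear_combination 228 * h0 + 16 * z0 + 16 * z1 + 76 * y2 + 16 * f0 + 16 * f1 + 16 * f2 + 8 * d21 + 16 * m11 + 48 * m24 + 39 * m36 + 64 * m39 + 16 * p02 + 96 * p03 + 48 * p04 + 32 * p13 + 80 * p22 + 240 * p24 + 64 * q2 + 80 * hμ + 232 * hσ - 308 * hθ) (by norm_num)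
                                                    · exact absurd (show (3 / 5 : ℝ) < 0 by linear_combination 81 * h0 + 3 * z0 + 3 * z1 + 24 * y2 + 3 * f0 + 3 * f1 + 3 * f2 + 9 * d20 + 3 * m12 + 12 * m24 + 12 * m35 + 9 * m36 + 2 * m39 + 6 * p03 + 6 * p12 + 18 * p13 + 9 * p22 + 33 * p24 + 9 * q2 + 15 * hμ + 72 * hσ - 96 * hθ) (by norm_num)
                                                · rcases n40 with m40 | m40
                                                  · exact absurd (show (78 : ℝ) < 0 by linear_combination 7980 * h0 + 3735 * z0 + 255 * z1 + 195 * z2 + 255 * f0 + 255 * f1 + 162 * f2 + 30 * m6 + 990 * m24 + 690 * m26 + 465 * m33 + 2000 * m35 + 1080 * m40 + 2460 * p01 + 14160 * p04 + 3480 * q0 + 480 * p13 + 210 * p14 + 33 * q2 + 1275 * hμ + 9255 * hσ - 9255 * hθ) (by norm_num)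
                                                  · exact absurd (show (0 : ℝ) < 0 by linear_combination 15 * h0 + 3 * y2 + 6 * m11 + 3 * m33 + m35 + m40 + 3 * p04 + 6 * p11 + 3 * p12 + 6 * p13 + 3 * p14 + 3 * p24 + 3 * p25 + 12 * hσ - 15 * hθ) (by norm_num)
                                            · rcases n41 with m41 | m41
                                              · exact absurd (show (70 : ℝ) < 0 by linear_combination 10720 * h0 + 1750 * z0 + 1360 * z1 + 730 * z2 + 1386 * f0 + 1360 * f1 + 730 * f2 + 130 * sym + 1040 * m4 + 1040 * m6 + 1250 * m12 + 2470 * m17 + 1670 * m19 + 1680 * m24 + 4040 * m26 + 1705 * m33 + 1050 * m41 + 364 * q0 + 310 * p24 + 6930 * hμ + 17650 * hσ - 17650 * hθ) (by norm_num)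
                                              · exact absurd (show (18 / 5 : ℝ) < 0 by linear_combination 936 * h0 + 68 * z0 + 30 * z1 + 4 * z2 + 56 * f0 + 56 * f1 + 4 * f2 + 112 * m6 + 182 * m12 + 212 * m17 + 112 * m24 + 312 * m26 + 130 * m33 + 13 * m41 + 50 * p02 + 36 * p03 + 12 * q0 + 166 * p21 + 108 * p24 + 280 * hμ + 1216 * hσ - 1216 * hθ) (by norm_num)
                                        · rcases n42 with m42 | m42
                                          · exact absurd (show (4 / 5 : ℝ) < 0 by linear_combination 228 * h0 + 80 * z0 + 16 * z1 + 16 * z2 + 16 * f0 + 16 * f1 + 16 * f2 + 8 * d02 + 64 * m5 + 16 * m11 + 16 * m24 + 39 * m25 + 32 * m42 + 80 * p02 + 240 * p04 + 64 * q0 + 96 * p13 + 16 * p14 + 16 * p22 + 80 * hμ + 308 * hσ - 308 * hθ) (by norm_num)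
                                          · exact absurd (show (12 / 5 : ℝ) < 0 by linear_combination 304 * h0 + 44 * z0 + 16 * z2 + 16 * y1 + 12 * f0 + 8 * f1 + 16 * f2 + 20 * sym + 32 * d01 + 64 * m5 + 16 * m9 + 32 * m24 + 33 * m25 + 8 * m42 + 28 * p02 + 116 * p04 + 32 * q0 + 32 * p13 + 16 * p22 + 60 * hμ + 348 * hσ - 364 * hθ) (by norm_num)
                                      · rcases n43 with m43 | m43
                                        · exact absurd (show (6 : ℝ) < 0 by linear_combination 300 * h0 + 36 * z2 + 162 * y1 + 36 * f2 + 153 * sym + 12 * m4 + 42 * m5 + 9 * m7 + 21 * m21 + 47 * m24 + 75 * m43 + 21 * p01 + 153 * p11 + 153 * p14 + 153 * p15 + 15 * p22 + 27 * p25 + 138 * hσ - 300 * hθ) (by norm_num)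
                                        · exact absurd (show (0 : ℝ) < 0 by linear_combination 15 * h0 + 3 * y1 + 3 * y2 + 6 * m4 + 3 * m19 + m24 + m43 + 9 * p01 + 9 * p02 + 3 * p11 + 3 * p21 + 9 * hσ - 15 * hθ) (by norm_num)
                                  · exact absurd (show (3 / 5 : ℝ) < 0 by linear_combination 16 * h0 + z0 + 2 * z2 + f0 + 2 * f2 + 5 * sym + 4 * m4 + 8 * m5 + 2 * m10 + 7 * m20 + p02 + 6 * p03 + p04 + 2 * p11 + 2 * p22 + 5 * hμ + 21 * hσ - 21 * hθ) (by norm_num)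
                                · exact absurd (show (1 / 5 : ℝ) < 0 by linear_combination 2 * h0 + m17 + m19 + p01 + p14 + 2 * hσ - 2 * hθ) (by norm_num)
                            · exact absurd (show (2 / 5 : ℝ) < 0 by linear_combination 4 * h0 + 2 * m12 + m17 + 2 * p04 + 2 * p12 + 2 * p21 + 4 * hσ - 4 * hθ) (by norm_num)
                        · exact absurd (show (2 / 5 : ℝ) < 0 by linear_combination 4 * h0 + z0 + z1 + 4 * y2 + 2 * m12 + p01 + 2 * p02 + 3 * p03 + q0 + p11 + 2 * p12 + 3 * p13 + q1 - 4 * hθ) (by norm_num)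
                      · exact absurd (show (9 / 5 : ℝ) < 0 by linear_combination 48 * h0 + 3 * z0 + 6 * z2 + 21 * y1 + 3 * f0 + 6 * f2 + 15 * sym + 12 * m4 + 24 * m5 + 6 * m10 + 7 * m11 + 3 * p02 + 18 * p03 + 3 * p04 + 6 * p11 + 6 * p22 + 15 * hμ + 42 * hσ - 63 * hθ) (by norm_num)
                    · exact absurd (show (28 / 5 : ℝ) < 0 by linear_combination 316 * h0 + 16 * z0 + 32 * z2 + 132 * y1 + 16 * f0 + 32 * f2 + 80 * sym + 8 * d10 + 16 * d12 + 64 * m4 + 128 * m5 + 33 * m10 + 16 * p02 + 96 * p03 + 32 * p22 + 80 * hμ + 264 * hσ - 396 * hθ) (by norm_num)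
                  · exact absurd (show (31 : ℝ) < 0 by linear_combination 200 * h0 + 20 * z0 + 65 * z1 + 60 * z2 + 12 * f0 + 12 * f1 + 12 * f2 + 20 * m1 + 20 * m7 + 110 * m9 + 20 * p04 + 8 * q0 + 5 * p11 + 90 * p12 + 135 * p13 + 53 * q1 + 60 * p22 + 120 * p23 + 48 * q2 + 60 * hμ + 260 * hσ - 260 * hθ) (by norm_num)
              · exact absurd (show (2 / 5 : ℝ) < 0 by linear_combination 4 * h0 + 2 * m3 + m7 + 2 * p04 + 4 * hσ - 4 * hθ) (by norm_num)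
            · exact absurd (show (17 : ℝ) < 0 by linear_combination 100 * h0 + 35 * z0 + 40 * z2 + 120 * y1 + 4 * f0 + 8 * f2 + 20 * sym + 60 * m6 + 15 * p01 + 50 * p02 + 85 * p03 + 31 * q0 + 40 * p22 + 80 * p23 + 32 * q2 + 20 * hμ - 120 * hθ) (by norm_num)
          · exact absurd (show (3 / 5 : ℝ) < 0 by linear_combination 6 * h0 + 3 * y2 + 2 * m5 + 3 * p21 + 9 * p23 + 12 * p24 + 3 * q2 + 3 * hσ - 6 * hθ) (by norm_num)
        · exact absurd (show (3 / 5 : ℝ) < 0 by linear_combination 6 * h0 + 3 * m3 + m4 + 3 * p04 + 3 * p24 + 6 * hσ - 6 * hθ) (by norm_num)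
      · exact absurd (show (17 : ℝ) < 0 by linear_combination 100 * h0 + 35 * z0 + 40 * z2 + 120 * y1 + 4 * f0 + 8 * f2 + 20 * sym + 60 * m3 + 15 * p01 + 50 * p02 + 85 * p03 + 31 * q0 + 40 * p22 + 80 * p23 + 32 * q2 + 20 * hμ - 120 * hθ) (by norm_num)
  · exact absurd (show (12 / 5 : ℝ) < 0 by linear_combination 4 * h0 + m1 + 4 * hσ - 4 * hθ) (by norm_num)

end Pool.Agent.H328R2.ABC
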