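import Pool.Agent.H328R2.ABC.LP

/-!
# The linear programme, without the symmetry assumption
-/

namespace Pool.Agent.H328R2.ABC

open Finset

/-- exchange of the sides 1 and 2 -/
def sw (r : Fin 3) : Fin 3 := ![0, 2, 1] r

theorem lp_full (w : Fin 3 → ℕ → ℝ) (s : Fin 3 → ℝ) (μ σ θ : ℝ) (hμ : 0 ≤ μ) (hσ : 0 ≤ σ)
    (hθ : θ = 3 / 5 + μ + σ)
    (hw : ∀ r, ∀ i, 0 ≤ w r i) (hs : ∀ r, 0 ≤ s r)
    (h0 : RW w All 0 + RW w All 1 + RW w All 2 ≤ 1 + μ)
    (hz : ∀ r, SZ w s All r ≤ 1) (hy1 : 1 - σ ≤ SZ w s All 1) (hy2 : 1 - σ ≤ SZ w s All 2)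
    (hf : ∀ r, 5 * w r 5 ≤ s r)
    (hT : ∀ r, θ < RW w All (r + 1) + RW w All (r + 2))
    (hD : ∀ r q k : Fin 3, r ≠ q → r ≠ k → q ≠ k →
      θ < RW w (All \ {3}) r + RW w (All \ {4}) q + RW w All k + w q 4 / 3)
    (H : ∀ (r : Fin 3) (d : ℕ) (J K I : Finset ℕ), 1 ≤ d → d ≤ 4 → ok J d → ok K d → I ⊆ All →
      θ < L1 w r J K I ∨ θ < L2 w s r d J K I) : False := by
  rcases le_total (RW w All 1) (RW w All 2) with h12 | h12
  · exact lp_half w s μ σ θ hμ hσ hθ hw hs h0 hz hy1 hy2 hf h12 hT hD H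
  · have e0 : ∀ r S, RW (fun r i => w (sw r) i) S r = RW w S (sw r) := fun r S => rfl
    have e1 : ∀ r S, SZ (fun r i => w (sw r) i) (fun r => s (sw r)) S r = SZ w s S (sw r) :=
      fun r S => rfl
    refine lp_half (fun r i => w (sw r) i) (fun r => s (sw r)) μ σ θ hμ hσ hθ
      (fun r i => hw _ i) (fun r => hs _) ?_ (fun r => by rw [e1]; exact hz _) ?_ ?_
      (fun r => hf _) ?_ ?_ ?_ ?_
    · show RW w All 0 + RW w All 2 + RW w All 1 ≤ 1 + μ
      linarith
    · exact hy2
    · exact hy1
    · exact h12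
    · intro r
      fin_cases r
      · show θ < RW w All 2 + RW w All 1
        have := hT 0
        have h' : θ < RW w All 1 + RW w All 2 := this
        linarith
      · show θ < RW w All 1 + RW w All 0
        have h' : θ < RW w All 0 + RW w All 1 := hT 2
        linarith
      · show θ < RW w All 0 + RW w All 2
        have h' : θ < RW w All 2 + RW w All 0 := hT 1
        linarith
    · intro r q k h1 h2 h3
      have hi : ∀ a b : Fin 3, a ≠ b → sw a ≠ sw b := by decide
      exact hD (sw r) (sw q) (sw k) (hi _ _ h1) (hi _ _ h2) (hi _ _ h3)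
    · intro r d J K I hd hd4 hJ hK hI
      fin_cases r
      · rcases H 0 d K J I hd hd4 hK hJ hI with h | h
        · left
          have h' : θ < RW w (All \ K) 1 + RW w (All \ J) 2 + RW w I 0 := h
          show θ < RW w (All \ J) 2 + RW w (All \ K) 1 + RW w I 0
          linarith
        · right
          have h' : θ < RW w (All \ K) 1 + RW w (All \ J) 2 + RW w I 0 +
            (SZ w s K 1 + SZ w s J 2) / d - SZ w s I 0 + (SZ w s All 0 - 1) := h
          show θ < RW w (All \ J) 2 + RW w (All \ K) 1 + RW w I 0 +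
            (SZ w s J 2 + SZ w s K 1) / d - SZ w s I 0 + (SZ w s All 0 - 1)
          rw [add_comm (SZ w s J 2)]
          linarith
      · rcases H 2 d K J I hd hd4 hK hJ hI with h | h
        · left
          have h' : θ < RW w (All \ K) 0 + RW w (All \ J) 1 + RW w I 2 := h
          show θ < RW w (All \ J) 1 + RW w (All \ K) 0 + RW w I 2
          linarith
        · right
          have h' : θ < RW w (All \ K) 0 + RW w (All \ J) 1 + RW w I 2 +
            (SZ w s K 0 + SZ w s J 1) / d - SZ w s I 2 + 0 := h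
          show θ < RW w (All \ J) 1 + RW w (All \ K) 0 + RW w I 2 +
            (SZ w s J 1 + SZ w s K 0) / d - SZ w s I 2 + 0
          rw [add_comm (SZ w s J 1)]
          linarith
      · rcases H 1 d K J I hd hd4 hK hJ hI with h | h
        · left
          have h' : θ < RW w (All \ K) 2 + RW w (All \ J) 0 + RW w I 1 := h
          show θ < RW w (All \ J) 0 + RW w (All \ K) 2 + RW w I 1
          linarith
        · right
          have h' : θ < RW w (All \ K) 2 + RW w (All \ J) 0 + RW w I 1 +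
            (SZ w s K 2 + SZ w s J 0) / d - SZ w s I 1 + 0 := h
          show θ < RW w (All \ J) 0 + RW w (All \ K) 2 + RW w I 1 +
            (SZ w s J 0 + SZ w s K 2) / d - SZ w s I 1 + 0
          rw [add_comm (SZ w s J 0)]
          linarith

end Pool.Agent.H328R2.ABC
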