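import Pool.Agent.H328R2.ABC.Key
import Pool.Agent.H328R2.ABC.CountT
import Pool.Agent.H328R2.ABC.CountD
import Pool.Agent.H328R2.ABC.CountL

/-!
# The exceptional set of the abc conjecture: `O(X^{3/5+ε})`
-/

namespace Pool.Agent.H328R2.ABC

open Finset

/-- a family of conditions, each counted with `C X^ε Q`: their union too -/
theorem union_bound {ι : Type} (F : Finset ι) (P : ι → ℝ → ℕ × ℕ → Prop) (ε : ℝ)
    (h : ∀ i ∈ F, ∃ C : ℝ, 0 < C ∧ ∀ X : ℕ, 1 ≤ X → ∀ Q : ℝ, 1 ≤ Q → ∀ S : Finset (ℕ × ℕ),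
      (∀ t ∈ S, Adm X t ∧ P i Q t) → (S.card : ℝ) ≤ C * (X : ℝ) ^ ε * Q) :
    ∃ C : ℝ, 0 < C ∧ ∀ X : ℕ, 1 ≤ X → ∀ Q : ℝ, 1 ≤ Q → ∀ S : Finset (ℕ × ℕ),
      (∀ t ∈ S, Adm X t ∧ ∃ i ∈ F, P i Q t) → (S.card : ℝ) ≤ C * (X : ℝ) ^ ε * Q := by
  classical
  choose! C hC h using h
  refine ⟨∑ i ∈ F, C i + 1, by
    have := sum_nonneg (fun i hi => (hC i hi).le)
    linarith, ?_⟩
  intro X hX Q hQ S hS
  have hsub : S ⊆ F.biUnion (fun i => S.filter (fun t => P i Q t)) := by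
    intro t ht
    obtain ⟨i, hi, hP⟩ := (hS t ht).2
    exact mem_biUnion.mpr ⟨i, hi, mem_filter.mpr ⟨ht, hP⟩⟩
  have h1 : (S.card : ℝ) ≤ ∑ i ∈ F, ((S.filter (fun t => P i Q t)).card : ℝ) := by
    exact_mod_cast (card_le_card hsub).trans card_biUnion_le
  have h2 : ∑ i ∈ F, ((S.filter (fun t => P i Q t)).card : ℝ) ≤
      ∑ i ∈ F, C i * (X : ℝ) ^ ε * Q := by
    refine sum_le_sum (fun i hi => h i hi X hX Q hQ _ ?_)
    intro t ht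
    rw [mem_filter] at ht
    exact ⟨(hS t ht.1).1, ht.2⟩
  have h3 : (0 : ℝ) ≤ (X : ℝ) ^ ε * Q := by positivity
  calc (S.card : ℝ) ≤ ∑ i ∈ F, C i * (X : ℝ) ^ ε * Q := h1.trans h2
    _ = (∑ i ∈ F, C i) * ((X : ℝ) ^ ε * Q) := by rw [sum_mul]; simp [mul_assoc]
    _ ≤ (∑ i ∈ F, C i + 1) * ((X : ℝ) ^ ε * Q) := by nlinarith
    _ = _ := by ring

/-- one of the three kinds of bounds -/
def anyCond (Q : ℝ) (t : ℕ × ℕ) : Prop :=
  (∃ r, condT r Q t.1 t.2) ∨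
    (∃ r q k : Fin 3, r ≠ q ∧ r ≠ k ∧ q ≠ k ∧ condD r q k Q t.1 t.2) ∨
    (∃ (r : Fin 3) (d : ℕ) (J K I : Finset ℕ), 1 ≤ d ∧ d ≤ 4 ∧ ok J d ∧ ok K d ∧ I ⊆ All ∧
      condL r d J K I Q t.1 t.2)

theorem count_any (ε : ℝ) (hε : 0 < ε) :
    ∃ C : ℝ, 0 < C ∧ ∀ X : ℕ, 1 ≤ X → ∀ Q : ℝ, 1 ≤ Q → ∀ S : Finset (ℕ × ℕ),
      (∀ t ∈ S, Adm X t ∧ anyCond Q t) → (S.card : ℝ) ≤ C * (X : ℝ) ^ ε * Q := by
  classical
  obtain ⟨C1, hC1, h1⟩ := union_bound (univ : Finset (Fin 3))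
    (fun r Q t => condT r Q t.1 t.2) ε (fun r _ => countT r ε hε)
  obtain ⟨C2, hC2, h2⟩ := union_bound ((univ : Finset (Fin 3 × Fin 3 × Fin 3)).filter
    (fun x => x.1 ≠ x.2.1 ∧ x.1 ≠ x.2.2 ∧ x.2.1 ≠ x.2.2))
    (fun x Q t => condD x.1 x.2.1 x.2.2 Q t.1 t.2) ε (fun x hx => by
      rw [mem_filter] at hx
      exact countD _ _ _ hx.2.1 hx.2.2.1 hx.2.2.2 ε hε)
  obtain ⟨C3, hC3, h3⟩ := union_bound (((univ : Finset (Fin 3)) ×ˢ range 5 ×ˢ All.powerset ×ˢ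
    All.powerset ×ˢ All.powerset).filter
      (fun x => 1 ≤ x.2.1 ∧ ok x.2.2.1 x.2.1 ∧ ok x.2.2.2.1 x.2.1))
    (fun x Q t => condL x.1 x.2.1 x.2.2.1 x.2.2.2.1 x.2.2.2.2 Q t.1 t.2) ε (fun x hx => by
      rw [mem_filter] at hx
      simp only [mem_product, mem_powerset] at hx
      exact countL _ _ hx.2.1 _ _ _ hx.2.2.1 hx.2.2.2 hx.1.2.2.2.2 ε hε)
  refine ⟨C1 + C2 + C3, by positivity, ?_⟩
  intro X hX Q hQ S hS
  set S1 := S.filter (fun t => ∃ r, condT r Q t.1 t.2) with hS1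
  set S2 := S.filter (fun t => ∃ r q k : Fin 3, r ≠ q ∧ r ≠ k ∧ q ≠ k ∧
    condD r q k Q t.1 t.2) with hS2
  set S3 := S.filter (fun t => ∃ (r : Fin 3) (d : ℕ) (J K I : Finset ℕ), 1 ≤ d ∧ d ≤ 4 ∧ ok J d ∧
    ok K d ∧ I ⊆ All ∧ condL r d J K I Q t.1 t.2) with hS3
  have hsub : S ⊆ S1 ∪ (S2 ∪ S3) := by
    intro t ht
    rcases (hS t ht).2 with h | h | h
    · exact mem_union_left _ (mem_filter.mpr ⟨ht, h⟩)
    · exact mem_union_right _ (mem_union_left _ (mem_filter.mpr ⟨ht, h⟩))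
    · exact mem_union_right _ (mem_union_right _ (mem_filter.mpr ⟨ht, h⟩))
  have hc : (S.card : ℝ) ≤ S1.card + (S2.card + S3.card) := by
    have := (card_le_card hsub).trans ((card_union_le _ _).trans
      (Nat.add_le_add_left (card_union_le _ _) _))
    exact_mod_cast this
  have b1 := h1 X hX Q hQ S1 (fun t ht => by
    rw [hS1, mem_filter] at ht
    obtain ⟨r, hr⟩ := ht.2
    exact ⟨(hS t ht.1).1, r, mem_univ _, hr⟩)
  have b2 := h2 X hX Q hQ S2 (fun t ht => by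
    rw [hS2, mem_filter] at ht
    obtain ⟨r, q, k, e1, e2, e3, hr⟩ := ht.2
    exact ⟨(hS t ht.1).1, (r, q, k), mem_filter.mpr ⟨mem_univ _, e1, e2, e3⟩, hr⟩)
  have b3 := h3 X hX Q hQ S3 (fun t ht => by
    rw [hS3, mem_filter] at ht
    obtain ⟨r, d, J, K, I, e1, e2, e3, e4, e5, hr⟩ := ht.2
    refine ⟨(hS t ht.1).1, (r, d, J, K, I), mem_filter.mpr ⟨?_, e1, e3, e4⟩, hr⟩
    simp only [mem_product, mem_powerset, mem_univ, mem_range, true_and]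
    exact ⟨by omega, e3.1, e4.1, e5⟩)
  calc (S.card : ℝ) ≤ _ := hc
    _ ≤ C1 * (X : ℝ) ^ ε * Q + (C2 * (X : ℝ) ^ ε * Q + C3 * (X : ℝ) ^ ε * Q) := by linarith
    _ = _ := by ring

/-- the main bound, for ordered pairs -/
theorem exceptional_ordered (B lam ε : ℝ) (hε : 0 < ε) :
    ∃ C : ℝ, 0 < C ∧ ∀ X : ℕ, 1 ≤ X → ∀ S : Finset (ℕ × ℕ),
      (∀ t ∈ S, Adm X t ∧
        (rad (t.1 * t.2 * (t.1 + t.2)) : ℝ) ≤ B * ((t.1 + t.2 : ℕ) : ℝ) ^ lam) →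
      (S.card : ℝ) ≤ C * (X : ℝ) ^ (3 / 5 + max (lam - 1) 0 + ε) := by
  classical
  set σ : ℝ := ε / 4 with hσdef
  have hσ : 0 < σ := by positivity
  set μ : ℝ := max (lam - 1) 0 + σ with hμdef
  have hm0 : 0 ≤ max (lam - 1) 0 := le_max_right _ _
  have hm1 : lam - 1 ≤ max (lam - 1) 0 := le_max_left _ _
  have hμ : 0 ≤ μ := by linarith
  set θ : ℝ := 3 / 5 + μ + σ with hθdef
  obtain ⟨C, hC, hcount⟩ := count_any (ε / 2) (by positivity)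
  -- threshold
  have ev1 : ∀ᶠ n : ℕ in Filter.atTop, Real.log 2 ≤ σ * Real.log (n : ℝ) := by
    have : Filter.Tendsto (fun n : ℕ => σ * Real.log (n : ℝ)) Filter.atTop Filter.atTop :=
      (Real.tendsto_log_atTop.comp tendsto_natCast_atTop_atTop).const_mul_atTop hσ
    exact this.eventually_ge_atTop _
  have ev2 : ∀ᶠ n : ℕ in Filter.atTop, B ≤ (n : ℝ) ^ σ := by
    have : Filter.Tendsto (fun n : ℕ => (n : ℝ) ^ σ) Filter.atTop Filter.atTop :=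
      (tendsto_rpow_atTop hσ).comp tendsto_natCast_atTop_atTop
    exact this.eventually_ge_atTop _
  obtain ⟨N, hN⟩ := Filter.eventually_atTop.mp (ev1.and ev2)
  refine ⟨C + (N : ℝ) ^ 2, by positivity, ?_⟩
  intro X hX S hS
  have hX1 : (1 : ℝ) ≤ X := by exact_mod_cast hX
  have hX0 : (0 : ℝ) < X := by linarith
  have hθ0 : 0 ≤ θ := by linarith
  set S1 := S.filter (fun t => t.1 + t.2 < N) with hS1
  set S2 := S.filter (fun t => ¬ t.1 + t.2 < N) with hS2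
  have hsplit : S.card = S1.card + S2.card := (card_filter_add_card_filter_not _).symm
  have hb1 : (S1.card : ℝ) ≤ (N : ℝ) ^ 2 := by
    have : S1 ⊆ range N ×ˢ range N := by
      intro t ht
      rw [hS1, mem_filter] at ht
      rw [mem_product, mem_range, mem_range]
      omega
    have h := card_le_card this
    rw [card_product, card_range] at h
    have h' : (S1.card : ℝ) ≤ ((N * N : ℕ) : ℝ) := by exact_mod_cast h
    push_cast at h'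
    nlinarith
  have hb2 : (S2.card : ℝ) ≤ C * (X : ℝ) ^ (ε / 2) * (X : ℝ) ^ θ := by
    refine hcount X hX _ (Real.one_le_rpow hX1 hθ0) S2 ?_
    intro t ht
    rw [hS2, mem_filter] at ht
    obtain ⟨hadm, hr⟩ := hS t ht.1
    have hn : N ≤ t.1 + t.2 := by omega
    obtain ⟨e1, e2⟩ := hN _ hn
    obtain ⟨ha, hab, hcop, hle⟩ := hadm
    have hc1 : (1 : ℝ) ≤ ((t.1 + t.2 : ℕ) : ℝ) := by
      have : 1 ≤ t.1 + t.2 := by omega
      exact_mod_cast this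
    have hc0 : (0 : ℝ) < ((t.1 + t.2 : ℕ) : ℝ) := by linarith
    have hrad : (rad (t.1 * t.2 * (t.1 + t.2)) : ℝ) ≤ (((t.1 + t.2 : ℕ) : ℝ)) ^ (1 + μ) := by
      refine hr.trans ?_
      calc B * ((t.1 + t.2 : ℕ) : ℝ) ^ lam
          ≤ ((t.1 + t.2 : ℕ) : ℝ) ^ σ * ((t.1 + t.2 : ℕ) : ℝ) ^ lam := by
            gcongr
        _ = ((t.1 + t.2 : ℕ) : ℝ) ^ (σ + lam) := (Real.rpow_add hc0 _ _).symm
        _ ≤ _ := Real.rpow_le_rpow_of_exponent_le hc1 (by linarith)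
    refine ⟨⟨ha, hab, hcop, hle⟩, ?_⟩
    have hk := key μ σ θ hμ hσ.le hθdef t.1 t.2 ha hab hcop e1 hrad
    have hcX : (((t.1 + t.2 : ℕ) : ℝ)) ^ θ ≤ (X : ℝ) ^ θ :=
      Real.rpow_le_rpow hc0.le (by exact_mod_cast hle) hθ0
    rcases hk with ⟨r, h⟩ | ⟨r, q, k, f1, f2, f3, h⟩ | ⟨r, d, J, K, I, f1, f2, f3, f4, f5, h⟩
    · exact Or.inl ⟨r, h.trans hcX⟩
    · exact Or.inr (Or.inl ⟨r, q, k, f1, f2, f3, h.trans hcX⟩)
    · refine Or.inr (Or.inr ⟨r, d, J, K, I, f1, f2, f3, f4, f5, h.1.trans hcX, h.2.trans ?_⟩)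
      exact mul_le_mul_of_nonneg_right hcX (Nat.cast_nonneg _)
  have hexp : (X : ℝ) ^ (ε / 2) * (X : ℝ) ^ θ = (X : ℝ) ^ (3 / 5 + max (lam - 1) 0 + ε) := by
    rw [← Real.rpow_add hX0]
    congr 1
    rw [hθdef, hμdef, hσdef]
    ring
  have hone : (1 : ℝ) ≤ (X : ℝ) ^ (3 / 5 + max (lam - 1) 0 + ε) :=
    Real.one_le_rpow hX1 (by linarith)
  rw [hsplit]
  push_cast
  rw [mul_assoc, hexp] at hb2
  nlinarith [sq_nonneg (N : ℝ)]

end Pool.Agent.H328R2.ABC
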