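import Pool.Agent.H328R2.ABC.DetDvd
import Pool.Agent.H328R2.ABC.Hensel
import Pool.Agent.H328R2.ABC.FewPoints

set_option linter.unusedVariables false

namespace Pool.Agent.H328R2.ABC

/-- If all maximal minors of the values of a family of functions vanish, there is a relation. -/
theorem OneClass_rel {P : Type*} (D : ℕ) (v : P → Fin D → ℚ)
    (h : ∀ s : Fin D → P, (Matrix.of fun l k => v (s l) k).det = 0) :
    ∃ c : Fin D → ℚ, c ≠ 0 ∧ ∀ s : P, ∑ k, v s k * c k = 0 := by
  classical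
  have hlt : Submodule.span ℚ (Set.range v) < ⊤ := by
    rw [lt_top_iff_ne_top]
    intro htop
    obtain ⟨f, hf1, hf2, hf3⟩ := Submodule.exists_fun_fin_finrank_span_eq ℚ (Set.range v)
    have hfr : Module.finrank ℚ (Submodule.span ℚ (Set.range v)) = D := by
      rw [htop, finrank_top, Module.finrank_fin_fun]
    -- reindex
    have e : Fin D ≃ Fin (Module.finrank ℚ (Submodule.span ℚ (Set.range v))) :=
      finCongr hfr.symm
    choose s hs using hf1
    have h1 := h (fun l => s (e l))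
    have h2 : LinearIndependent ℚ (fun l : Fin D => v (s (e l))) := by
      have h3 := hf3.comp e e.injective
      have h4 : (fun l : Fin D => v (s (e l))) = f ∘ e := funext fun l => hs (e l)
      rw [h4]
      exact h3
    have h3 := (Matrix.linearIndependent_rows_iff_isUnit
      (A := Matrix.of fun l k => v (s (e l)) k)).mp h2
    rw [Matrix.isUnit_iff_isUnit_det, h1] at h3
    exact not_isUnit_zero h3
  obtain ⟨f, hf0, hfk⟩ := Submodule.exists_le_ker_of_lt_top _ hlt
  refine ⟨fun k => f (Pi.single k 1), ?_, ?_⟩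
  · intro hc
    apply hf0
    refine LinearMap.pi_ext' fun k => LinearMap.ext_ring ?_
    simpa using congrFun hc k
  · intro s
    have h1 : f (v s) = 0 := by
      have : v s ∈ LinearMap.ker f := hfk (Submodule.subset_span ⟨s, rfl⟩)
      exact this
    rw [← h1]
    conv_rhs => rw [LinearMap.pi_apply_eq_sum_univ f (v s)]
    refine Finset.sum_congr rfl fun k _ => ?_
    rw [smul_eq_mul]
    congr 1
    change f (Pi.single k 1) = f (fun j => if k = j then 1 else 0)
    congr 1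
    funext j
    simp [Pi.single_apply, eq_comm]

/-- size of the determinant -/
theorem OneClass_det_le (D : ℕ) (a b : Fin D → ℕ) (z x : Fin D → ℤ) (Z X : ℝ) (hZ : 1 ≤ Z)
    (hX : 1 ≤ X) (hz : ∀ l, |(z l : ℝ)| ≤ Z) (hx : ∀ l, |(x l : ℝ)| ≤ X) :
    |(((Matrix.of fun l k : Fin D => z l ^ a k * x l ^ b k).det : ℤ) : ℝ)| ≤
      (D.factorial : ℝ) * Z ^ (∑ k, a k) * X ^ (∑ k, b k) := by
  classical
  rw [Matrix.det_apply]
  push_cast
  refine (Finset.abs_sum_le_sum_abs _ _).trans ?_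
  have h1 : ∀ σ ∈ (Finset.univ : Finset (Equiv.Perm (Fin D))),
      |((Equiv.Perm.sign σ • ∏ i, (Matrix.of fun l k : Fin D => z l ^ a k * x l ^ b k) (σ i) i : ℤ)
        : ℝ)| ≤ Z ^ (∑ k, a k) * X ^ (∑ k, b k) := by
    intro σ _
    have h2 : |((Equiv.Perm.sign σ • ∏ i, (Matrix.of fun l k : Fin D => z l ^ a k * x l ^ b k)
        (σ i) i : ℤ) : ℝ)| = ∏ i, (|(z (σ i) : ℝ)| ^ a i * |(x (σ i) : ℝ)| ^ b i) := by
      rcases Int.units_eq_one_or (Equiv.Perm.sign σ) with h | h <;> rw [h] <;>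
        simp [Finset.abs_prod, abs_mul, abs_pow]
    rw [h2, ← Finset.prod_pow_eq_pow_sum, ← Finset.prod_pow_eq_pow_sum, ← Finset.prod_mul_distrib]
    refine Finset.prod_le_prod (fun i _ => by positivity) fun i _ => ?_
    exact mul_le_mul (pow_le_pow_left₀ (abs_nonneg _) (hz _) _)
      (pow_le_pow_left₀ (abs_nonneg _) (hx _) _) (by positivity) (by positivity)
  refine (Finset.sum_le_sum h1).trans (le_of_eq ?_)
  rw [Finset.sum_const, Finset.card_univ, Fintype.card_perm, Fintype.card_fin, nsmul_eq_mul]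
  ring

/-- Task H4: the points of the curve `U x³ = A z⁴ + B` in one residue class modulo `p`. -/
theorem one_class (m : ℕ) (p : ℕ) (hp : p.Prime) (U A B z0 x0 : ℤ) (hU : U ≠ 0) (hA : A ≠ 0)
    (h : ¬ (p : ℤ) ∣ 3 * U * x0) (X Z : ℝ) (hX : 1 ≤ X) (hZ : 1 ≤ Z)
    (hbig : ((3 * (m + 1)).factorial : ℝ) * Z ^ (3 * (m * (m + 1) / 2)) * X ^ (3 * (m + 1))
      < (p : ℝ) ^ (3 * (m + 1) * (3 * (m + 1) - 1) / 2))
    (S : Finset (ℤ × ℤ))
    (hS : ∀ q ∈ S, U * q.1 ^ 3 = A * q.2 ^ 4 + B ∧ (p : ℤ) ∣ q.1 - x0 ∧ (p : ℤ) ∣ q.2 - z0 ∧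
      |(q.1 : ℝ)| ≤ X ∧ |(q.2 : ℝ)| ≤ Z) :
    S.card ≤ 3 * m + 8 := by
  classical
  obtain ⟨D, hD⟩ : ∃ D, D = 3 * (m + 1) := ⟨_, rfl⟩
  rw [← hD] at hbig
  set e : Fin (m + 1) × Fin 3 ≃ Fin D :=
    finProdFinEquiv.trans (finCongr (by omega)) with he
  set a : Fin D → ℕ := fun k => ((e.symm k).1 : ℕ) with ha
  set b : Fin D → ℕ := fun k => ((e.symm k).2 : ℕ) with hb
  have hsa : ∑ k, a k = 3 * (m * (m + 1) / 2) := by
    rw [← e.sum_comp]
    simp only [ha, Equiv.symm_apply_apply]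
    rw [Fintype.sum_prod_type]
    simp only [Finset.sum_const, Finset.card_univ, Fintype.card_fin, smul_eq_mul]
    rw [← Finset.mul_sum, Fin.sum_univ_eq_sum_range (fun i => i) (m + 1), Finset.sum_range_id]
    rw [Nat.add_sub_cancel, mul_comm (m + 1) m]
  have hsb : ∑ k, b k = D := by
    rw [← e.sum_comp]
    simp only [hb, Equiv.symm_apply_apply]
    rw [Fintype.sum_prod_type]
    simp only [Fin.sum_univ_three, Finset.sum_const, Finset.card_univ, Fintype.card_fin,
      smul_eq_mul]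
    rw [hD]
    simp
    ring
  obtain ⟨N, hN⟩ : ∃ N, N = D * (D - 1) / 2 := ⟨_, rfl⟩
  obtain ⟨Φ, hΦ⟩ := hensel p hp U A B z0 x0 h N
  -- all minors vanish
  have hminor : ∀ s : Fin D → {q : ℤ × ℤ // q ∈ S},
      (Matrix.of fun l k : Fin D => (s l).1.2 ^ a k * (s l).1.1 ^ b k).det = 0 := by
    intro s
    have hdvd : ((p : ℤ) ^ N) ∣
        (Matrix.of fun l k : Fin D => (s l).1.2 ^ a k * (s l).1.1 ^ b k).det := by
      have h1 := det_dvd D (p : ℤ) (fun l => (s l).1.2) z0
        (fun l => (hS _ (s l).2).2.2.1) (fun k => Polynomial.X ^ a k * Φ ^ b k)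
      rw [← hN] at h1
      have h2 : ((p : ℤ) ^ N) ∣
          (Matrix.of fun l k : Fin D => (s l).1.2 ^ a k * (s l).1.1 ^ b k).det -
          (Matrix.of fun l k : Fin D =>
            (Polynomial.X ^ a k * Φ ^ b k : Polynomial ℤ).eval ((s l).1.2)).det := by
        have hcast : ((p : ℤ) ^ N) = ((p ^ N : ℕ) : ℤ) := by push_cast; rfl
        rw [hcast, ← ZMod.intCast_zmod_eq_zero_iff_dvd, Int.cast_sub]
        have e1 : ∀ M : Matrix (Fin D) (Fin D) ℤ, ((M.det : ℤ) : ZMod (p ^ N)) =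
            (M.map (Int.castRingHom (ZMod (p ^ N)))).det := fun M =>
          RingHom.map_det (Int.castRingHom (ZMod (p ^ N))) M
        rw [e1, e1, sub_eq_zero]
        congr 1
        ext l k
        simp only [Matrix.map_apply, Matrix.of_apply, Polynomial.eval_mul, Polynomial.eval_pow,
          Polynomial.eval_X, map_mul, map_pow]
        congr 2
        have h3 := hΦ (s l).1.2 (s l).1.1 (hS _ (s l).2).2.2.1 (hS _ (s l).2).2.1
          (hS _ (s l).2).1
        rw [hcast, ← ZMod.intCast_zmod_eq_zero_iff_dvd, Int.cast_sub, sub_eq_zero] at h3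
        exact h3
      exact (Int.dvd_add_right (dvd_neg.mpr h2)).mp (by
        rw [neg_sub, sub_add_cancel]
        exact h1)
    by_contra hne
    have h3 : ((p : ℤ) ^ N) ≤
        |(Matrix.of fun l k : Fin D => (s l).1.2 ^ a k * (s l).1.1 ^ b k).det| :=
      Int.le_of_dvd (abs_pos.mpr hne) ((dvd_abs _ _).mpr hdvd)
    have h4 := OneClass_det_le D a b (fun l => (s l).1.2) (fun l => (s l).1.1) Z X hZ hX
      (fun l => (hS _ (s l).2).2.2.2.2) (fun l => (hS _ (s l).2).2.2.2.1)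
    rw [hsa, hsb] at h4
    have h5 : ((p : ℝ) ^ N) ≤
        |(((Matrix.of fun l k : Fin D => (s l).1.2 ^ a k * (s l).1.1 ^ b k).det : ℤ) : ℝ)| := by
      rw [← Int.cast_abs]
      exact_mod_cast h3
    rw [← hN] at hbig
    linarith
  -- the relation
  obtain ⟨c, hc0, hc⟩ := OneClass_rel D
    (fun (q : {q : ℤ × ℤ // q ∈ S}) k => ((q.1.2 : ℚ) ^ a k * (q.1.1 : ℚ) ^ b k)) (by
      intro s
      have h1 := hminor s
      have h2 := RingHom.map_det (Int.castRingHom ℚ)
        (Matrix.of fun l k : Fin D => (s l).1.2 ^ a k * (s l).1.1 ^ b k)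
      rw [h1, map_zero] at h2
      rw [h2]
      congr 1
      ext l k
      simp)
  refine few_points m U A B hU hA (fun α β => c (e (α, β))) ?_ S ?_
  · intro h0
    apply hc0
    funext k
    have := congrFun (congrFun h0 (e.symm k).1) (e.symm k).2
    simpa using this
  · intro q hq
    refine ⟨(hS q hq).1, ?_⟩
    have h1 := hc ⟨q, hq⟩
    rw [← e.sum_comp] at h1
    simp only [ha, hb, Equiv.symm_apply_apply] at h1
    rw [Fintype.sum_prod_type] at h1
    rw [← h1]
    refine Finset.sum_congr rfl fun α _ => Finset.sum_congr rfl fun β _ => ?_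
    ring

end Pool.Agent.H328R2.ABC
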